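import Pool.Agent.Work.MP_2b8540_co.S.Defs

/-!
# Module S/ClassB (S-M): biased families, and monotonicity of `NonRandom`

## Proof
* `nonRandom_mono`: for `k ≤ k'` (`k ≥ 1`): `2^((1-1/k')n) ≤ |U|` implies `2^((1-1/k)n) ≤ |U|`;
  `Sys k T → Sys k' T`; `n/k' ≤ n/k`.
* `classB`: `K = k²`. `P` biased via `X`, `U ⊆ P` with `|U| ≥ 2^((1-1/K)n)`, so `U` is nonempty.
  `T i = {i}` for `i ∈ X` and `∅` otherwise: `Sys K T` (`K ≥ 1`), and the terms of `dev U T` with `i ∉ X` are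
  `|1 - 1| = 0` (not needed, they are `≥ 0`). `∑_{i ∈ X} av U {i} = (1/|U|) ∑_{a∈U} |X \ a|
  = |X| - (1/|U|) ∑_{a ∈ U} |a ∩ X|`. If all `|a ∩ X| ≥ (1-q+1/k)|X|` this is `≤ (q - 1/k)|X|`, in the other
  case it is `≥ (q + 1/k)|X|`. So `dev U T ≥ |∑_{i∈X} (av U {i} - q)| ≥ |X|/k ≥ n/k²`.
-/

open Finset

namespace EMS

theorem nonRandom_mono {k k' n : ℕ} (hk : 1 ≤ k) (hkk : k ≤ k')
    {P : Finset (Finset (Fin (2 * n)))} (h : NonRandom k n P) : NonRandom k' n P := by
  intro U hU hc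
  have hk0 : (0 : ℝ) < k := by exact_mod_cast hk
  have hk0' : (0 : ℝ) < k' := lt_of_lt_of_le hk0 (by exact_mod_cast hkk)
  have hinv : 1 / (k' : ℝ) ≤ 1 / (k : ℝ) :=
    one_div_le_one_div_of_le hk0 (by exact_mod_cast hkk)
  have h1 : (2 : ℝ) ^ ((1 - 1 / (k : ℝ)) * n) ≤ (U.card : ℝ) := by
    refine le_trans (Real.rpow_le_rpow_of_exponent_le (by norm_num) ?_) hc
    have : (0 : ℝ) ≤ n := by positivity
    nlinarith
  obtain ⟨T, hT, hd⟩ := h U hU h1
  refine ⟨T, ⟨hT.1, fun i => (hT.2 i).trans hkk⟩, le_trans ?_ hd⟩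
  have : (0 : ℝ) ≤ n := by positivity
  calc (n : ℝ) / k' = n * (1 / k') := by ring
    _ ≤ n * (1 / k) := mul_le_mul_of_nonneg_left hinv this
    _ = n / k := by ring

lemma sum_av {N : ℕ} (U : Finset (Finset (Fin N))) (hU : U.Nonempty) (X : Finset (Fin N)) :
    ∑ i ∈ X, av U {i} = X.card - (∑ a ∈ U, ((a ∩ X).card : ℝ)) / U.card := by
  have hU0 : (0 : ℝ) < U.card := by exact_mod_cast hU.card_pos
  have h1 : ∀ i ∈ X, av U {i} = (∑ a ∈ U, (if i ∈ a then (0 : ℝ) else 1)) / U.card := by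
    intro i _
    unfold av
    congr 1
    rw [Finset.card_filter]
    push_cast
    refine Finset.sum_congr rfl fun a _ => ?_
    by_cases h : i ∈ a <;> simp [h]
  rw [Finset.sum_congr rfl h1, ← Finset.sum_div, Finset.sum_comm]
  have h2 : ∀ a ∈ U, (∑ i ∈ X, (if i ∈ a then (0 : ℝ) else 1)) = X.card - ((a ∩ X).card : ℝ) := by
    intro a _
    have : ∀ i ∈ X, (if i ∈ a then (0 : ℝ) else 1) = 1 - (if i ∈ a then (1 : ℝ) else 0) := by
      intro i _
      by_cases h : i ∈ a <;> simp [h]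
    rw [Finset.sum_congr rfl this, Finset.sum_sub_distrib]
    have h3 : (∑ i ∈ X, (if i ∈ a then (1 : ℝ) else 0)) = ((a ∩ X).card : ℝ) := by
      rw [Finset.sum_ite, Finset.sum_const_zero, add_zero, Finset.sum_const, nsmul_eq_mul, mul_one]
      congr 2
      ext i
      simp [and_comm]
    rw [h3]
    simp
  rw [Finset.sum_congr rfl h2, Finset.sum_sub_distrib]
  simp only [Finset.sum_const, nsmul_eq_mul]
  field_simp

theorem classB (k : ℕ) (hk : 1 ≤ k) : ∃ K : ℕ, 1 ≤ K ∧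
    ∀ (n : ℕ) (P : Finset (Finset (Fin (2 * n)))), Biased k n P → NonRandom K n P := by
  classical
  refine ⟨k ^ 2, Nat.one_le_pow _ _ hk, fun n P hP U hU hc => ?_⟩
  obtain ⟨X, hX, hb⟩ := hP
  have hk0 : (0 : ℝ) < k := by exact_mod_cast hk
  have hUpos : (0 : ℝ) < U.card := lt_of_lt_of_le (Real.rpow_pos_of_pos (by norm_num) _) hc
  have hUne : U.Nonempty := by
    rw [← Finset.card_pos]
    exact_mod_cast hUpos
  refine ⟨fun i => if i ∈ X then {i} else ∅, ⟨?_, ?_⟩, ?_⟩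
  · intro i j hij
    by_cases h1 : i ∈ X <;> by_cases h2 : j ∈ X <;> simp [h1, h2, hij, Ne.symm hij]
  · intro i
    have : 1 ≤ k ^ 2 := Nat.one_le_pow _ _ hk
    by_cases h1 : i ∈ X <;> simp [h1]
    exact this
  · unfold dev
    have h1 : ∑ i ∈ X, |av U {i} - q| ≤
        ∑ i, |av U (if i ∈ X then {i} else ∅) - q ^ (if i ∈ X then {i} else ∅ : Finset _).card| := by
      have h2 : ∑ i ∈ X, |av U {i} - q| =
          ∑ i ∈ X, |av U (if i ∈ X then {i} else ∅)
            - q ^ (if i ∈ X then {i} else ∅ : Finset _).card| := by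
        refine Finset.sum_congr rfl fun i hi => ?_
        simp [hi]
      rw [h2]
      exact Finset.sum_le_sum_of_subset_of_nonneg (Finset.subset_univ X)
        (fun _ _ _ => abs_nonneg _)
    refine le_trans ?_ h1
    refine le_trans ?_ (Finset.abs_sum_le_sum_abs _ _)
    rw [Finset.sum_sub_distrib, sum_av U hUne X, Finset.sum_const, nsmul_eq_mul]
    have hXn : (n : ℝ) ≤ k * X.card := by exact_mod_cast hX
    have h3 : (n : ℝ) / ((k ^ 2 : ℕ) : ℝ) ≤ X.card / k := by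
      push_cast
      rw [div_le_div_iff₀ (by positivity) hk0]
      nlinarith
    refine le_trans h3 ?_
    have hdiv : ∀ s : ℝ, s / U.card * U.card = s := fun s => div_mul_cancel₀ s hUpos.ne'
    rcases hb with hb | hb
    · have h4 : (1 - q + 1 / k) * X.card ≤ (∑ a ∈ U, ((a ∩ X).card : ℝ)) / U.card := by
        rw [le_div_iff₀ hUpos]
        calc (1 - q + 1 / k) * X.card * U.card = ∑ _a ∈ U, (1 - q + 1 / (k : ℝ)) * X.card := by
              rw [Finset.sum_const, nsmul_eq_mul]; ring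
          _ ≤ _ := Finset.sum_le_sum fun a ha => hb a (hU ha)
      rw [abs_sub_comm]
      refine le_trans ?_ (le_abs_self _)
      have : (X.card : ℝ) / k = 1 / k * X.card := by ring
      nlinarith
    · have h4 : (∑ a ∈ U, ((a ∩ X).card : ℝ)) / U.card ≤ (1 - q - 1 / k) * X.card := by
        rw [div_le_iff₀ hUpos]
        calc ∑ a ∈ U, ((a ∩ X).card : ℝ) ≤ ∑ _a ∈ U, (1 - q - 1 / (k : ℝ)) * X.card :=
              Finset.sum_le_sum fun a ha => hb a (hU ha)
          _ = _ := by rw [Finset.sum_const, nsmul_eq_mul]; ring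
      refine le_trans ?_ (le_abs_self _)
      have : (X.card : ℝ) / k = 1 / k * X.card := by ring
      nlinarith

end EMS
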