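import Pool.Agent.Work.MP_2b8540_co.S.ClassU

/-!
# S/ClassD: families with small doubling are not random-like (generalises S/ClassU)
-/

open Finset

namespace EMS

theorem classD : ∃ K : ℕ, 1 ≤ K ∧ ∀ (n : ℕ) (P : Finset (Finset (Fin (2 * n)))),
    ((unions P).card : ℝ) ≤ 2 ^ ((1.07 : ℝ) * n) → NonRandom K n P := by
  refine ⟨2000, by norm_num, fun n P hPc U hUP hU => ?_⟩
  refine ⟨fun i => {i}, ⟨fun i j hij => ?_, fun i => by simp⟩, ?_⟩
  · rw [Finset.disjoint_singleton]
    exact hij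
  by_contra hcon
  rw [not_le] at hcon
  have hdev : dev U (fun i : Fin (2 * n) => ({i} : Finset (Fin (2 * n)))) =
      ∑ i : Fin (2 * n), |av U {i} - q| := by
    unfold dev
    simp only [Finset.card_singleton, pow_one]
  have hd0 : 0 ≤ dev U (fun i : Fin (2 * n) => ({i} : Finset (Fin (2 * n)))) := by
    rw [hdev]
    exact Finset.sum_nonneg fun _ _ => abs_nonneg _
  have hn : (0 : ℝ) < n := by
    have h1 := hd0.trans_lt hcon
    by_contra h
    have h2 : (n : ℝ) = 0 := le_antisymm (not_lt.1 h) (Nat.cast_nonneg _)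
    rw [h2] at h1
    simp at h1
  have hUc : (0 : ℝ) < U.card := lt_of_lt_of_le (by positivity) hU
  have hUn : U.Nonempty := Finset.card_pos.1 (by exact_mod_cast hUc)
  have hmem : ∀ a ∈ U, ∀ b ∈ U, a ∪ b ∈ unions P := by
    intro a ha b hb
    unfold unions
    rw [Finset.mem_filter]
    exact ⟨Finset.mem_univ _, a, hUP ha, b, hUP hb, rfl⟩
  have hg := gilmer U (unions P) hUn hmem
  rw [← hdev] at hg
  have hPpos : (0 : ℝ) < (unions P).card := by
    obtain ⟨a, ha⟩ := hUn
    exact_mod_cast (Finset.card_pos.2 ⟨a ∪ a, hmem a ha a ha⟩)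
  have hl2 : 0 < Real.log 2 := Real.log_pos (by norm_num)
  have h1 : (1 - 1 / ((2000 : ℕ) : ℝ)) * n * Real.log 2 ≤ Real.log U.card := by
    rw [← Real.log_rpow (by norm_num)]
    exact Real.log_le_log (by positivity) hU
  have h2 : Real.log (unions P).card ≤ (1.07 : ℝ) * n * Real.log 2 := by
    rw [← Real.log_rpow (by norm_num)]
    exact Real.log_le_log hPpos hPc
  set lam : ℝ := (2 : ℝ) ^ ((3 : ℝ) / 5) with hlam
  have hlam0 : 0 < lam := by positivity
  have hl5 : lam ^ 5 = 8 := by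
    rw [hlam, ← Real.rpow_natCast, ← Real.rpow_mul (by norm_num)]
    norm_num
  have hlam1 : lam ≤ 1.52 := by
    by_contra h
    have h3 : (1.52 : ℝ) ^ 5 < lam ^ 5 := pow_lt_pow_left₀ (not_le.1 h) (by norm_num) (by norm_num)
    rw [hl5] at h3
    norm_num at h3
  have hlq : 1.0717 ≤ lam * q := by
    by_contra h
    have h3 : (lam * q) ^ 10 < (1.0717 : ℝ) ^ 10 :=
      pow_lt_pow_left₀ (not_le.1 h) (mul_nonneg hlam0.le q_pos.le) (by norm_num)
    have h4 : (lam * q) ^ 10 = 2 := by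
      have e1 : (lam * q) ^ 10 = (lam ^ 5) ^ 2 * (q ^ 2) ^ 5 := by ring
      rw [e1, hl5, q_sq']
      norm_num
    rw [h4] at h3
    norm_num at h3
  have h3 : lam * (q * ((1 - 1 / ((2000 : ℕ) : ℝ)) * n * Real.log 2) -
      Real.log 2 * (n / ((2000 : ℕ) : ℝ))) ≤ (1.07 : ℝ) * n * Real.log 2 := by
    refine le_trans ?_ (hg.trans h2)
    refine mul_le_mul_of_nonneg_left ?_ hlam0.le
    have h4 := mul_le_mul_of_nonneg_left h1 q_pos.le
    have h5 := mul_le_mul_of_nonneg_left hcon.le hl2.le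
    linarith
  have hnl : 0 < (n : ℝ) * Real.log 2 := mul_pos hn hl2
  have h6 : (lam * q * (1 - 1 / 2000) - lam / 2000 - 1.07) * (n * Real.log 2) ≤ 0 := by
    push_cast at h3
    linarith
  have h7 : 0 < lam * q * (1 - 1 / 2000) - lam / 2000 - 1.07 := by
    linarith
  exact absurd (mul_pos h7 hnl) (not_lt.2 h6)

end EMS
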