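import Pool.Agent.Work.MP_2b8540_co.S.NumEnt

/-!
# Module S/ClassI (M): families with an informative set of coordinates

Imports `EMS.hq_upper`, `EMS.log_ratio`.

## Proof
* `weight`: for `w ⊆ I` let `ω(w) = q^|I \ w| (1-q)^|w| > 0`; `∑_{w ⊆ I} ω(w) = (q + (1-q))^|I| = 1`
  (`Finset.sum_pow_mul_eq_add_pow` or `Finset.prod_add`). If every trace on `I` is shared by at most
  `Λ` members of `U` then `∑_{a ∈ U} ω(a ∩ I) ≤ Λ`. By Jensen (`exp` is convex)
  `|U| exp( (1/|U|) ∑_{a∈U} log ω(a ∩ I) ) ≤ Λ`, and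
  `(1/|U|) ∑_{a∈U} log ω(a ∩ I) = ∑_{i∈I} (u_i log q + (1-u_i) log(1-q))`, `u_i = av U {i}`,
  `= - |I| hq + ∑_{i∈I} (u_i - q)(log q - log(1-q)) ≥ - |I| hq - 0.887 ∑_{i ∈ I} |u_i - q|`.
  So `log |U| ≤ log Λ + |I| hq + 0.887 ∑_{i∈I} |u_i - q|`.
* `classI`: `K = 3k`, `T i = {i}` (`K ≥ 1`). `P` informative via `I`, `U ⊆ P`,
  `|U| ≥ 2^((1-1/K)n) > 0`, and suppose `dev U T < n/K` (so `n ≥ 1`). With
  `Λ = 2^((1-1/k)n - 7/8 |I|)`: `(1 - 1/K) n log 2 ≤ (1-1/k) n log 2 - 7/8 |I| log 2 + |I| hq + 0.887 n/K`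
  `≤ (1-1/k) n log 2 + 0.887 n/K`. So `(1/k - 1/K) log 2 ≤ 0.887/K`, i.e. `2 log 2 ≤ 0.887` (`K = 3k`):
  contradiction as `log 2 > 0.69`.
-/

open Finset

namespace EMS

theorem weight {N : ℕ} (U : Finset (Finset (Fin N))) (hU : U.Nonempty) (I : Finset (Fin N))
    {Λ : ℝ} (hΛ : ∀ w : Finset (Fin N), ((U.filter fun a => a ∩ I = w).card : ℝ) ≤ Λ) :
    Real.log U.card ≤ Real.log Λ + I.card * hq + 0.887 * ∑ i ∈ I, |av U {i} - q| := by
  have hq0 := q_pos
  have hq1 := q_lt_one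
  have hr := log_ratio
  obtain ⟨u, hu⟩ : ∃ u : ℝ, u = (U.card : ℝ) := ⟨_, rfl⟩
  have hu0 : 0 < u := by
    rw [hu]
    exact_mod_cast hU.card_pos
  have hΛ0 : 0 < Λ := by
    obtain ⟨a, ha⟩ := hU
    have h1 : 0 < (U.filter fun b => b ∩ I = a ∩ I).card :=
      Finset.card_pos.2 ⟨a, Finset.mem_filter.2 ⟨ha, rfl⟩⟩
    have h2 : (0 : ℝ) < ((U.filter fun b => b ∩ I = a ∩ I).card : ℝ) := by exact_mod_cast h1
    exact h2.trans_le (hΛ _)
  obtain ⟨ω, hω⟩ : ∃ ω : Finset (Fin N) → ℝ,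
    ω = fun w => (1 - q) ^ w.card * q ^ (I.card - w.card) := ⟨_, rfl⟩
  have hω0 : ∀ w, 0 < ω w := by
    intro w
    rw [hω]
    exact mul_pos (pow_pos (by linarith) _) (pow_pos hq0 _)
  have hωs : ∑ w ∈ I.powerset, ω w = 1 := by
    rw [hω, Finset.sum_pow_mul_eq_add_pow, sub_add_cancel, one_pow]
  have h1 : ∑ a ∈ U, ω (a ∩ I) ≤ Λ := by
    have h2 : ∀ a ∈ U, a ∩ I ∈ I.powerset := fun a _ =>
      Finset.mem_powerset.2 Finset.inter_subset_right
    rw [← Finset.sum_fiberwise_of_maps_to h2]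
    calc ∑ w ∈ I.powerset, ∑ a ∈ U with a ∩ I = w, ω (a ∩ I)
        = ∑ w ∈ I.powerset, ((U.filter fun a => a ∩ I = w).card : ℝ) * ω w := by
          refine Finset.sum_congr rfl fun w _ => ?_
          rw [Finset.sum_congr rfl (fun a ha => by rw [(Finset.mem_filter.1 ha).2]),
            Finset.sum_const, nsmul_eq_mul]
      _ ≤ ∑ w ∈ I.powerset, Λ * ω w :=
          Finset.sum_le_sum fun w _ => mul_le_mul_of_nonneg_right (hΛ w) (hω0 w).le
      _ = Λ := by rw [← Finset.mul_sum, hωs, mul_one]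
  have h2 : ∑ a ∈ U, Real.log (ω (a ∩ I)) ≤ u * (Real.log Λ - Real.log u) := by
    have h3 : ∀ a ∈ U, Real.log (ω (a ∩ I)) ≤
        Real.log Λ - Real.log u + (ω (a ∩ I) * (u / Λ) - 1) := by
      intro a _
      have h4 := Real.log_le_sub_one_of_pos (mul_pos (hω0 (a ∩ I)) (div_pos hu0 hΛ0))
      rw [Real.log_mul (hω0 _).ne' (div_pos hu0 hΛ0).ne', Real.log_div hu0.ne' hΛ0.ne'] at h4
      linarith
    refine (Finset.sum_le_sum h3).trans ?_
    simp only [Finset.sum_add_distrib, Finset.sum_sub_distrib, ← Finset.sum_mul,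
      Finset.sum_const, nsmul_eq_mul, ← hu]
    have h4 : (∑ a ∈ U, ω (a ∩ I)) * (u / Λ) ≤ Λ * (u / Λ) :=
      mul_le_mul_of_nonneg_right h1 (div_pos hu0 hΛ0).le
    rw [mul_div_cancel₀ u hΛ0.ne'] at h4
    linarith
  have h3 : ∀ a, Real.log (ω (a ∩ I)) =
      ∑ i ∈ I, ((if i ∈ a then (1 : ℝ) else 0) * (Real.log (1 - q) - Real.log q) +
        Real.log q) := by
    intro a
    have h4 : ((a ∩ I).card : ℝ) = ∑ i ∈ I, (if i ∈ a then (1 : ℝ) else 0) := by
      rw [Finset.inter_comm, ← Finset.filter_mem_eq_inter, Finset.card_filter]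
      push_cast
      rfl
    have h5 : (((I.card - (a ∩ I).card : ℕ)) : ℝ) = I.card - (a ∩ I).card :=
      Nat.cast_sub (Finset.card_le_card Finset.inter_subset_right)
    rw [hω]
    dsimp only
    rw [Real.log_mul (pow_pos (by linarith) _).ne' (pow_pos hq0 _).ne', Real.log_pow,
      Real.log_pow, h5, Finset.sum_add_distrib, ← Finset.sum_mul, ← h4, Finset.sum_const,
      nsmul_eq_mul]
    ring
  have h4 : ∀ i, ∑ a ∈ U, ((if i ∈ a then (1 : ℝ) else 0) * (Real.log (1 - q) - Real.log q) +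
        Real.log q) = u * ((1 - av U {i}) * (Real.log (1 - q) - Real.log q) + Real.log q) := by
    intro i
    rw [Finset.sum_add_distrib, ← Finset.sum_mul, Finset.sum_const, nsmul_eq_mul, ← hu]
    have h5 : ∑ a ∈ U, (if i ∈ a then (1 : ℝ) else 0) = ((U.filter fun a => i ∈ a).card : ℝ) := by
      rw [Finset.card_filter]
      push_cast
      rfl
    have h6 : ((U.filter fun a => i ∈ a).card : ℝ) +
        ((U.filter fun a => ¬ i ∈ a).card : ℝ) = u := by
      rw [hu]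
      exact_mod_cast Finset.card_filter_add_card_filter_not (s := U) (fun a => i ∈ a)
    have h7 : u * av U {i} = ((U.filter fun a => ¬ i ∈ a).card : ℝ) := by
      unfold av
      rw [← hu, mul_div_cancel₀ _ hu0.ne']
      simp only [Finset.disjoint_singleton_right]
    rw [h5]
    have h8 : ((U.filter fun a => i ∈ a).card : ℝ) = u * (1 - av U {i}) := by
      rw [mul_sub, h7, mul_one]
      linarith
    rw [h8]
    ring
  simp only [h3] at h2
  rw [Finset.sum_comm] at h2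
  simp only [h4] at h2
  rw [← Finset.mul_sum] at h2
  have h5 := le_of_mul_le_mul_left h2 hu0
  have h6 : ∑ i ∈ I, (-hq - 0.887 * |av U {i} - q|) ≤
      ∑ i ∈ I, ((1 - av U {i}) * (Real.log (1 - q) - Real.log q) + Real.log q) := by
    refine Finset.sum_le_sum fun i _ => ?_
    unfold hq
    have h7 : (av U {i} - q) * (Real.log q - Real.log (1 - q)) ≥ -(0.887 * |av U {i} - q|) := by
      have h8 := neg_abs_le (av U {i} - q)
      have h9 := abs_nonneg (av U {i} - q)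
      nlinarith
    nlinarith
  rw [Finset.sum_sub_distrib, Finset.sum_const, nsmul_eq_mul, ← Finset.mul_sum] at h6
  rw [← hu]
  linarith

theorem classI (k : ℕ) (hk : 1 ≤ k) : ∃ K : ℕ, 1 ≤ K ∧
    ∀ (n : ℕ) (P : Finset (Finset (Fin (2 * n)))), Informative k n P → NonRandom K n P := by
  refine ⟨3 * k, by omega, ?_⟩
  rintro n P ⟨I, hI⟩ U hUP hUc
  refine ⟨fun i => {i}, ⟨fun i j hij => Finset.disjoint_singleton.2 hij, fun i => ?_⟩, ?_⟩
  · rw [Finset.card_singleton]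
    omega
  · by_contra hcon
    push Not at hcon
    have hk0 : (0 : ℝ) < k := by exact_mod_cast hk
    have hU0 : 0 < (U.card : ℝ) := lt_of_lt_of_le (Real.rpow_pos_of_pos two_pos _) hUc
    have hUne : U.Nonempty := by
      rw [← Finset.card_pos]
      exact_mod_cast hU0
    have h1 := weight U hUne I (Λ := 2 ^ ((1 - 1 / (k : ℝ)) * n - 7 / 8 * (I.card : ℝ))) (by
      intro w
      refine le_trans ?_ (hI w)
      exact_mod_cast Finset.card_le_card (Finset.filter_subset_filter _ hUP))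
    rw [Real.log_rpow two_pos] at h1
    have h2 := Real.log_le_log (Real.rpow_pos_of_pos two_pos _) hUc
    rw [Real.log_rpow two_pos] at h2
    have h3 : ∑ i ∈ I, |av U {i} - q| ≤ dev U (fun i => {i}) := by
      unfold dev
      simp only [Finset.card_singleton, pow_one]
      exact Finset.sum_le_sum_of_subset_of_nonneg (Finset.subset_univ _)
        (fun i _ _ => abs_nonneg _)
    have h4 := hq_upper
    have h5 := Real.log_two_gt_d9
    have h6 : (I.card : ℝ) * hq ≤ I.card * (7 / 8 * Real.log 2) :=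
      mul_le_mul_of_nonneg_left h4 (Nat.cast_nonneg _)
    push_cast at h2 hcon
    obtain ⟨t, ht⟩ : ∃ t : ℝ, t = (n : ℝ) / (3 * k) := ⟨_, rfl⟩
    have ht0 : 0 ≤ t := by
      rw [ht]
      positivity
    have e1 : (1 - 1 / (3 * (k : ℝ))) * n = n - t := by
      rw [ht]
      field_simp
    have e2 : (1 - 1 / (k : ℝ)) * n = n - 3 * t := by
      rw [ht]
      field_simp
    rw [e1] at h2
    rw [e2] at h1
    rw [← ht] at hcon
    have h7 : 0.887 * ∑ i ∈ I, |av U {i} - q| < 0.887 * t :=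
      mul_lt_mul_of_pos_left (h3.trans_lt hcon) (by norm_num)
    nlinarith

end EMS
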