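import Pool.Agent.Work.MP_2b8540_co.S.Trace

/-!
# Module S/ClassL (M): locally constrained families

Imports `EMS.exists_sys`.

## Proof
`K = k · 8^k`. Let `P` be locally constrained via `𝒯`, `U ⊆ P` with `|U| ≥ 2^((1-1/K)n)`, so `U` is nonempty.
All `T ∈ 𝒯` are nonempty: if `∅ ∈ 𝒯` then its `w` is `∅` and `a ∩ ∅ = ∅ = w` for `a ∈ U`, a contradiction.
So the members of `𝒯` are pairwise disjoint nonempty sets and `T ↦ T.min' _` is injective; hence there is
`T₀ : Fin (2n) → Finset (Fin (2n))` with `T₀ i` = the member of `𝒯` with minimum `i` if there is one and `∅`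
otherwise; `Sys k T₀`. Apply `exists_sys` to get `T'`. For `i` with `T₀ i = T ∈ 𝒯` and its forbidden `w`:
`pt U T w = 0`, `bt T w ≥ (1-q)^k ≥ (1/4)^k` (`q ≥ 1-q ≥ 1/4`), so
`|av U (T' i) - q^|T' i|| ≥ (1/4)^k / 2^k = 8^(-k)`. Sum over the `|𝒯| ≥ n/k` such `i`:
`dev U T' ≥ (n/k) 8^(-k) = n/K`. And `Sys k T' → Sys K T'` as `k ≤ K`.
-/

open Finset

namespace EMS

private theorem bt_ge {N k : ℕ} {T w : Finset (Fin N)} (hw : w ⊆ T) (hT : T.card ≤ k) :
    1 ≤ 4 ^ k * bt T w := by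
  have hq1 := q_gt
  have hq2 := q_lt
  have h1 : (T \ w).card + w.card = T.card := Finset.card_sdiff_add_card_eq_card hw
  have h2 : (1 / 4 : ℝ) ^ (T \ w).card ≤ q ^ (T \ w).card :=
    pow_le_pow_left₀ (by norm_num) (by linarith) _
  have h3 : (1 / 4 : ℝ) ^ w.card ≤ (1 - q) ^ w.card :=
    pow_le_pow_left₀ (by norm_num) (by linarith) _
  have h4 : (1 / 4 : ℝ) ^ k ≤ (1 / 4) ^ T.card :=
    pow_le_pow_of_le_one (by norm_num) (by norm_num) hT
  have h5 : (1 / 4 : ℝ) ^ T.card ≤ bt T w := by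
    unfold bt
    rw [← h1, pow_add]
    exact mul_le_mul h2 h3 (by positivity) (by have := q_pos; positivity)
  have h6 : (4 : ℝ) ^ k * (1 / 4) ^ k = 1 := by rw [← mul_pow]; norm_num
  rw [← h6]
  exact mul_le_mul_of_nonneg_left (h4.trans h5) (by positivity)

theorem classL (k : ℕ) (hk : 1 ≤ k) : ∃ K : ℕ, 1 ≤ K ∧
    ∀ (n : ℕ) (P : Finset (Finset (Fin (2 * n)))), LocallyConstrained k n P →
      NonRandom K n P := by
  classical
  refine ⟨k * 8 ^ k, Nat.mul_pos hk (by positivity), ?_⟩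
  rintro n P ⟨𝒯, hdis, hcard, hn, hforb⟩ U hUP hUc
  have hUpos : (0 : ℝ) < (U.card : ℝ) := lt_of_lt_of_le (by positivity) hUc
  have hU : U.Nonempty := Finset.card_pos.1 (by exact_mod_cast hUpos)
  have hne : ∀ T : {T // T ∈ 𝒯}, (T : Finset (Fin (2 * n))).Nonempty := by
    rintro ⟨T, hT⟩
    rw [Finset.nonempty_iff_ne_empty]
    rintro h1
    obtain ⟨w, hw, hw'⟩ := hforb T hT
    obtain ⟨a, ha⟩ := hU
    apply hw' a (hUP ha)
    simp only at h1
    subst h1
    rw [Finset.subset_empty] at hw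
    rw [hw, Finset.inter_empty]
  choose e he using hne
  have hinj : Function.Injective e := by
    intro T T' hTT
    by_contra hne
    have h1 := hdis T T.2 T' T'.2 (fun h2 => hne (Subtype.ext h2))
    exact (Finset.disjoint_left.1 h1) (he T) (hTT ▸ he T')
  obtain ⟨T₀, hT₀⟩ : ∃ T₀ : Fin (2 * n) → Finset (Fin (2 * n)),
      (∀ T : {T // T ∈ 𝒯}, T₀ (e T) = T) ∧ ∀ i, (∀ T, e T ≠ i) → T₀ i = ∅ := by
    refine ⟨fun i => if h : ∃ T, e T = i then (h.choose : Finset (Fin (2 * n))) else ∅, ?_, ?_⟩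
    · intro T
      have h : ∃ T', e T' = e T := ⟨T, rfl⟩
      simp only
      rw [dif_pos h]
      exact congrArg Subtype.val (hinj h.choose_spec)
    · intro i hi
      simp only
      rw [dif_neg]
      rintro ⟨T, hT⟩
      exact hi T hT
  have hcase : ∀ i, T₀ i = ∅ ∨ ∃ T, e T = i := by
    intro i
    by_cases h : ∃ T, e T = i
    · exact Or.inr h
    · push Not at h
      exact Or.inl (hT₀.2 i h)
  have hSys : Sys k T₀ := by
    constructor
    · intro i j hij
      rcases hcase i with h1 | ⟨T, rfl⟩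
      · rw [h1]; exact Finset.disjoint_empty_left _
      · rcases hcase j with h2 | ⟨T', rfl⟩
        · rw [h2]; exact Finset.disjoint_empty_right _
        · rw [hT₀.1, hT₀.1]
          refine hdis T T.2 T' T'.2 (fun h3 => hij ?_)
          rw [Subtype.ext h3]
    · intro i
      rcases hcase i with h1 | ⟨T, rfl⟩
      · rw [h1, Finset.card_empty]; exact Nat.zero_le _
      · rw [hT₀.1]; exact hcard T T.2
  obtain ⟨T', hT', -, hT'3⟩ := exists_sys U hU T₀ hSys
  have hkK : k ≤ k * 8 ^ k := Nat.le_mul_of_pos_right _ (by positivity)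
  refine ⟨T', ⟨hT'.1, fun i => (hT'.2 i).trans hkK⟩, ?_⟩
  have hterm : ∀ T : {T // T ∈ 𝒯},
      1 / (8 : ℝ) ^ k ≤ |av U (T' (e T)) - q ^ (T' (e T)).card| := by
    intro T
    obtain ⟨w, hw, hw'⟩ := hforb T T.2
    have h1 := hT'3 (e T) w (by rw [hT₀.1]; exact hw)
    rw [hT₀.1] at h1
    have h2 : pt U T w = 0 := by
      unfold pt
      rw [Finset.filter_false_of_mem (fun a ha => hw' a (hUP ha)), Finset.card_empty,
        Nat.cast_zero, zero_div]
    have h3 := bt_ge hw (hcard T T.2)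
    rw [h2, zero_sub, abs_neg] at h1
    have h4 : bt (T : Finset (Fin (2 * n))) w ≤ |bt (T : Finset (Fin (2 * n))) w| := le_abs_self _
    rw [div_le_iff₀ (by positivity)]
    have h5 : (8 : ℝ) ^ k = 4 ^ k * 2 ^ k := by rw [← mul_pow]; norm_num
    rw [h5]
    calc (1 : ℝ) ≤ 4 ^ k * bt (T : Finset (Fin (2 * n))) w := h3
      _ ≤ 4 ^ k * (2 ^ k * |av U (T' (e T)) - q ^ (T' (e T)).card|) :=
          mul_le_mul_of_nonneg_left (h4.trans h1) (by positivity)
      _ = _ := by ring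
  have hsum : (𝒯.card : ℝ) * (1 / 8 ^ k) ≤ dev U T' := by
    unfold dev
    have h1 : ∑ i ∈ univ.image e, |av U (T' i) - q ^ (T' i).card| ≤
        ∑ i, |av U (T' i) - q ^ (T' i).card| :=
      Finset.sum_le_sum_of_subset_of_nonneg (Finset.subset_univ _) fun _ _ _ => abs_nonneg _
    rw [Finset.sum_image (fun a _ b _ h => hinj h)] at h1
    refine le_trans ?_ h1
    have h2 := Finset.card_nsmul_le_sum (univ : Finset {T // T ∈ 𝒯}) _ _ fun T _ => hterm T
    rw [Finset.card_univ, Fintype.card_coe, nsmul_eq_mul] at h2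
    exact h2
  refine le_trans ?_ hsum
  push_cast
  have h8 : (0 : ℝ) < 8 ^ k := by positivity
  have hk0 : (0 : ℝ) < k := by exact_mod_cast hk
  have hn' : (n : ℝ) ≤ k * 𝒯.card := by exact_mod_cast hn
  rw [div_le_iff₀ (by positivity)]
  calc (n : ℝ) ≤ k * 𝒯.card := hn'
    _ = (𝒯.card : ℝ) * (1 / 8 ^ k) * (k * 8 ^ k) := by field_simp

end EMS
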