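import Pool.Agent.Work.MP_2b8540_co.S.Defs

/-!
# Module S/NumEnt (S): numerical values of the entropy of `q = 1/√2`

`hq = - q log q - (1-q) log (1-q)` (`= 0.8724… log 2`).

## Proof
`log q = - (log 2)/2`, `1 - q = (2-√2)/2 = 1/(2+√2) = 1/(√2 (1+√2))`, so
`- log(1-q) = (log 2)/2 + log(1+√2)`. Hence `hq = (log 2)/2 + (1-q) log(1+√2)`.
* `0.83 ≤ log(1+√2) ≤ 0.887`: `exp 0.83 ≤ 2.2937 ≤ 2.4142` and
  `exp 0.887 ≥ 1 + .887 + .887²/2 + .887³/6 + .887⁴/24 + .887⁵/120 ≥ 2.427 ≥ 1+√2`.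
* `1 - q ∈ (0.29289, 0.2929)`, `log 2 ∈ (0.6931471803, 0.6931471808)`:
  `(1-q) log(1+√2) ≤ 0.2929 · 0.887 ≤ 0.25981 ≤ (3/8) log 2 = 0.25993`, and
  `(1-q) log(1+√2) ≥ 0.29289 · 0.83 ≥ 0.24309 ≥ 0.3505 log 2 = 0.24294…`.
* `log_ratio`: `log q - log(1-q) = log(1+√2) ∈ [0, 0.887]` (`q/(1-q) = 1+√2`).
-/

open Finset

namespace EMS

/-- the entropy of `q` (natural logarithm) -/
noncomputable def hq : ℝ := -(q * Real.log q) - (1 - q) * Real.log (1 - q)

private lemma log_q : Real.log q = -(Real.log 2) / 2 := by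
  have h : Real.log (q * q) = Real.log q + Real.log q := Real.log_mul q_pos.ne' q_pos.ne'
  rw [q_sq] at h
  have h2 : Real.log (1 / 2) = - Real.log 2 := by rw [one_div, Real.log_inv]
  linarith

private lemma one_sub_q : 1 - q = q / (1 + √2) := by
  have h : √2 * √2 = 2 := Real.mul_self_sqrt (by norm_num)
  have h0 : (0 : ℝ) < 1 + √2 := by positivity
  rw [eq_div_iff h0.ne']
  unfold q
  nlinarith

private lemma log_one_sub_q : Real.log (1 - q) = Real.log q - Real.log (1 + √2) := by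
  rw [one_sub_q, Real.log_div q_pos.ne' (by positivity)]

private lemma sqrt2_bounds : 1.41421 < √2 ∧ √2 < 1.41422 := by
  constructor
  · rw [Real.lt_sqrt (by norm_num)]; norm_num
  · rw [Real.sqrt_lt' (by norm_num)]; norm_num

private lemma log_upper : Real.log (1 + √2) ≤ 0.887 := by
  have h0 : (0 : ℝ) < 1 + √2 := by positivity
  rw [Real.log_le_iff_le_exp h0]
  have h1 : ∑ i ∈ range 6, (0.887 : ℝ) ^ i / (i.factorial : ℝ) ≤ Real.exp 0.887 :=
    Real.sum_le_exp_of_nonneg (by norm_num) 6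
  have h2 := sqrt2_bounds.2
  have h3 : (2.4243 : ℝ) ≤ ∑ i ∈ range 6, (0.887 : ℝ) ^ i / (i.factorial : ℝ) := by
    norm_num [Finset.sum_range_succ, Nat.factorial]
  linarith

private lemma log_lower : 0.83 ≤ Real.log (1 + √2) := by
  have h0 : (0 : ℝ) < 1 + √2 := by positivity
  rw [Real.le_log_iff_exp_le h0]
  have h1 : Real.exp 0.83 ≤ 2.4142 := by
    have h := Real.exp_bound' (x := 0.83) (by norm_num) (by norm_num) (n := 5) (by norm_num)
    refine h.trans ?_
    norm_num [Finset.sum_range_succ, Nat.factorial]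
  have h2 := sqrt2_bounds.1
  linarith

private lemma hq_eq : hq = Real.log 2 / 2 + (1 - q) * Real.log (1 + √2) := by
  unfold hq
  rw [log_one_sub_q, log_q]
  ring

theorem hq_upper : hq ≤ 7 / 8 * Real.log 2 := by
  rw [hq_eq]
  have h1 := log_upper
  have h1' := log_lower
  have h2 := q_gt
  have h4 := Real.log_two_gt_d9
  have h3 : (1 - q) * Real.log (1 + √2) ≤ 0.2929 * 0.887 :=
    mul_le_mul (by linarith) h1 (by linarith) (by norm_num)
  linarith

theorem hq_lower : 0.8505 * Real.log 2 ≤ hq := by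
  rw [hq_eq]
  have h1 := log_lower
  have h2 := q_lt
  have h4 := Real.log_two_lt_d9
  have h3 : 0.29289 * 0.83 ≤ (1 - q) * Real.log (1 + √2) :=
    mul_le_mul (by linarith) h1 (by norm_num) (by linarith)
  linarith

theorem log_ratio : 0 ≤ Real.log q - Real.log (1 - q) ∧
    Real.log q - Real.log (1 - q) ≤ 0.887 := by
  rw [log_one_sub_q]
  have h1 := log_lower
  have h2 := log_upper
  constructor <;> linarith

end EMS
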