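import Pool.Agent.Work.MP_2b8540_co.S.Trace
import Pool.Agent.Work.MP_2b8540_co.S.NumEnt

/-!
# Module S/Narrow2 (M): lower bound for the entropy of a trace

Uses the definitions `pt`, `bt`, `hq` and `EMS.log_ratio`.

## Proof
`p(x) = pt U D x`, `b(x) = bt D x` for `x ⊆ D`; `∑_{x ⊆ D} p(x) = 1 = ∑ b(x)`, `b(x) ≥ (1-q)^|D| ≥ 4^(-|D|)`.
For `p(x) > 0`: `- log p(x) ≥ - log b(x) - (p(x)/b(x) - 1)` (`log y ≤ y - 1`). Multiply by `p(x)`:
`∑ negMulLog p(x) ≥ ∑ p(x)(- log b(x)) - ∑ p(x)(p(x) - b(x))/b(x) ≥ ∑ p(x)(-log b(x)) - 4^|D| ∑ |p(x)-b(x)|`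
(`p(x) ≤ 1`). And `∑_x p(x)(-log b(x)) = (1/|U|) ∑_{a∈U} (|D \ a| (-log q) + |a ∩ D| (-log(1-q)))
 = ∑_{i∈D} (u_i (-log q) + (1-u_i)(-log(1-q)))`, `u_i = av U {i}`,
`= |D| hq - ∑_{i∈D} (u_i - q)(log q - log(1-q)) ≥ |D| hq - 0.887 ∑_{i∈D} |u_i - q|`.
-/

open Finset

namespace EMS

private theorem n2_bt_pos {N : ℕ} (D x : Finset (Fin N)) : 0 < bt D x := by
  unfold bt
  have h1 := q_pos
  have h2 : 0 < 1 - q := by linarith [q_lt_one]
  positivity

private theorem n2_bt_ge {N : ℕ} (D x : Finset (Fin N)) (hx : x ⊆ D) :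
    1 ≤ 4 ^ D.card * bt D x := by
  unfold bt
  have h1 : (1 / 4 : ℝ) ≤ q := by linarith [q_gt]
  have h2 : (1 / 4 : ℝ) ≤ 1 - q := by linarith [q_lt]
  have h3 : (1 / 4 : ℝ) ^ (D \ x).card ≤ q ^ (D \ x).card :=
    pow_le_pow_left₀ (by norm_num) h1 _
  have h4 : (1 / 4 : ℝ) ^ x.card ≤ (1 - q) ^ x.card := pow_le_pow_left₀ (by norm_num) h2 _
  have h5 : (1 / 4 : ℝ) ^ D.card ≤ q ^ (D \ x).card * (1 - q) ^ x.card := by
    have h6 := Finset.card_sdiff_add_card_eq_card hx
    rw [← h6, pow_add]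
    exact mul_le_mul h3 h4 (by positivity) (pow_nonneg (by linarith) _)
  calc (1 : ℝ) = 4 ^ D.card * (1 / 4) ^ D.card := by
        rw [← mul_pow]
        norm_num
    _ ≤ 4 ^ D.card * (q ^ (D \ x).card * (1 - q) ^ x.card) :=
        mul_le_mul_of_nonneg_left h5 (by positivity)

private theorem n2_log {N : ℕ} (D x : Finset (Fin N)) :
    -Real.log (bt D x) = (D \ x).card * (-Real.log q) + x.card * (-Real.log (1 - q)) := by
  unfold bt
  have h1 := q_pos
  have h2 : 0 < 1 - q := by linarith [q_lt_one]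
  rw [Real.log_mul (pow_pos h1 _).ne' (pow_pos h2 _).ne', Real.log_pow, Real.log_pow]
  ring

private theorem n2_pt {N : ℕ} (U : Finset (Finset (Fin N))) (D x : Finset (Fin N)) :
    0 ≤ pt U D x ∧ pt U D x ≤ 1 := by
  unfold pt
  refine ⟨by positivity, ?_⟩
  apply div_le_one_of_le₀ _ (by positivity)
  exact_mod_cast Finset.card_filter_le _ _

private theorem n2_e {N : ℕ} (U : Finset (Finset (Fin N))) (D x : Finset (Fin N)) (hx : x ⊆ D) :
    pt U D x * (-Real.log (bt D x)) - 4 ^ D.card * |pt U D x - bt D x| ≤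
      Real.negMulLog (pt U D x) := by
  obtain ⟨h0, h1⟩ := n2_pt U D x
  have hb := n2_bt_pos D x
  have hb4 := n2_bt_ge D x hx
  generalize pt U D x = p at *
  generalize bt D x = b at *
  generalize (4 : ℝ) ^ D.card = C at *
  have hC : 0 ≤ C := by
    by_contra h
    have : C * b < 0 := mul_neg_of_neg_of_pos (not_le.1 h) hb
    linarith
  rcases eq_or_lt_of_le h0 with h2 | h2
  · rw [← h2]
    simp only [zero_mul, zero_sub, Real.negMulLog_zero]
    have : 0 ≤ C * |-b| := mul_nonneg hC (abs_nonneg _)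
    linarith
  · have h3 : Real.log (p / b) ≤ p / b - 1 := by
      have := Real.log_le_sub_one_of_pos (show 0 < p / b by positivity)
      exact this
    rw [Real.log_div h2.ne' hb.ne'] at h3
    have h4 : p * (p / b - 1) ≤ C * |p - b| := by
      have h5 : p * (p / b - 1) = (p / b) * (p - b) := by
        field_simp
      rw [h5]
      have h6 : p / b ≤ C := by
        rw [div_le_iff₀ hb]
        linarith
      calc p / b * (p - b) ≤ p / b * |p - b| :=
            mul_le_mul_of_nonneg_left (le_abs_self _) (by positivity)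
        _ ≤ C * |p - b| := mul_le_mul_of_nonneg_right h6 (abs_nonneg _)
    have h7 : p * (Real.log p - Real.log b) ≤ p * (p / b - 1) :=
      mul_le_mul_of_nonneg_left h3 h2.le
    unfold Real.negMulLog
    nlinarith

private theorem n2_f {N : ℕ} (U : Finset (Finset (Fin N))) (hU : U.Nonempty)
    (D : Finset (Fin N)) (L0 L1 : ℝ) :
    ∑ x ∈ D.powerset, pt U D x * ((D \ x).card * L0 + x.card * L1) =
      ∑ i ∈ D, (av U {i} * L0 + (1 - av U {i}) * L1) := by
  have hc : (U.card : ℝ) ≠ 0 := by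
    have := Finset.card_pos.2 hU
    exact_mod_cast this.ne'
  have h1 : ∑ x ∈ D.powerset, pt U D x * ((D \ x).card * L0 + x.card * L1) =
      (∑ a ∈ U, (((D \ (a ∩ D)).card : ℝ) * L0 + ((a ∩ D).card : ℝ) * L1)) / U.card := by
    rw [← Finset.sum_fiberwise_of_maps_to (s := U) (t := D.powerset) (g := fun a => a ∩ D)
      (fun a _ => Finset.mem_powerset.2 Finset.inter_subset_right), Finset.sum_div]
    refine Finset.sum_congr rfl fun x _ => ?_
    have h2 : ∀ a ∈ U.filter (fun a => a ∩ D = x),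
        ((D \ (a ∩ D)).card : ℝ) * L0 + ((a ∩ D).card : ℝ) * L1 =
        (D \ x).card * L0 + x.card * L1 := by
      intro a ha
      rw [(Finset.mem_filter.1 ha).2]
    rw [Finset.sum_congr rfl h2, Finset.sum_const, nsmul_eq_mul]
    unfold pt
    ring
  rw [h1]
  have h3 : ∀ a ∈ U, ((D \ (a ∩ D)).card : ℝ) * L0 + ((a ∩ D).card : ℝ) * L1 =
      ∑ i ∈ D, (if i ∉ a then L0 else L1) := by
    intro a _
    rw [Finset.sum_ite, Finset.sum_const, Finset.sum_const, nsmul_eq_mul, nsmul_eq_mul]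
    have h4 : D.filter (fun i => i ∉ a) = D \ (a ∩ D) := by
      ext i
      simp only [Finset.mem_filter, Finset.mem_sdiff, Finset.mem_inter]
      tauto
    have h5 : D.filter (fun i => ¬ i ∉ a) = a ∩ D := by
      ext i
      simp only [Finset.mem_filter, Finset.mem_inter]
      tauto
    rw [h4, h5]
  rw [Finset.sum_congr rfl h3, Finset.sum_comm, Finset.sum_div]
  refine Finset.sum_congr rfl fun i _ => ?_
  rw [Finset.sum_ite, Finset.sum_const, Finset.sum_const, nsmul_eq_mul, nsmul_eq_mul]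
  have h6 : U.filter (fun a => i ∉ a) = U.filter (fun a => Disjoint a {i}) :=
    Finset.filter_congr fun a _ => by rw [Finset.disjoint_singleton_right]
  have h7 := Finset.card_filter_add_card_filter_not (s := U) (fun a => i ∉ a)
  have h8 : ((U.filter (fun a => ¬ i ∉ a)).card : ℝ) =
      U.card - ((U.filter (fun a => i ∉ a)).card : ℝ) := by
    have h9 : (((U.filter (fun a => i ∉ a)).card + (U.filter (fun a => ¬ i ∉ a)).card : ℕ) : ℝ) =
      (U.card : ℝ) := by rw [h7]
    push_cast at h9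
    linarith
  rw [h8, h6]
  unfold av
  field_simp
  try ring

theorem trace_entropy {N : ℕ} (U : Finset (Finset (Fin N))) (hU : U.Nonempty)
    (D : Finset (Fin N)) :
    D.card * hq - 0.887 * ∑ i ∈ D, |av U {i} - q| -
        4 ^ D.card * ∑ x ∈ D.powerset, |pt U D x - bt D x| ≤
      ∑ x ∈ D.powerset, Real.negMulLog (pt U D x) := by
  have h1 : ∑ x ∈ D.powerset, (pt U D x * (-Real.log (bt D x)) -
      4 ^ D.card * |pt U D x - bt D x|) ≤ ∑ x ∈ D.powerset, Real.negMulLog (pt U D x) :=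
    Finset.sum_le_sum fun x hx => n2_e U D x (Finset.mem_powerset.1 hx)
  rw [Finset.sum_sub_distrib, ← Finset.mul_sum] at h1
  have h2 : ∑ x ∈ D.powerset, pt U D x * (-Real.log (bt D x)) =
      ∑ i ∈ D, (av U {i} * (-Real.log q) + (1 - av U {i}) * (-Real.log (1 - q))) := by
    rw [← n2_f U hU D]
    exact Finset.sum_congr rfl fun x _ => by rw [n2_log]
  rw [h2] at h1
  have h3 : D.card * hq - 0.887 * ∑ i ∈ D, |av U {i} - q| ≤
      ∑ i ∈ D, (av U {i} * (-Real.log q) + (1 - av U {i}) * (-Real.log (1 - q))) := by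
    have h4 : (D.card : ℝ) * hq - 0.887 * ∑ i ∈ D, |av U {i} - q| =
        ∑ i ∈ D, (hq - 0.887 * |av U {i} - q|) := by
      rw [Finset.sum_sub_distrib, ← Finset.mul_sum, Finset.sum_const, nsmul_eq_mul]
    rw [h4]
    refine Finset.sum_le_sum fun i _ => ?_
    obtain ⟨h5, h6⟩ := log_ratio
    have h7 : (av U {i} - q) * (Real.log q - Real.log (1 - q)) ≤ 0.887 * |av U {i} - q| := by
      calc (av U {i} - q) * (Real.log q - Real.log (1 - q))
          ≤ |av U {i} - q| * (Real.log q - Real.log (1 - q)) :=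
            mul_le_mul_of_nonneg_right (le_abs_self _) h5
        _ ≤ |av U {i} - q| * 0.887 := mul_le_mul_of_nonneg_left h6 (abs_nonneg _)
        _ = 0.887 * |av U {i} - q| := mul_comm _ _
    unfold hq
    nlinarith
  linarith

end EMS
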