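import Pool.Agent.Work.MP_2b8540_co.S.Narrow1
import Pool.Agent.Work.MP_2b8540_co.S.Narrow2

/-!
# Module S/ClassN (M): narrow families

Imports `EMS.narrow_sum`, `EMS.trace_entropy`, `EMS.exists_sys`, `EMS.hq_lower`.

## Proof
`K = 10000 · 16^k` (any large constant). Let `P` be narrow via `r, X`; `U ⊆ P`,
`|U| ≥ 2^((1-1/K)n)`, so `U ≠ ∅`. Suppose `dev U T' < n/K` for all `T'` with `Sys K T'`; then `n ≥ 1`.
The sets `D_j = X (j+1) \ X j`, `j < r`, are nonempty (`⊂`), pairwise disjoint, with union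
`Fin (2n)`, of at most `k` elements, so `r ≤ 2n`. Let `T j = D_j` for `j < r` and `∅` for the other `j < 2n`:
`Sys k T`. With `exists_sys` we get `T'`; `∑_j |av U (T' j) - q^|T' j|| = dev U T' < n/K` (`Sys k → Sys K`).
So `∑_{j<r} ∑_{x ⊆ D_j} |pt U D_j x - bt D_j x| ≤ 2^k · 2^k · n/K = 4^k n/K`. Also with `{i}` for all `i`:
`∑_i |av U {i} - q| < n/K`. By `trace_entropy`, summed over `j < r` (the `D_j` partition `Fin (2n)`):
`∑_j ∑_x negMulLog … ≥ 2n hq - 0.887 n/K - 4^k 4^k n/K ≥ 2 n · 0.8505 log 2 - (0.887 + 16^k) n/K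
 ≥ 1.701 n log 2 - 0.0002 n`. By `narrow_sum` this is `≤ log(|P| ∏ width) ≤ 1.7 n log 2`. So
`0.001 log 2 ≤ 0.0002`, a contradiction (`log 2 > 0.69`). (`|P| ∏ width > 0` as `U ≠ ∅`: every
`width P (X j) ≥ 1`.)
-/

open Finset

namespace EMS

private lemma mono_X {N r : ℕ} {X : ℕ → Finset (Fin N)} (hX : ∀ j < r, X j ⊆ X (j + 1)) :
    ∀ j ≤ r, ∀ i ≤ j, X i ⊆ X j := by
  intro j
  induction j with
  | zero =>
    intro _ i hi
    rw [Nat.le_zero.1 hi]
  | succ j ih =>
    intro hj i hi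
    rcases Nat.lt_or_ge i (j + 1) with h | h
    · exact (ih (by omega) i (by omega)).trans (hX j (by omega))
    · rw [show i = j + 1 by omega]

private lemma tele_X {N r : ℕ} {X : ℕ → Finset (Fin N)} (h0 : X 0 = ∅)
    (hX : ∀ j < r, X j ⊆ X (j + 1)) (f : Fin N → ℝ) :
    ∀ t ≤ r, ∑ j ∈ range t, ∑ i ∈ X (j + 1) \ X j, f i = ∑ i ∈ X t, f i := by
  intro t
  induction t with
  | zero =>
    intro _
    rw [Finset.range_zero, Finset.sum_empty, h0, Finset.sum_empty]
  | succ t ih =>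
    intro ht
    rw [Finset.sum_range_succ, ih (by omega), add_comm, Finset.sum_sdiff (hX t (by omega))]

private lemma card_X {N r : ℕ} {X : ℕ → Finset (Fin N)}
    (hX : ∀ j < r, X j ⊂ X (j + 1)) : ∀ t ≤ r, t ≤ (X t).card := by
  intro t
  induction t with
  | zero =>
    intro _
    exact Nat.zero_le _
  | succ t ih =>
    intro ht
    have h1 := ih (by omega)
    have h2 := Finset.card_lt_card (hX t (by omega))
    omega

theorem classN (k : ℕ) (hk : 1 ≤ k) : ∃ K : ℕ, 1 ≤ K ∧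
    ∀ (n : ℕ) (P : Finset (Finset (Fin (2 * n)))), Narrow k n P → NonRandom K n P := by
  have h16 : 1 ≤ 16 ^ k := Nat.one_le_pow _ _ (by norm_num)
  refine ⟨10000 * 16 ^ k, by omega, ?_⟩
  rintro n P ⟨r, X, h0, hr, hX, hP⟩
  intro U hUP hUc
  obtain ⟨K, hKdef⟩ : ∃ K : ℕ, K = 10000 * 16 ^ k := ⟨_, rfl⟩
  rw [← hKdef] at hUc ⊢
  have hkK : k ≤ K := by
    have h1 : k < 16 ^ k := Nat.lt_pow_self (by norm_num)
    omega
  have hK1 : 1 ≤ K := hk.trans hkK
  by_contra hcon
  push Not at hcon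
  have hUpos : (0 : ℝ) < U.card := lt_of_lt_of_le (Real.rpow_pos_of_pos (by norm_num) _) hUc
  have hUne : U.Nonempty := by
    rw [← Finset.card_pos]
    exact_mod_cast hUpos
  have hK0 : (0 : ℝ) < K := by
    have : 0 < K := by omega
    exact_mod_cast this
  have hXs : ∀ j < r, X j ⊆ X (j + 1) := fun j hj => (hX j hj).1.subset
  have hmono := mono_X hXs
  have hr2 : r ≤ 2 * n := by
    have h1 := card_X (fun j hj => (hX j hj).1) r le_rfl
    rw [hr, Finset.card_univ, Fintype.card_fin] at h1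
    exact h1
  -- the system
  have hT : Sys k (fun j : Fin (2 * n) => if (j : ℕ) < r then X (j + 1) \ X j else ∅) := by
    have hlt : ∀ i j : ℕ, i < j → j < r → Disjoint (X (i + 1) \ X i) (X (j + 1) \ X j) := by
      intro i j hij hj
      rw [Finset.disjoint_left]
      intro x hx hx2
      have h1 := hmono j (by omega) (i + 1) (by omega)
      exact (Finset.mem_sdiff.1 hx2).2 (h1 (Finset.mem_sdiff.1 hx).1)
    constructor
    · intro i j hij
      have hij' : (i : ℕ) ≠ j := fun h => hij (Fin.ext h)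
      by_cases h1 : (i : ℕ) < r
      · by_cases h2 : (j : ℕ) < r
        · simp only [h1, h2, if_true]
          rcases Nat.lt_or_ge (i : ℕ) j with h3 | h3
          · exact hlt _ _ h3 h2
          · exact (hlt _ _ (by omega) h1).symm
        · simp only [h2, if_false]
          exact Finset.disjoint_empty_right _
      · simp only [h1, if_false]
        exact Finset.disjoint_empty_left _
    · intro i
      by_cases h1 : (i : ℕ) < r
      · simp only [h1, if_true]
        exact (hX i h1).2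
      · simp only [h1, if_false, Finset.card_empty]
        omega
  obtain ⟨T', hT', _, htr⟩ := exists_sys U hUne _ hT
  have hd1 := hcon T' ⟨hT'.1, fun i => (hT'.2 i).trans hkK⟩
  have hd2 := hcon (fun i => {i}) ⟨fun i j hij => by
    rw [Finset.disjoint_singleton]
    exact hij, fun i => by
    rw [Finset.card_singleton]
    exact hK1⟩
  unfold dev at hd1 hd2
  simp only [Finset.card_singleton, pow_one] at hd2
  -- the traces
  have hS1 : ∑ j ∈ range r, ∑ x ∈ (X (j + 1) \ X j).powerset,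
      |pt U (X (j + 1) \ X j) x - bt (X (j + 1) \ X j) x| ≤ 4 ^ k * (n / K) := by
    obtain ⟨F, hF⟩ : ∃ F : ℕ → ℝ, ∀ j, F j =
        ∑ x ∈ (if j < r then X (j + 1) \ X j else ∅).powerset,
          |pt U (if j < r then X (j + 1) \ X j else ∅) x -
            bt (if j < r then X (j + 1) \ X j else ∅) x| := ⟨_, fun _ => rfl⟩
    have hF0 : ∀ j, 0 ≤ F j := by
      intro j
      rw [hF]
      exact Finset.sum_nonneg (fun _ _ => abs_nonneg _)
    have h1 : ∑ j ∈ range r, ∑ x ∈ (X (j + 1) \ X j).powerset,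
        |pt U (X (j + 1) \ X j) x - bt (X (j + 1) \ X j) x| = ∑ j ∈ range r, F j := by
      apply Finset.sum_congr rfl
      intro j hj
      rw [hF, if_pos (Finset.mem_range.1 hj)]
    have h2 : ∑ j ∈ range r, F j ≤ ∑ j ∈ range (2 * n), F j :=
      Finset.sum_le_sum_of_subset_of_nonneg (Finset.range_subset_range.2 hr2) (fun j _ _ => hF0 j)
    have h3 : ∑ j ∈ range (2 * n), F j = ∑ i : Fin (2 * n), F i :=
      (Fin.sum_univ_eq_sum_range F (2 * n)).symm
    have h4 : ∑ i : Fin (2 * n), F i ≤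
        ∑ i : Fin (2 * n), 4 ^ k * |av U (T' i) - q ^ (T' i).card| := by
      apply Finset.sum_le_sum
      intro i _
      rw [hF]
      have h5 : ∑ x ∈ (if (i : ℕ) < r then X (i + 1) \ X i else ∅).powerset,
          |pt U (if (i : ℕ) < r then X (i + 1) \ X i else ∅) x -
            bt (if (i : ℕ) < r then X (i + 1) \ X i else ∅) x| ≤
          ∑ x ∈ (if (i : ℕ) < r then X (i + 1) \ X i else ∅).powerset,
            2 ^ k * |av U (T' i) - q ^ (T' i).card| := by
        apply Finset.sum_le_sum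
        intro x hx
        exact htr i x (Finset.mem_powerset.1 hx)
      refine h5.trans ?_
      rw [Finset.sum_const, nsmul_eq_mul, Finset.card_powerset]
      have h6 : ((2 ^ (if (i : ℕ) < r then X (i + 1) \ X i else ∅).card : ℕ) : ℝ) ≤ 2 ^ k := by
        push_cast
        exact pow_le_pow_right₀ (by norm_num) (hT.2 i)
      have h7 : (4 : ℝ) ^ k = 2 ^ k * 2 ^ k := by
        rw [← mul_pow]
        norm_num
      rw [h7, mul_assoc]
      exact mul_le_mul_of_nonneg_right h6 (by positivity)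
    rw [← Finset.mul_sum] at h4
    have h8 : (4 : ℝ) ^ k * ∑ i : Fin (2 * n), |av U (T' i) - q ^ (T' i).card| ≤ 4 ^ k * (n / K) :=
      mul_le_mul_of_nonneg_left hd1.le (by positivity)
    linarith
  have hS2 : ∑ j ∈ range r, ∑ i ∈ X (j + 1) \ X j, |av U {i} - q| ≤ n / K := by
    rw [tele_X h0 hXs _ r le_rfl, hr]
    exact hd2.le
  have hS3 : ∑ j ∈ range r, (((X (j + 1) \ X j).card : ℕ) : ℝ) = 2 * n := by
    have h1 := tele_X h0 hXs (fun _ => (1 : ℝ)) r le_rfl
    rw [hr] at h1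
    simp only [Finset.sum_const, nsmul_eq_mul, mul_one, Finset.card_univ, Fintype.card_fin] at h1
    rw [h1]
    push_cast
    ring
  -- entropy
  have hE : ∀ j ∈ range r, (((X (j + 1) \ X j).card : ℕ) : ℝ) * hq -
      0.887 * ∑ i ∈ X (j + 1) \ X j, |av U {i} - q| -
      4 ^ k * ∑ x ∈ (X (j + 1) \ X j).powerset,
        |pt U (X (j + 1) \ X j) x - bt (X (j + 1) \ X j) x| ≤
      ∑ x ∈ (X (j + 1) \ X j).powerset, Real.negMulLog (pt U (X (j + 1) \ X j) x) := by
    intro j hj
    have h1 := trace_entropy U hUne (X (j + 1) \ X j)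
    have h2 : (4 : ℝ) ^ (X (j + 1) \ X j).card ≤ 4 ^ k :=
      pow_le_pow_right₀ (by norm_num) (hX j (Finset.mem_range.1 hj)).2
    have h3 : 0 ≤ ∑ x ∈ (X (j + 1) \ X j).powerset,
        |pt U (X (j + 1) \ X j) x - bt (X (j + 1) \ X j) x| :=
      Finset.sum_nonneg (fun _ _ => abs_nonneg _)
    have h4 := mul_le_mul_of_nonneg_right h2 h3
    linarith
  have hsum := Finset.sum_le_sum hE
  rw [Finset.sum_sub_distrib, Finset.sum_sub_distrib, ← Finset.sum_mul, ← Finset.mul_sum,
    ← Finset.mul_sum, hS3] at hsum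
  have hnar := narrow_sum P U hUne hUP r X h0 hr hXs
  have hlog2 : (0.69 : ℝ) < Real.log 2 := by
    have := Real.log_two_gt_d9
    linarith
  have hlog : Real.log ((P.card : ℝ) * ∏ j ∈ range r, (width P (X j) : ℝ)) ≤
      1.7 * n * Real.log 2 := by
    have hnn : 0 ≤ (P.card : ℝ) * ∏ j ∈ range r, (width P (X j) : ℝ) := by positivity
    rcases hnn.eq_or_lt with h | h
    · rw [← h, Real.log_zero]
      positivity
    · have h1 := Real.log_le_log h hP
      rw [Real.log_rpow (by norm_num)] at h1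
      exact h1
  have hn0 : (0 : ℝ) < n := by
    have h1 : 0 ≤ ∑ i : Fin (2 * n), |av U (T' i) - q ^ (T' i).card| :=
      Finset.sum_nonneg (fun _ _ => abs_nonneg _)
    have h2 : 0 < (n : ℝ) / K := lt_of_le_of_lt h1 hd1
    by_contra h3
    have h4 : (n : ℝ) ≤ 0 := not_lt.1 h3
    have h5 : (n : ℝ) / K ≤ 0 := div_nonpos_of_nonpos_of_nonneg h4 hK0.le
    linarith
  have hqn : 2 * (n : ℝ) * (0.8505 * Real.log 2) ≤ 2 * n * hq :=
    mul_le_mul_of_nonneg_left hq_lower (by positivity)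
  have h44 : (4 : ℝ) ^ k * (4 ^ k * (n / K)) = 16 ^ k * (n / K) := by
    rw [← mul_assoc, ← mul_pow]
    norm_num
  have hS1' : (4 : ℝ) ^ k * ∑ j ∈ range r, ∑ x ∈ (X (j + 1) \ X j).powerset,
      |pt U (X (j + 1) \ X j) x - bt (X (j + 1) \ X j) x| ≤ 16 ^ k * (n / K) := by
    rw [← h44]
    exact mul_le_mul_of_nonneg_left hS1 (by positivity)
  have hKc : (K : ℝ) = 10000 * 16 ^ k := by
    rw [hKdef]
    push_cast
    ring
  have h16' : (1 : ℝ) ≤ 16 ^ k := one_le_pow₀ (by norm_num)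
  have hnK : (16 : ℝ) ^ k * (n / K) = n / 10000 := by
    rw [hKc]
    field_simp
  have hnK2 : (n : ℝ) / K ≤ n / 10000 := by
    rw [← hnK]
    have h1 : 0 ≤ (n : ℝ) / K := by positivity
    nlinarith
  rw [hnK] at hS1'
  have hfin : 0.001 * (n * Real.log 2) ≤ 0.0002 * (n : ℝ) := by linarith
  nlinarith

end EMS
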