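import Pool.Agent.Work.MP_2b8540_co.S.Defs

/-!
# Module S/Balance (M)

Let `S : Ω → 2^[N]` be a map on a finite nonempty set `Ω` all of whose fibres have at most `M`
elements, and `T_1, …, T_N` pairwise disjoint.  Then the probabilities (uniform `ω ∈ Ω`) that `S ω` is
disjoint from `T_i` are on average close to `2 ^ (-|T_i|)`.

## Proof (exponential moments)
Put `p_i = (1/2)^|T_i|`, `P_i = #{ω | S ω disjoint from T_i} / |Ω|`, `s_i = sign (P_i - p_i)` (`±1`),
`f(X) = ∑ i, s_i (1[X disjoint from T_i] - p_i)` for `X ⊆ [N]`. The left hand side is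
`E = (1/|Ω|) ∑_ω f(S ω)`.
1. (Jensen, convexity of `exp`; or `Real.add_one_le_exp` at `λ f(S ω) - λ E` and averaging)
   `exp(λ E) ≤ (1/|Ω|) ∑_ω exp(λ f(S ω))`.
2. (fibres) `∑_ω exp(λ f(S ω)) = ∑_X #{ω | S ω = X} exp(λ f X) ≤ M ∑_X exp(λ f X)`.
3. (independence) With `A_i = exp(λ s_i (1 - p_i))`, `B_i = exp(- λ s_i p_i)`:
   `exp(λ f X) = ∏ i, (B_i + (A_i - B_i) 1[X disjoint from T_i])`. Expand by `Finset.prod_add`:
   `∑_X ∏_{i ∈ J} 1[X disjoint from T_i] = 2^(N - ∑_{i∈J} |T_i|)` because the `T_i` are disjoint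
   (the sets `X` disjoint from `⋃_{i ∈ J} T_i`). Hence
   `∑_X exp(λ f X) = 2^N ∏ i, (B_i + (A_i - B_i) p_i) = 2^N ∏ i, (p_i A_i + (1 - p_i) B_i)`.
   (Alternatively prove this product formula by induction on the index set.)
4. Since `exp y ≤ 1 + y + y²` for `|y| ≤ 1` (`Real.abs_exp_sub_one_sub_id_le`),
   `p_i A_i + (1-p_i) B_i ≤ 1 + 0 + λ² ≤ exp(λ²)`.
5. So `exp(λ E) ≤ (M 2^N / |Ω|) exp(λ² N)`; take `log` and divide by `λ`.
-/

open Finset

namespace EMS

private theorem balance_count {N : ℕ} (U : Finset (Fin N)) :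
    ∑ X : Finset (Fin N), (if Disjoint X U then (1 : ℝ) else 0) = 2 ^ N * (1 / 2) ^ U.card := by
  classical
  rw [Finset.sum_boole]
  have h1 : (Finset.univ.filter fun X : Finset (Fin N) => Disjoint X U) = (Uᶜ).powerset := by
    ext X
    simp only [mem_filter, mem_univ, true_and, mem_powerset]
    rw [Finset.subset_compl_iff_disjoint_right]
  rw [h1, card_powerset]
  have h2 : U.card + (Uᶜ).card = N := by
    rw [Finset.card_add_card_compl, Fintype.card_fin]
  have h3 : (2 : ℝ) ^ N = 2 ^ U.card * 2 ^ (Uᶜ).card := by rw [← pow_add, h2]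
  rw [h3, mul_right_comm, ← mul_pow]
  norm_num

private theorem balance_prod {N : ℕ} (T : Fin N → Finset (Fin N))
    (hT : ∀ i j, i ≠ j → Disjoint (T i) (T j)) (D B : Fin N → ℝ) :
    ∑ X : Finset (Fin N), ∏ i, (D i * (if Disjoint X (T i) then (1 : ℝ) else 0) + B i) =
      2 ^ N * ∏ i, (D i * (1 / 2) ^ (T i).card + B i) := by
  classical
  have h1 : ∀ X : Finset (Fin N),
      ∏ i, (D i * (if Disjoint X (T i) then (1 : ℝ) else 0) + B i) =
      ∑ J : Finset (Fin N), ((∏ i ∈ J, D i) * (∏ i ∈ univ \ J, B i)) *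
        (if Disjoint X (J.biUnion T) then (1 : ℝ) else 0) := by
    intro X
    rw [Finset.prod_add, Finset.powerset_univ]
    refine Finset.sum_congr rfl fun J _ => ?_
    rw [Finset.prod_mul_distrib]
    have h2 : ∏ i ∈ J, (if Disjoint X (T i) then (1 : ℝ) else 0) =
        if Disjoint X (J.biUnion T) then (1 : ℝ) else 0 := by
      by_cases h : Disjoint X (J.biUnion T)
      · rw [if_pos h]
        refine Finset.prod_eq_one fun i hi => ?_
        rw [if_pos]
        exact (Finset.disjoint_biUnion_right _ _ _).1 h i hi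
      · rw [if_neg h]
        rw [Finset.disjoint_biUnion_right] at h
        push Not at h
        obtain ⟨i, hi, h3⟩ := h
        exact Finset.prod_eq_zero hi (if_neg h3)
    rw [h2]
    ring
  rw [Finset.sum_congr rfl fun X _ => h1 X, Finset.sum_comm, Finset.prod_add, Finset.powerset_univ,
    Finset.mul_sum]
  refine Finset.sum_congr rfl fun J _ => ?_
  rw [← Finset.mul_sum, balance_count, Finset.prod_mul_distrib, Finset.card_biUnion
    (fun i _ j _ hij => hT i j hij), Finset.prod_pow_eq_pow_sum]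
  ring

private theorem balance_num {p lam s : ℝ} (hp0 : 0 ≤ p) (hp1 : p ≤ 1) (h0 : 0 < lam)
    (h1 : lam ≤ 1) (hs : |s| = 1) :
    (Real.exp (lam * (s * (1 - p))) - Real.exp (lam * (s * (0 - p)))) * p +
      Real.exp (lam * (s * (0 - p))) ≤ Real.exp (lam ^ 2) := by
  have hs2 : s ^ 2 = 1 := by rw [← sq_abs, hs]; norm_num
  have hb : ∀ t : ℝ, |t| ≤ 1 → Real.exp (lam * (s * t)) ≤
      1 + lam * (s * t) + (lam * (s * t)) ^ 2 := by
    intro t ht
    have h2 : |lam * (s * t)| ≤ 1 := by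
      rw [abs_mul, abs_mul, hs, one_mul, abs_of_pos h0]
      exact mul_le_one₀ h1 (abs_nonneg _) ht
    have h3 := (abs_le.1 (Real.abs_exp_sub_one_sub_id_le h2)).2
    linarith
  have hA := hb (1 - p) (by rw [abs_of_nonneg] <;> linarith)
  have hB := hb (0 - p) (by rw [abs_of_nonpos] <;> linarith)
  have h4 : Real.exp (lam ^ 2) ≥ 1 + lam ^ 2 := by linarith [Real.add_one_le_exp (lam ^ 2)]
  have h5 : (lam * (s * (1 - p))) ^ 2 = lam ^ 2 * (1 - p) ^ 2 := by
    rw [mul_pow, mul_pow, hs2, one_mul]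
  have h6 : (lam * (s * (0 - p))) ^ 2 = lam ^ 2 * p ^ 2 := by
    rw [mul_pow, mul_pow, hs2, one_mul, zero_sub, neg_sq]
  rw [h5] at hA
  rw [h6] at hB
  have hA' := mul_le_mul_of_nonneg_right hA hp0
  have hB' := mul_le_mul_of_nonneg_right hB (sub_nonneg.2 hp1)
  have h7 : (0 : ℝ) ≤ lam ^ 2 := sq_nonneg _
  have h8 : p * (1 - p) ≤ 1 := by nlinarith
  have h9 := mul_le_mul_of_nonneg_left h8 h7
  nlinarith

theorem balance {N : ℕ} {β : Type*} (Ω : Finset β) (S : β → Finset (Fin N)) {M : ℝ}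
    (hΩ : Ω.Nonempty)
    (hM : ∀ X : Finset (Fin N), ((Ω.filter fun ω => S ω = X).card : ℝ) ≤ M)
    (T : Fin N → Finset (Fin N)) (hT : ∀ i j, i ≠ j → Disjoint (T i) (T j))
    {lam : ℝ} (h0 : 0 < lam) (h1 : lam ≤ 1) :
    ∑ i, |((Ω.filter fun ω => Disjoint (S ω) (T i)).card : ℝ) / (Ω.card : ℝ)
        - (1 / 2) ^ (T i).card| ≤
      Real.log (M * 2 ^ N / (Ω.card : ℝ)) / lam + lam * N := by
  classical
  have hc : (0 : ℝ) < Ω.card := by exact_mod_cast hΩ.card_pos
  have hM0 : 0 ≤ M := (Nat.cast_nonneg _).trans (hM ∅)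
  set p : Fin N → ℝ := fun i => (1 / 2) ^ (T i).card with hp
  set P : Fin N → ℝ := fun i =>
    ((Ω.filter fun ω => Disjoint (S ω) (T i)).card : ℝ) / (Ω.card : ℝ) with hP
  set sg : Fin N → ℝ := fun i => if 0 ≤ P i - p i then 1 else -1 with hsg
  have hp0 : ∀ i, 0 ≤ p i := fun i => by positivity
  have hp1 : ∀ i, p i ≤ 1 := fun i => pow_le_one₀ (by norm_num) (by norm_num)
  have hsabs : ∀ i, |sg i| = 1 := by
    intro i
    simp only [hsg]
    split_ifs <;> simp
  have hsm : ∀ i, sg i * (P i - p i) = |P i - p i| := by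
    intro i
    simp only [hsg]
    split_ifs with h
    · rw [abs_of_nonneg h, one_mul]
    · rw [abs_of_neg (not_le.1 h)]
      ring
  set f : Finset (Fin N) → ℝ := fun X =>
    ∑ i, sg i * ((if Disjoint X (T i) then (1 : ℝ) else 0) - p i) with hf
  set E : ℝ := ∑ i, |P i - p i| with hE
  -- the mean of `f`
  have hmean : ∑ ω ∈ Ω, f (S ω) = Ω.card * E := by
    simp only [hf, hE]
    rw [Finset.sum_comm, Finset.mul_sum]
    refine Finset.sum_congr rfl fun i _ => ?_
    rw [← Finset.mul_sum, Finset.sum_sub_distrib, Finset.sum_boole, Finset.sum_const,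
      nsmul_eq_mul, ← hsm i]
    simp only [hP]
    field_simp
  -- step 1
  have hs1 : (Ω.card : ℝ) * Real.exp (lam * E) ≤ ∑ ω ∈ Ω, Real.exp (lam * f (S ω)) := by
    have h2 : ∀ ω ∈ Ω, (lam * f (S ω) - lam * E + 1) * Real.exp (lam * E) ≤
        Real.exp (lam * f (S ω)) := by
      intro ω _
      have h3 := mul_le_mul_of_nonneg_right (Real.add_one_le_exp (lam * f (S ω) - lam * E))
        (Real.exp_pos (lam * E)).le
      rwa [← Real.exp_add, sub_add_cancel] at h3
    refine le_trans (le_of_eq ?_) (Finset.sum_le_sum h2)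
    rw [← Finset.sum_mul, Finset.sum_add_distrib, Finset.sum_sub_distrib, ← Finset.mul_sum, hmean,
      Finset.sum_const, Finset.sum_const, nsmul_eq_mul, nsmul_eq_mul]
    ring
  -- step 2
  have hs2 : ∑ ω ∈ Ω, Real.exp (lam * f (S ω)) ≤
      M * ∑ X : Finset (Fin N), Real.exp (lam * f X) := by
    rw [← Finset.sum_fiberwise_of_maps_to (s := Ω) (t := Finset.univ) (g := S)
      (fun _ _ => Finset.mem_univ _), Finset.mul_sum]
    refine Finset.sum_le_sum fun X _ => ?_
    have h2 : ∑ ω ∈ Ω.filter (fun ω => S ω = X), Real.exp (lam * f (S ω)) =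
        ((Ω.filter fun ω => S ω = X).card : ℝ) * Real.exp (lam * f X) := by
      rw [← nsmul_eq_mul, ← Finset.sum_const]
      refine Finset.sum_congr rfl fun ω hω => ?_
      rw [(Finset.mem_filter.1 hω).2]
    rw [h2]
    exact mul_le_mul_of_nonneg_right (hM X) (Real.exp_pos _).le
  -- step 3
  have hs3 : ∑ X : Finset (Fin N), Real.exp (lam * f X) ≤ 2 ^ N * Real.exp (lam ^ 2 * N) := by
    have h2 : ∀ X : Finset (Fin N), Real.exp (lam * f X) =
        ∏ i, ((Real.exp (lam * (sg i * (1 - p i))) - Real.exp (lam * (sg i * (0 - p i)))) *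
          (if Disjoint X (T i) then (1 : ℝ) else 0) + Real.exp (lam * (sg i * (0 - p i)))) := by
      intro X
      simp only [hf]
      rw [Finset.mul_sum, Real.exp_sum]
      refine Finset.prod_congr rfl fun i _ => ?_
      split_ifs
      · ring
      · ring
    rw [Finset.sum_congr rfl fun X _ => h2 X, balance_prod T hT]
    refine mul_le_mul_of_nonneg_left ?_ (by positivity)
    calc _ ≤ ∏ _i : Fin N, Real.exp (lam ^ 2) := by
          refine Finset.prod_le_prod (fun i _ => ?_) fun i _ => ?_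
          · have e1 : (Real.exp (lam * (sg i * (1 - p i))) -
                Real.exp (lam * (sg i * (0 - p i)))) * (1 / 2) ^ (T i).card +
                Real.exp (lam * (sg i * (0 - p i))) =
                Real.exp (lam * (sg i * (1 - p i))) * p i +
                Real.exp (lam * (sg i * (0 - p i))) * (1 - p i) := by
              simp only [hp]
              ring
            rw [e1]
            exact add_nonneg (mul_nonneg (Real.exp_pos _).le (hp0 i))
              (mul_nonneg (Real.exp_pos _).le (sub_nonneg.2 (hp1 i)))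
          · exact balance_num (hp0 i) (hp1 i) h0 h1 (hsabs i)
      _ = Real.exp (lam ^ 2 * N) := by
          rw [Finset.prod_const, Finset.card_univ, Fintype.card_fin, ← Real.exp_nat_mul]
          congr 1
          ring
  have hs4 : (Ω.card : ℝ) * Real.exp (lam * E) ≤ M * (2 ^ N * Real.exp (lam ^ 2 * N)) :=
    hs1.trans (hs2.trans (mul_le_mul_of_nonneg_left hs3 hM0))
  have hs5 : Real.exp (lam * E) ≤ M * 2 ^ N / (Ω.card : ℝ) * Real.exp (lam ^ 2 * N) := by
    rw [div_mul_eq_mul_div, le_div_iff₀ hc]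
    linarith
  have hR : 0 < M * 2 ^ N / (Ω.card : ℝ) := by
    by_contra h
    have h2 := mul_nonpos_of_nonpos_of_nonneg (not_lt.1 h) (Real.exp_pos (lam ^ 2 * N)).le
    linarith [Real.exp_pos (lam * E)]
  have hs6 : lam * E ≤ Real.log (M * 2 ^ N / (Ω.card : ℝ)) + lam ^ 2 * N := by
    rw [← Real.exp_le_exp, Real.exp_add, Real.exp_log hR]
    exact hs5
  show E ≤ _
  rw [← mul_le_mul_iff_right₀ h0]
  refine hs6.trans (le_of_eq ?_)
  field_simp

end EMS
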