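import Pool.Agent.Work.MP_2b8540_co.S.Defs

/-!
# Module S/Walks (M): homomorphisms of the pattern are walks followed by a triangle

## Proof
* `homs_card`, induction on `j`. `j = 0`: `f ↦ (f 0, f 1, f 2)`; `pat 0` is `{(0,1),(1,2),(0,2)}` and
  `start A F` is `A, F, F`. Step: `f ↦ (f 0, Fin.tail f)`: `f ∈ homs H (pat (j+1)) (start A F)` iff
  `f 0 ∈ A`, `H.Adj (f 0) (f 1)`, and `Fin.tail f ∈ homs H (pat j) (start F F)`, i.e. for given
  `f 0 = a`: `Fin.tail f ∈ homs H (pat j) (start {b' ∈ F | H.Adj a b'} F)`. So the cardinality is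
  `∑ a ∈ A, (homs H (pat j) (start (F.filter (H.Adj a)) F)).card`; apply the induction hypothesis
  (for all `A`). It may be easier to prove first for `A = {a}`.
* `wk_le` by induction: `wk 0 b ≤ |F ×ˢ F| = |F|²`, `wk (j+1) b ≤ |F| · |F|^(j+2)`.
-/

open Finset

namespace EMS

open Classical in
private theorem wk_pat0 : pat 0 = {((0 : Fin 3), (1 : Fin 3)), (1, 2), (0, 2)} := by decide

open Classical in
private theorem wk_mem0 {α : Type*} {H : SimpleGraph α} {F A : Finset α} {f : Fin (0 + 3) → α} :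
    f ∈ homs H (pat 0) (start A F) ↔
      f 0 ∈ A ∧ f 1 ∈ F ∧ f 2 ∈ F ∧ H.Adj (f 0) (f 1) ∧ H.Adj (f 1) (f 2) ∧ H.Adj (f 0) (f 2) := by
  rw [mem_homs]
  constructor
  · rintro ⟨h1, h2⟩
    have h3 := h1 0
    have h4 := h1 1
    have h5 := h1 2
    refine ⟨?_, ?_, ?_, ?_, ?_, ?_⟩
    · simpa [start] using h3
    · simpa [start] using h4
    · simpa [start] using h5
    · exact h2 (0, 1) (by rw [wk_pat0]; decide)
    · exact h2 (1, 2) (by rw [wk_pat0]; decide)
    · exact h2 (0, 2) (by rw [wk_pat0]; decide)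
  · rintro ⟨h0, h1, h2, h3, h4, h5⟩
    refine ⟨?_, ?_⟩
    · intro i
      fin_cases i
      · simpa [start] using h0
      · simpa [start] using h1
      · simpa [start] using h2
    · intro e he
      have he' : e ∈ ({((0 : Fin 3), (1 : Fin 3)), (1, 2), (0, 2)} : Finset (Fin 3 × Fin 3)) := by
        rw [← wk_pat0]
        exact he
      simp only [Finset.mem_insert, Finset.mem_singleton] at he'
      rcases he' with rfl | rfl | rfl
      · exact h3
      · exact h4
      · exact h5

private theorem wk_pat {j : ℕ} {x y : Fin (j + 3)} :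
    ((x.succ, y.succ) : Fin (j + 1 + 3) × Fin (j + 1 + 3)) ∈ pat (j + 1) ↔ (x, y) ∈ pat j := by
  unfold pat
  rw [Finset.mem_filter, Finset.mem_filter]
  have h1 : ((x.succ : Fin (j + 3 + 1)) : ℕ) = x + 1 := Fin.val_succ x
  have h2 : ((y.succ : Fin (j + 3 + 1)) : ℕ) = y + 1 := Fin.val_succ y
  constructor
  · rintro ⟨-, h⟩
    refine ⟨Finset.mem_univ _, ?_⟩
    change (((x.succ : Fin (j + 3 + 1)) : ℕ) + 1 = ((y.succ : Fin (j + 3 + 1)) : ℕ) ∨
      (((x.succ : Fin (j + 3 + 1)) : ℕ) = j + 1 ∧ ((y.succ : Fin (j + 3 + 1)) : ℕ) = j + 1 + 2)) at h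
    change ((x : ℕ) + 1 = (y : ℕ) ∨ ((x : ℕ) = j ∧ (y : ℕ) = j + 2))
    omega
  · rintro ⟨-, h⟩
    refine ⟨Finset.mem_univ _, ?_⟩
    change ((x : ℕ) + 1 = (y : ℕ) ∨ ((x : ℕ) = j ∧ (y : ℕ) = j + 2)) at h
    change (((x.succ : Fin (j + 3 + 1)) : ℕ) + 1 = ((y.succ : Fin (j + 3 + 1)) : ℕ) ∨
      (((x.succ : Fin (j + 3 + 1)) : ℕ) = j + 1 ∧ ((y.succ : Fin (j + 3 + 1)) : ℕ) = j + 1 + 2))
    omega

open Classical in
private theorem wk_mems {α : Type*} {H : SimpleGraph α} {F A : Finset α} {j : ℕ}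
    {f : Fin (j + 1 + 3) → α} :
    f ∈ homs H (pat (j + 1)) (start A F) ↔
      f 0 ∈ A ∧ (fun i : Fin (j + 3) => f i.succ) ∈
        homs H (pat j) (start (F.filter fun b => H.Adj (f 0) b) F) := by
  rw [mem_homs, mem_homs]
  have hone : (1 : Fin (j + 1 + 3)) = (0 : Fin (j + 3)).succ := rfl
  constructor
  · rintro ⟨h1, h2⟩
    have hF : ∀ i : Fin (j + 3), f i.succ ∈ F := by
      intro i
      have h3 := h1 i.succ
      unfold start at h3
      rw [if_neg (by
        have : ((i.succ : Fin (j + 3 + 1)) : ℕ) = i + 1 := Fin.val_succ i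
        intro h0
        have h0' : ((i.succ : Fin (j + 3 + 1)) : ℕ) = 0 := h0
        omega)] at h3
      exact h3
    refine ⟨?_, ?_, ?_⟩
    · have h3 := h1 0
      unfold start at h3
      rwa [if_pos (show ((0 : Fin (j + 1 + 3)) : ℕ) = 0 from rfl)] at h3
    · intro i
      unfold start
      by_cases hi : (i : ℕ) = 0
      · rw [if_pos hi, Finset.mem_filter]
        have hi' : i = 0 := Fin.ext hi
        subst hi'
        refine ⟨hF 0, ?_⟩
        refine h2 (0, (0 : Fin (j + 3)).succ) ?_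
        unfold pat
        rw [Finset.mem_filter]
        exact ⟨Finset.mem_univ _, Or.inl rfl⟩
      · rw [if_neg hi]
        exact hF i
    · intro e he
      exact h2 (e.1.succ, e.2.succ) (wk_pat.2 he)
  · rintro ⟨h0, h1, h2⟩
    have hF : ∀ i : Fin (j + 3), f i.succ ∈ F := by
      intro i
      have h3 := h1 i
      unfold start at h3
      by_cases hi : (i : ℕ) = 0
      · rw [if_pos hi, Finset.mem_filter] at h3
        exact h3.1
      · rw [if_neg hi] at h3
        exact h3
    have hA : H.Adj (f 0) (f (0 : Fin (j + 3)).succ) := by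
      have h3 := h1 0
      unfold start at h3
      rw [if_pos (show ((0 : Fin (j + 3)) : ℕ) = 0 from rfl), Finset.mem_filter] at h3
      exact h3.2
    refine ⟨?_, ?_⟩
    · intro i
      refine Fin.cases (n := j + 3) ?_ ?_ i
      · unfold start
        have h00 : (((0 : Fin (j + 3 + 1)) : Fin (j + 1 + 3)) : ℕ) = 0 := rfl
        change f 0 ∈ if ((0 : Fin (j + 1 + 3)) : ℕ) = 0 then A else F
        rw [if_pos (show ((0 : Fin (j + 1 + 3)) : ℕ) = 0 from rfl)]
        exact h0
      · intro i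
        unfold start
        rw [if_neg (by
          have : ((i.succ : Fin (j + 3 + 1)) : ℕ) = i + 1 := Fin.val_succ i
          intro h0
          have h0' : ((i.succ : Fin (j + 3 + 1)) : ℕ) = 0 := h0
          omega)]
        exact hF i
    · rintro ⟨x, y⟩
      refine Fin.cases (n := j + 3) ?_ ?_ x
      · intro he
        unfold pat at he
        rw [Finset.mem_filter] at he
        have h3 := he.2
        change ((0 : ℕ) + 1 = (y : ℕ) ∨ ((0 : ℕ) = j + 1 ∧ (y : ℕ) = j + 1 + 2)) at h3
        have h4 : y = (0 : Fin (j + 3)).succ := by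
          apply Fin.ext
          change (y : ℕ) = 1
          omega
        rw [h4]
        exact hA
      · intro x
        refine Fin.cases (n := j + 3) ?_ ?_ y
        · intro he
          exfalso
          unfold pat at he
          rw [Finset.mem_filter] at he
          have h3 := he.2
          change (((x.succ : Fin (j + 3 + 1)) : ℕ) + 1 = 0 ∨
            (((x.succ : Fin (j + 3 + 1)) : ℕ) = j + 1 ∧ 0 = j + 1 + 2)) at h3
          omega
        · intro y he
          exact h2 (x, y) (wk_pat.1 he)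

theorem homs_card {α : Type*} (H : SimpleGraph α) (F A : Finset α) (j : ℕ) :
    (homs H (pat j) (start A F)).card = ∑ a ∈ A, wk H F j a := by
  classical
  induction j generalizing A with
  | zero =>
    unfold wk
    rw [← Finset.card_sigma]
    refine Finset.card_nbij' (fun f => ⟨f 0, (f 1, f 2)⟩) (fun p => ![p.1, p.2.1, p.2.2]) ?_ ?_ ?_ ?_
    · intro f hf
      obtain ⟨h0, h1, h2, h3, h4, h5⟩ := wk_mem0.1 (Finset.mem_coe.1 hf)
      simp only [Finset.mem_coe, Finset.mem_sigma, Finset.mem_filter, Finset.mem_product]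
      exact ⟨h0, ⟨h1, h2⟩, h3, h4, h5⟩
    · rintro ⟨a, b, c⟩ hp
      simp only [Finset.mem_coe, Finset.mem_sigma, Finset.mem_filter, Finset.mem_product] at hp
      obtain ⟨h0, ⟨h1, h2⟩, h3, h4, h5⟩ := hp
      exact Finset.mem_coe.2 (wk_mem0.2 ⟨h0, h1, h2, h3, h4, h5⟩)
    · intro f _
      funext i
      fin_cases i <;> rfl
    · rintro ⟨a, b, c⟩ _
      rfl
  | succ j ih =>
    have h1 : ∀ a ∈ A, wk H F (j + 1) a =
        (homs H (pat j) (start (F.filter fun b => H.Adj a b) F)).card := by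
      intro a _
      rw [ih]
      rfl
    rw [Finset.sum_congr rfl h1, ← Finset.card_sigma]
    refine Finset.card_nbij' (fun f => ⟨f 0, fun i => f i.succ⟩)
      (fun p => Fin.cons (α := fun _ => α) p.1 p.2) ?_ ?_ ?_ ?_
    · intro f hf
      obtain ⟨h0, h2⟩ := wk_mems.1 (Finset.mem_coe.1 hf)
      exact Finset.mem_coe.2 (Finset.mem_sigma.2 ⟨h0, h2⟩)
    · rintro ⟨a, g⟩ hp
      obtain ⟨h0, h2⟩ := Finset.mem_sigma.1 (Finset.mem_coe.1 hp)
      refine Finset.mem_coe.2 (wk_mems.2 ⟨h0, ?_⟩)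
      exact h2
    · intro f _
      funext i
      refine Fin.cases (n := j + 3) ?_ ?_ i
      · rfl
      · intro i
        rfl
    · rintro ⟨a, g⟩ _
      rfl

theorem wk_le {α : Type*} (H : SimpleGraph α) (F : Finset α) (j : ℕ) (b : α) :
    wk H F j b ≤ F.card ^ (j + 2) := by
  classical
  induction j generalizing b with
  | zero =>
    unfold wk
    refine (Finset.card_filter_le _ _).trans ?_
    rw [Finset.card_product, zero_add, pow_two]
  | succ j ih =>
    unfold wk
    refine (Finset.sum_le_card_nsmul _ _ _ fun b' _ => ih b').trans ?_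
    rw [smul_eq_mul, show j + 1 + 2 = (j + 2) + 1 by ring, pow_succ' F.card (j + 2)]
    refine Nat.mul_le_mul_right _ ?_
    exact Finset.card_le_card (Finset.filter_subset _ _)

end EMS
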