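import Pool.Agent.Work.MP_2b8540_co.S.Key
import Pool.Agent.Work.MP_2b8540_co.S.Walks

/-!
# Module S/Cells (M)

Imports `EMS.key`, `EMS.homs_card`, `EMS.wk_le`.

## Proof
For every `j ≤ L` take `γ_j`, `n_j` from `key k j hk (ρ/2 > 0)`, `γ = min γ_j` (`> 0`),
`n₀ = max n_j` and so large that `2^(-γ n) ≤ ρ/2`.
For `a ∈ G` choose `P(a) ∈ 𝒬` with `a ∈ P(a)`, and for `P ∈ 𝒬` put `G_P = {a ∈ G | P(a) = P} ⊆ P`. Then
`∑ a ∈ G, wk j a = ∑ P ∈ 𝒬, ∑ a ∈ G_P, wk j a` (`Finset.sum_fiberwise_of_maps_to`).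
* If `|G_P| < 2^((1-2γ)n)`: `∑ a ∈ G_P, wk j a ≤ 2^((1-2γ)n) m^(j+2)` (`wk_le`), in total at most
  `2^(γ n) 2^((1-2γ)n) m^(j+2) = 2^(-γ n) 2^n m^(j+2) ≤ (ρ/2) m^(j+3)` as `m = |F| ≥ 2^n`.
* If `|G_P| ≥ 2^((1-2γ)n) ≥ 2^((1-2γ_j)n)`: `key` with `A = G_P` and `homs_card` give
  `∑ a ∈ G_P, wk j a < (ρ/2) |G_P| m^(j+2)`, in total at most `(ρ/2) |G| m^(j+2) ≤ (ρ/2) m^(j+3)`
  (the `G_P` are disjoint subsets of `G ⊆ F`).
-/

open Finset

namespace EMS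

private lemma small_pow {γ ρ : ℝ} (hγ : 0 < γ) (hρ : 0 < ρ) :
    ∃ N : ℕ, ∀ n ≥ N, (2 : ℝ) ^ (-(γ * n)) ≤ ρ / 2 := by
  have hlog : 0 < Real.log 2 := Real.log_pos (by norm_num)
  refine ⟨⌈-Real.log (ρ / 2) / (γ * Real.log 2)⌉₊, fun n hn => ?_⟩
  have h1 : -Real.log (ρ / 2) / (γ * Real.log 2) ≤ n := by
    have h2 := Nat.le_ceil (-Real.log (ρ / 2) / (γ * Real.log 2))
    have h3 : ((⌈-Real.log (ρ / 2) / (γ * Real.log 2)⌉₊ : ℕ) : ℝ) ≤ n := by exact_mod_cast hn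
    linarith
  rw [div_le_iff₀ (by positivity)] at h1
  rw [← Real.log_le_log_iff (Real.rpow_pos_of_pos (by norm_num) _) (by positivity),
    Real.log_rpow (by norm_num)]
  linarith

theorem cells (k L : ℕ) (hk : 1 ≤ k) {ρ : ℝ} (hρ : 0 < ρ) :
    ∃ γ : ℝ, 0 < γ ∧ ∃ n₀ : ℕ, ∀ n ≥ n₀, ∀ (F G : Finset (Finset (Fin (2 * n))))
      (𝒬 : Finset (Finset (Finset (Fin (2 * n))))) (H : SimpleGraph (Finset (Fin (2 * n)))),
      UU H → (2 : ℝ) ^ n ≤ (F.card : ℝ) → G ⊆ F → (∀ a ∈ G, ∃ P ∈ 𝒬, a ∈ P) →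
      (∀ P ∈ 𝒬, NonRandom k n P) → (𝒬.card : ℝ) ≤ 2 ^ (γ * n) →
      ∀ j ≤ L, (∑ a ∈ G, (wk H F j a : ℝ)) ≤ ρ * (F.card : ℝ) ^ (j + 3) := by
  have hk' := fun j : ℕ => key k j hk (half_pos hρ)
  choose gam hgam n0 hkey using hk'
  obtain ⟨γ, hγdef⟩ : ∃ γ, γ = (Finset.range (L + 1)).inf' ⟨0, by simp⟩ gam := ⟨_, rfl⟩
  have hγ : 0 < γ := by
    rw [hγdef, Finset.lt_inf'_iff]
    exact fun j _ => hgam j
  have hγle : ∀ j ≤ L, γ ≤ gam j := by
    intro j hj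
    rw [hγdef]
    exact Finset.inf'_le gam (Finset.mem_range.2 (by omega))
  obtain ⟨N1, hN1⟩ := small_pow hγ hρ
  refine ⟨γ, hγ, max ((Finset.range (L + 1)).sup n0) N1, ?_⟩
  intro n hn F G 𝒬 H hUU hF hGF hG hNR hQ j hj
  have hn1 : N1 ≤ n := (le_max_right _ _).trans hn
  have hn2 : n0 j ≤ n :=
    (Finset.le_sup (f := n0) (Finset.mem_range.2 (by omega))).trans ((le_max_left _ _).trans hn)
  choose! pick hpick using hG
  obtain ⟨m, hm⟩ : ∃ m : ℝ, m = (F.card : ℝ) := ⟨_, rfl⟩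
  have hm0 : 0 < m := by
    rw [hm]
    exact lt_of_lt_of_le (by positivity) hF
  rw [← hm] at hF ⊢
  obtain ⟨W, hW⟩ : ∃ W : ℝ, W = (2 : ℝ) ^ ((1 - 2 * γ) * n) := ⟨_, rfl⟩
  have hW0 : 0 < W := by
    rw [hW]
    exact Real.rpow_pos_of_pos (by norm_num) _
  have hone : ∀ P ∈ 𝒬, ∑ a ∈ G.filter (fun a => pick a = P), (wk H F j a : ℝ) ≤
      W * m ^ (j + 2) + ρ / 2 * ((G.filter (fun a => pick a = P)).card : ℝ) * m ^ (j + 2) := by
    intro P hP
    rcases lt_or_ge ((G.filter (fun a => pick a = P)).card : ℝ) W with h | h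
    · have h1 : ∑ a ∈ G.filter (fun a => pick a = P), (wk H F j a : ℝ) ≤
          ∑ a ∈ G.filter (fun a => pick a = P), m ^ (j + 2) := by
        apply Finset.sum_le_sum
        intro a _
        rw [hm]
        exact_mod_cast wk_le H F j a
      rw [Finset.sum_const, nsmul_eq_mul] at h1
      have h2 : ((G.filter (fun a => pick a = P)).card : ℝ) * m ^ (j + 2) ≤ W * m ^ (j + 2) :=
        mul_le_mul_of_nonneg_right h.le (by positivity)
      have h3 : 0 ≤ ρ / 2 * ((G.filter (fun a => pick a = P)).card : ℝ) * m ^ (j + 2) := by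
        positivity
      linarith
    · have hsub : G.filter (fun a => pick a = P) ⊆ P := by
        intro a ha
        rw [Finset.mem_filter] at ha
        have h1 := (hpick a ha.1).2
        rw [ha.2] at h1
        exact h1
      have hle : (2 : ℝ) ^ ((1 - 2 * gam j) * n) ≤ ((G.filter (fun a => pick a = P)).card : ℝ) := by
        refine le_trans ?_ h
        rw [hW]
        apply Real.rpow_le_rpow_of_exponent_le (by norm_num)
        have h1 := hγle j hj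
        have h2 : (0 : ℝ) ≤ n := Nat.cast_nonneg n
        nlinarith
      have h1 := hkey j n hn2 F (G.filter (fun a => pick a = P)) P H hUU (by rw [← hm]; exact hF)
        hsub (hNR P hP) hle
      rw [homs_card, ← hm] at h1
      push_cast at h1
      have h3 : 0 ≤ W * m ^ (j + 2) := by positivity
      linarith
  have hsum : ∑ a ∈ G, (wk H F j a : ℝ) =
      ∑ P ∈ 𝒬, ∑ a ∈ G.filter (fun a => pick a = P), (wk H F j a : ℝ) :=
    (Finset.sum_fiberwise_of_maps_to (fun a ha => (hpick a ha).1) _).symm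
  have hcard : ∑ P ∈ 𝒬, ((G.filter (fun a => pick a = P)).card : ℝ) = (G.card : ℝ) := by
    have h1 := Finset.sum_fiberwise_of_maps_to (s := G) (t := 𝒬) (g := pick)
      (fun a ha => (hpick a ha).1) (fun _ => (1 : ℝ))
    simpa only [Finset.sum_const, nsmul_eq_mul, mul_one] using h1
  have hGc : (G.card : ℝ) ≤ m := by
    rw [hm]
    exact_mod_cast Finset.card_le_card hGF
  have hQW : (𝒬.card : ℝ) * W ≤ ρ / 2 * m := by
    have h1 : (𝒬.card : ℝ) * W ≤ 2 ^ (γ * n) * W := mul_le_mul_of_nonneg_right hQ hW0.le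
    have h2 : (2 : ℝ) ^ (γ * n) * W = 2 ^ (-(γ * n)) * 2 ^ n := by
      rw [hW, ← Real.rpow_add (by norm_num), ← Real.rpow_natCast 2 n, ← Real.rpow_add (by norm_num)]
      congr 1
      ring
    have h3 : (2 : ℝ) ^ (-(γ * n)) * 2 ^ n ≤ ρ / 2 * m :=
      mul_le_mul (hN1 n hn1) hF (by positivity) (by positivity)
    linarith
  rw [hsum]
  refine (Finset.sum_le_sum hone).trans ?_
  rw [Finset.sum_add_distrib, Finset.sum_const, nsmul_eq_mul, ← Finset.sum_mul, ← Finset.mul_sum,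
    hcard]
  have h1 : (𝒬.card : ℝ) * (W * m ^ (j + 2)) ≤ ρ / 2 * m * m ^ (j + 2) := by
    rw [← mul_assoc]
    exact mul_le_mul_of_nonneg_right hQW (by positivity)
  have h2 : ρ / 2 * (G.card : ℝ) * m ^ (j + 2) ≤ ρ / 2 * m * m ^ (j + 2) := by
    apply mul_le_mul_of_nonneg_right _ (by positivity)
    exact mul_le_mul_of_nonneg_left hGc (by positivity)
  have h3 : ρ * m ^ (j + 3) = ρ / 2 * m * m ^ (j + 2) + ρ / 2 * m * m ^ (j + 2) := by ring
  linarith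

end EMS
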