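import Pool.Agent.Work.MP_2b8540_co.S.Defs

/-!
# Module S/Chain (M): prefix frequencies and the chain rule

For a family `U` and `j : Fin N`, `a ⊆ Fin N`: `pre U j a = {a' ∈ U | a' and a agree below j}` and
`xx U j a` = proportion of the members of `pre U j a` which do not contain `j`.

## Proof
* `chain_rule`: for `a ∈ U` let `n_j(a) = #{a' ∈ U | a' and a agree on {i | i < j}}` for `j = 0, …, N`,
  so `n_0 = |U|`, `n_N = 1`, and `n_{j+1}(a)/n_j(a)` is `xx U j a` if `j ∉ a` and `1 - xx U j a` if `j ∈ a`.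
  So `log |U| = ∑ j, - log (n_{j+1}(a)/n_j(a))` for every `a ∈ U`. Average over `a ∈ U`: for fixed `j`,
  group the `a` by their trace on `{i | i < j}` (`xx U j a` depends only on it): in a group with
  `n` members, `x n` of them avoid `j` and `(1-x) n` contain `j` (`x` the common value of `xx`), and the
  sum of `- log (…)` over the group is `n (- x log x - (1-x) log(1-x)) = n · binEntropy x`
  (a term with `x = 0` or `x = 1` is `0` on both sides). Hence
  `∑_{a ∈ U} (- log (n_{j+1}(a)/n_j(a))) = ∑_{a ∈ U} binEntropy (xx U j a)`.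
* `sum_xx`: `∑_{a ∈ U} xx U j a = #{a ∈ U | j ∉ a} = |U| av U {j}`: again by groups.
-/

open Finset

namespace EMS

/-- the members of `U` which agree with `a` below `j` -/
def pre {N : ℕ} (U : Finset (Finset (Fin N))) (j : Fin N) (a : Finset (Fin N)) :
    Finset (Finset (Fin N)) :=
  U.filter fun a' => ∀ i < j, (i ∈ a' ↔ i ∈ a)

/-- the proportion of the members of `pre U j a` which avoid `j` -/
noncomputable def xx {N : ℕ} (U : Finset (Finset (Fin N))) (j : Fin N) (a : Finset (Fin N)) : ℝ :=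
  (((pre U j a).filter fun a' => j ∉ a').card : ℝ) / ((pre U j a).card : ℝ)

private theorem ch_mem {N : ℕ} {U : Finset (Finset (Fin N))} {j : Fin N} {a b : Finset (Fin N)} :
    b ∈ pre U j a ↔ b ∈ U ∧ ∀ i < j, (i ∈ b ↔ i ∈ a) := by
  unfold pre
  rw [Finset.mem_filter]

private theorem ch_self {N : ℕ} {U : Finset (Finset (Fin N))} {j : Fin N} {a : Finset (Fin N)}
    (ha : a ∈ U) : a ∈ pre U j a := ch_mem.2 ⟨ha, fun _ _ => Iff.rfl⟩

private theorem ch_congr {N : ℕ} {U : Finset (Finset (Fin N))} {j : Fin N}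
    {a b : Finset (Fin N)} (hb : b ∈ pre U j a) : pre U j b = pre U j a := by
  have h1 := (ch_mem.1 hb).2
  ext c
  rw [ch_mem, ch_mem]
  constructor
  · rintro ⟨h2, h3⟩
    exact ⟨h2, fun i hi => (h3 i hi).trans (h1 i hi)⟩
  · rintro ⟨h2, h3⟩
    exact ⟨h2, fun i hi => (h3 i hi).trans (h1 i hi).symm⟩

private theorem ch_avg {N : ℕ} (U : Finset (Finset (Fin N))) (j : Fin N)
    (f : Finset (Fin N) → ℝ) :
    ∑ a ∈ U, (∑ b ∈ pre U j a, f b) / ((pre U j a).card : ℝ) = ∑ a ∈ U, f a := by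
  calc ∑ a ∈ U, (∑ b ∈ pre U j a, f b) / ((pre U j a).card : ℝ)
      = ∑ a ∈ U, ∑ b ∈ pre U j a, f b / ((pre U j a).card : ℝ) :=
        Finset.sum_congr rfl fun a _ => Finset.sum_div _ _ _
    _ = ∑ b ∈ U, ∑ a ∈ pre U j b, f b / ((pre U j a).card : ℝ) := by
        refine Finset.sum_comm' fun a b => ?_
        rw [ch_mem, ch_mem]
        constructor
        · rintro ⟨h1, h2, h3⟩
          exact ⟨⟨h1, fun i hi => (h3 i hi).symm⟩, h2⟩
        · rintro ⟨⟨h1, h2⟩, h3⟩
          exact ⟨h1, h3, fun i hi => (h2 i hi).symm⟩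
    _ = ∑ b ∈ U, f b := by
        refine Finset.sum_congr rfl fun b hb => ?_
        have h1 : ∀ a ∈ pre U j b, f b / ((pre U j a).card : ℝ) = f b / ((pre U j b).card : ℝ) :=
          fun a ha => by rw [ch_congr ha]
        rw [Finset.sum_congr rfl h1, Finset.sum_const, nsmul_eq_mul]
        have h2 : ((pre U j b).card : ℝ) ≠ 0 := by
          have := Finset.card_pos.2 ⟨b, ch_self (j := j) hb⟩
          exact_mod_cast this.ne'
        field_simp

/-- members which agree with `a` on the first `k` coordinates -/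
private def ag {N : ℕ} (U : Finset (Finset (Fin N))) (k : ℕ) (a : Finset (Fin N)) :
    Finset (Finset (Fin N)) :=
  U.filter fun a' => ∀ i : Fin N, (i : ℕ) < k → (i ∈ a' ↔ i ∈ a)

private theorem ch_ent (n0 n1 : ℕ) (h : 0 < n0 + n1) :
    ((n0 + n1 : ℕ) : ℝ) * Real.binEntropy ((n0 : ℝ) / ((n0 + n1 : ℕ) : ℝ)) =
      (n0 : ℝ) * (Real.log ((n0 + n1 : ℕ) : ℝ) - Real.log n0) +
      (n1 : ℝ) * (Real.log ((n0 + n1 : ℕ) : ℝ) - Real.log n1) := by
  have hn : ((n0 + n1 : ℕ) : ℝ) ≠ 0 := by exact_mod_cast h.ne'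
  have h1 : (1 : ℝ) - (n0 : ℝ) / ((n0 + n1 : ℕ) : ℝ) = (n1 : ℝ) / ((n0 + n1 : ℕ) : ℝ) := by
    field_simp
    push_cast
    ring
  unfold Real.binEntropy
  rw [h1]
  have key : ∀ c : ℕ, ((n0 + n1 : ℕ) : ℝ) * ((c : ℝ) / ((n0 + n1 : ℕ) : ℝ) *
      Real.log ((c : ℝ) / ((n0 + n1 : ℕ) : ℝ))⁻¹) =
      (c : ℝ) * (Real.log ((n0 + n1 : ℕ) : ℝ) - Real.log c) := by
    intro c
    rcases Nat.eq_zero_or_pos c with rfl | hc
    · simp
    · have hc' : (c : ℝ) ≠ 0 := by exact_mod_cast hc.ne'
      rw [inv_div, Real.log_div hn hc']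
      field_simp
  rw [mul_add, key, key]

private theorem ch_step {N : ℕ} (U : Finset (Finset (Fin N))) (j : Fin N) (a : Finset (Fin N))
    (ha : a ∈ U) :
    (∑ b ∈ pre U j a, (Real.log ((ag U j b).card : ℝ) - Real.log ((ag U (j + 1) b).card : ℝ))) /
      ((pre U j a).card : ℝ) = Real.binEntropy (xx U j a) := by
  have hag : ∀ b, ag U j b = pre U j b := by
    intro b
    ext c
    unfold ag
    rw [ch_mem, Finset.mem_filter]
    rfl
  have hag1 : ∀ b, ag U (j + 1) b = (pre U j b).filter fun c => (j ∈ c ↔ j ∈ b) := by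
    intro b
    ext c
    unfold ag
    rw [Finset.mem_filter, Finset.mem_filter, ch_mem]
    constructor
    · rintro ⟨h1, h2⟩
      exact ⟨⟨h1, fun i hi => h2 i (by have := Fin.lt_def.1 hi; omega)⟩, h2 j (by omega)⟩
    · rintro ⟨⟨h1, h2⟩, h3⟩
      refine ⟨h1, fun i hi => ?_⟩
      rcases Nat.lt_or_ge (i : ℕ) (j : ℕ) with h4 | h4
      · exact h2 i (Fin.lt_def.2 h4)
      · have h5 : i = j := Fin.ext (by omega)
        rw [h5]
        exact h3
  have hcard := Finset.card_filter_add_card_filter_not (s := pre U j a) (fun b => j ∉ b)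
  have hnn : (pre U j a).filter (fun b => ¬ j ∉ b) = (pre U j a).filter fun b => j ∈ b :=
    Finset.filter_congr fun b _ => not_not
  rw [hnn] at hcard
  have hpos : 0 < (pre U j a).card := Finset.card_pos.2 ⟨a, ch_self ha⟩
  have hne : ((pre U j a).card : ℝ) ≠ 0 := by exact_mod_cast hpos.ne'
  rw [div_eq_iff hne, mul_comm]
  have hsplit := Finset.sum_filter_add_sum_filter_not (pre U j a) (fun b => j ∉ b)
    (fun b => Real.log ((ag U j b).card : ℝ) - Real.log ((ag U (j + 1) b).card : ℝ))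
  rw [hnn] at hsplit
  rw [← hsplit]
  have h0 : ∀ b ∈ (pre U j a).filter (fun b => j ∉ b),
      Real.log ((ag U j b).card : ℝ) - Real.log ((ag U (j + 1) b).card : ℝ) =
      Real.log ((pre U j a).card : ℝ) -
        Real.log (((pre U j a).filter fun b => j ∉ b).card : ℝ) := by
    intro b hb
    obtain ⟨h1, h2⟩ := Finset.mem_filter.1 hb
    rw [hag, hag1, ch_congr h1]
    congr 4
    refine Finset.filter_congr fun c _ => ?_
    simp [h2]
  have h1 : ∀ b ∈ (pre U j a).filter (fun b => j ∈ b),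
      Real.log ((ag U j b).card : ℝ) - Real.log ((ag U (j + 1) b).card : ℝ) =
      Real.log ((pre U j a).card : ℝ) -
        Real.log (((pre U j a).filter fun b => j ∈ b).card : ℝ) := by
    intro b hb
    obtain ⟨h1, h2⟩ := Finset.mem_filter.1 hb
    rw [hag, hag1, ch_congr h1]
    congr 4
    refine Finset.filter_congr fun c _ => ?_
    simp [h2]
  rw [Finset.sum_congr rfl h0, Finset.sum_congr rfl h1, Finset.sum_const, Finset.sum_const,
    nsmul_eq_mul, nsmul_eq_mul]
  have h2 := ch_ent ((pre U j a).filter (fun b => j ∉ b)).card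
    ((pre U j a).filter (fun b => j ∈ b)).card (by omega)
  rw [hcard] at h2
  unfold xx
  rw [h2]

theorem chain_rule {N : ℕ} (U : Finset (Finset (Fin N))) (hU : U.Nonempty) :
    ∑ j : Fin N, (∑ a ∈ U, Real.binEntropy (xx U j a)) / (U.card : ℝ) = Real.log U.card := by
  have hc : (U.card : ℝ) ≠ 0 := by
    have := Finset.card_pos.2 hU
    exact_mod_cast this.ne'
  rw [← Finset.sum_div, div_eq_iff hc]
  have h1 : ∀ j : Fin N, ∑ a ∈ U, Real.binEntropy (xx U j a) =
      ∑ a ∈ U, (Real.log ((ag U j a).card : ℝ) - Real.log ((ag U (j + 1) a).card : ℝ)) := by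
    intro j
    rw [← ch_avg U j (fun a =>
      Real.log ((ag U j a).card : ℝ) - Real.log ((ag U (j + 1) a).card : ℝ))]
    exact Finset.sum_congr rfl fun a ha => (ch_step U j a ha).symm
  simp only [h1]
  rw [Finset.sum_comm]
  have h2 : ∀ a ∈ U, ∑ j : Fin N,
      (Real.log ((ag U j a).card : ℝ) - Real.log ((ag U (j + 1) a).card : ℝ)) =
      Real.log U.card := by
    intro a ha
    rw [Fin.sum_univ_eq_sum_range
      (fun k => Real.log ((ag U k a).card : ℝ) - Real.log ((ag U (k + 1) a).card : ℝ)) N,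
      Finset.sum_range_sub']
    have h3 : ag U 0 a = U := by
      unfold ag
      exact Finset.filter_true_of_mem fun c _ i hi => absurd hi (Nat.not_lt_zero _)
    have h4 : ag U N a = {a} := by
      unfold ag
      ext c
      rw [Finset.mem_filter, Finset.mem_singleton]
      constructor
      · rintro ⟨_, h5⟩
        ext i
        exact h5 i i.2
      · rintro rfl
        exact ⟨ha, fun _ _ => Iff.rfl⟩
    rw [h3, h4, Finset.card_singleton, Nat.cast_one, Real.log_one, sub_zero]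
  rw [Finset.sum_congr rfl h2, Finset.sum_const, nsmul_eq_mul]
  ring

theorem sum_xx {N : ℕ} (U : Finset (Finset (Fin N))) (hU : U.Nonempty) (j : Fin N) :
    (∑ a ∈ U, xx U j a) / (U.card : ℝ) = av U {j} := by
  have h1 := ch_avg U j (fun a => if j ∉ a then 1 else 0)
  have h2 : ∀ a ∈ U, xx U j a = (∑ b ∈ pre U j a, (if j ∉ b then (1 : ℝ) else 0)) /
      ((pre U j a).card : ℝ) := by
    intro a _
    unfold xx
    rw [Finset.sum_boole]
  rw [Finset.sum_congr rfl h2, h1, Finset.sum_boole]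
  unfold av
  congr 3
  refine Finset.filter_congr fun a _ => ?_
  rw [Finset.disjoint_singleton_right]

end EMS
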