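import Pool.Agent.Work.MP_2b8540_co.S.Defs

/-!
# Module S/Choice (M): one representation for every union, touching `G` if possible

## Proof
For every `S ∈ unions F` with `S ∉ F` choose a pair `(a_S, b_S) ∈ F × F` with `a_S ∪ b_S = S`, and with
`a_S ∈ G` whenever `S ∈ touching F G`. As `S ∉ F` we have `a_S ≠ b_S`. Let `H` be the graph with
`H.Adj a b ↔ ∃ S ∈ unions F \ F, (a = a_S ∧ b = b_S) ∨ (a = b_S ∧ b = a_S)`.
* `UU`: if `H.Adj a b` via `S` then `a ∪ b = S`, so for two edges with the same union the `S` is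
  the same and both pairs are `{a_S, b_S}`.
* The map `S ↦ (a_S, b_S)` and `S ↦ (b_S, a_S)` give `2 |unions F \ F|` different ordered pairs in
  `ep H F F` (injective as the union of the two entries is `S`, and `a_S ≠ b_S`). So
  `|unions F| ≤ |F| + ep H F F / 2`.
* If `S ∈ touching F G`, `S ∉ F`, both ordered pairs touch `G`; so `|touching F G| ≤ |F| + et H F G / 2`
  (note `touching F G ⊆ unions F` because `G ⊆ F`).
-/

open Finset

namespace EMS

private theorem choice_mem {α : Type*} {s : Finset α} {p : α → Prop} (inst : DecidablePred p)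
    {a : α} (h1 : a ∈ s) (h2 : p a) : a ∈ @Finset.filter α p inst s :=
  Finset.mem_filter.2 ⟨h1, h2⟩

private theorem choice_card {N : ℕ} (F W : Finset (Finset (Fin N)))
    (E : Finset (Finset (Fin N) × Finset (Fin N)))
    (f : Finset (Fin N) → Finset (Fin N) × Finset (Fin N))
    (h : ∀ S ∈ W, S ∉ F → f S ∈ E ∧ (f S).swap ∈ E ∧ (f S).1 ∪ (f S).2 = S ∧ (f S).1 ≠ (f S).2) :
    (W.card : ℝ) ≤ F.card + (E.card : ℝ) / 2 := by
  classical
  set W' := W.filter fun S => S ∉ F with hW'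
  have hm : ∀ S ∈ W', S ∈ W ∧ S ∉ F := fun S hS => Finset.mem_filter.1 hS
  have hu : ∀ S ∈ W', (f S).1 ∪ (f S).2 = S := fun S hS => (h S (hm S hS).1 (hm S hS).2).2.2.1
  have hi1 : Set.InjOn f (W' : Set (Finset (Fin N))) := by
    intro S hS S' hS' he
    rw [← hu S hS, ← hu S' hS', he]
  have hi2 : Set.InjOn (fun S => (f S).swap) (W' : Set (Finset (Fin N))) := by
    intro S hS S' hS' he
    exact hi1 hS hS' (Prod.swap_injective he)
  have hd : Disjoint (W'.image f) (W'.image fun S => (f S).swap) := by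
    rw [Finset.disjoint_left]
    intro x hx hx'
    obtain ⟨S, hS, rfl⟩ := Finset.mem_image.1 hx
    obtain ⟨S', hS', he⟩ := Finset.mem_image.1 hx'
    have he' : f S = (f S').swap := he.symm
    have e1 : S' = S := by
      rw [← hu S hS, ← hu S' hS', he', Prod.fst_swap, Prod.snd_swap, Finset.union_comm]
    rw [e1] at he'
    have e2 : (f S).1 = (f S).2 := by
      have := congrArg Prod.fst he'
      rwa [Prod.fst_swap] at this
    exact (h S (hm S hS).1 (hm S hS).2).2.2.2 e2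
  have hsub : W'.image f ∪ (W'.image fun S => (f S).swap) ⊆ E := by
    intro x hx
    rcases Finset.mem_union.1 hx with hx | hx
    · obtain ⟨S, hS, rfl⟩ := Finset.mem_image.1 hx
      exact (h S (hm S hS).1 (hm S hS).2).1
    · obtain ⟨S, hS, rfl⟩ := Finset.mem_image.1 hx
      exact (h S (hm S hS).1 (hm S hS).2).2.1
  have hc := Finset.card_le_card hsub
  rw [Finset.card_union_of_disjoint hd, Finset.card_image_of_injOn hi1,
    Finset.card_image_of_injOn hi2] at hc
  have hs : W.card ≤ F.card + W'.card := by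
    have h1 : W ⊆ F ∪ W' := by
      intro S hS
      by_cases hF : S ∈ F
      · exact Finset.mem_union_left _ hF
      · exact Finset.mem_union_right _ (Finset.mem_filter.2 ⟨hS, hF⟩)
    exact (Finset.card_le_card h1).trans (Finset.card_union_le _ _)
  have hc' : (W'.card : ℝ) + W'.card ≤ E.card := by exact_mod_cast hc
  have hs' : (W.card : ℝ) ≤ F.card + W'.card := by exact_mod_cast hs
  linarith

theorem choice {N : ℕ} (F G : Finset (Finset (Fin N))) (hGF : G ⊆ F) :
    ∃ H : SimpleGraph (Finset (Fin N)), UU H ∧ (∀ a b, H.Adj a b → a ∈ F ∧ b ∈ F) ∧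
      ((unions F).card : ℝ) ≤ F.card + (ep H F F : ℝ) / 2 ∧
      ((touching F G).card : ℝ) ≤ F.card + (et H F G : ℝ) / 2 := by
  classical
  have hch : ∀ S : Finset (Fin N), ∃ p : Finset (Fin N) × Finset (Fin N),
      (S ∈ unions F → p.1 ∈ F ∧ p.2 ∈ F ∧ p.1 ∪ p.2 = S) ∧ (S ∈ touching F G → p.1 ∈ G) := by
    intro S
    by_cases hT : S ∈ touching F G
    · have hT' := hT
      unfold touching at hT'
      obtain ⟨_, a, ha, b, hb, hab⟩ := Finset.mem_filter.1 hT'
      exact ⟨(a, b), fun _ => ⟨hGF ha, hb, hab⟩, fun _ => ha⟩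
    · by_cases hS : S ∈ unions F
      · have hS' := hS
        unfold unions at hS'
        obtain ⟨_, a, ha, b, hb, hab⟩ := Finset.mem_filter.1 hS'
        exact ⟨(a, b), fun _ => ⟨ha, hb, hab⟩, fun h => absurd h hT⟩
      · exact ⟨(∅, ∅), fun h => absurd h hS, fun h => absurd h hT⟩
  choose f hf using hch
  have hTU : touching F G ⊆ unions F := by
    intro S hS
    unfold touching at hS
    unfold unions
    obtain ⟨h1, a, ha, b, hb, hab⟩ := Finset.mem_filter.1 hS
    exact Finset.mem_filter.2 ⟨h1, a, hGF ha, b, hb, hab⟩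
  obtain ⟨H, hH⟩ : ∃ H : SimpleGraph (Finset (Fin N)), ∀ x y, H.Adj x y ↔
      (x ≠ y ∧ (x ∈ F ∧ y ∈ F) ∧ (f (x ∪ y) = (x, y) ∨ f (x ∪ y) = (y, x))) :=
    ⟨{  Adj := fun x y => x ≠ y ∧ (x ∈ F ∧ y ∈ F) ∧ (f (x ∪ y) = (x, y) ∨ f (x ∪ y) = (y, x))
        symm := ⟨fun x y h => by
          refine ⟨h.1.symm, h.2.1.symm, ?_⟩
          rw [Finset.union_comm]
          exact h.2.2.symm⟩
        loopless := ⟨fun x h => h.1 rfl⟩ }, fun _ _ => Iff.rfl⟩
  have hadj : ∀ S ∈ unions F, S ∉ F → H.Adj (f S).1 (f S).2 := by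
    intro S hS hSF
    obtain ⟨h1, h2, h3⟩ := (hf S).1 hS
    refine (hH _ _).2 ⟨fun he => hSF ?_, ⟨h1, h2⟩, Or.inl ?_⟩
    · rw [← h3, ← he, Finset.union_self]
      exact h1
    · rw [h3]
  refine ⟨H, ?_, fun a b h => ((hH a b).1 h).2.1, ?_, ?_⟩
  · intro a b a' b' h1 h2 he
    obtain ⟨_, _, h1⟩ := (hH _ _).1 h1
    obtain ⟨_, _, h2⟩ := (hH _ _).1 h2
    rw [← he] at h2
    rcases h1 with h1 | h1 <;> rcases h2 with h2 | h2 <;> rw [h1] at h2 <;>
      simp only [Prod.mk.injEq] at h2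
    · exact Or.inl ⟨h2.1, h2.2⟩
    · exact Or.inr ⟨h2.1, h2.2⟩
    · exact Or.inr ⟨h2.2, h2.1⟩
    · exact Or.inl ⟨h2.2, h2.1⟩
  · unfold ep
    refine choice_card F (unions F) _ f fun S hS hSF => ?_
    obtain ⟨h1, h2, h3⟩ := (hf S).1 hS
    have h4 := hadj S hS hSF
    refine ⟨?_, ?_, h3, h4.ne⟩
    · exact Finset.mem_filter.2 ⟨Finset.mem_product.2 ⟨h1, h2⟩, h4⟩
    · exact Finset.mem_filter.2 ⟨Finset.mem_product.2 ⟨h2, h1⟩, h4.symm⟩
  · unfold et
    refine choice_card F (touching F G) _ f fun S hS hSF => ?_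
    obtain ⟨h1, h2, h3⟩ := (hf S).1 (hTU hS)
    have h4 := hadj S (hTU hS) hSF
    have h5 := (hf S).2 hS
    refine ⟨?_, ?_, h3, h4.ne⟩
    · exact choice_mem _ (Finset.mem_product.2 ⟨h1, h2⟩) ⟨h4, Or.inl h5⟩
    · exact choice_mem _ (Finset.mem_product.2 ⟨h2, h1⟩) ⟨h4.symm, Or.inr h5⟩

end EMS
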