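import Pool.Agent.Work.MP_2b8540_co.S.Chain

/-!
# Module S/Telescope (M-L): counting the unions of pairs

Uses only the definitions `pre`, `xx` of S/Chain (and `chain_rule` etc. are not needed).

## Proof
For `S ⊆ Fin N` and `0 ≤ j ≤ N` let `V_j(S) = #{S' ∈ P | S' and S agree on {i | i < j}}`. So
`V_0(S) = |P|` and `V_N(S) = 1` for `S ∈ P`. For `a, b ∈ U` the set `a ∪ b` is in `P`, so `V_j(a ∪ b) ≥ 1`.
Claim: for every `j : Fin N`
`∑_{a,b ∈ U} log V_j(a ∪ b) ≥ ∑_{a,b ∈ U} log V_{j+1}(a ∪ b) + ∑_{a,b ∈ U} binEntropy (xx U j a * xx U j b)`.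
Summing over `j` gives the theorem (`|U|² log |P| ≥ …`).
Proof of the claim: group the pairs `(a,b)` by the traces of `a` and of `b` below `j`; in a group there
are `n n'` pairs, `x = xx U j a`, `x' = xx U j b` are constant, exactly `z n n'` of the pairs (`z = x x'`)
have `j ∉ a ∪ b`, and the trace of `a ∪ b` below `j` is constant. Let `V = V_j(a∪b)` (constant on the
group) and `V⁰`, `V¹` the number of the `S' ∈ P` with this trace which avoid / contain `j`, so
`V = V⁰ + V¹` and `V_{j+1}(a ∪ b)` is `V⁰` or `V¹`. We need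
`log V ≥ z log V⁰ + (1-z) log V¹ + binEntropy z`, where `V⁰ ≥ 1` if `z > 0` and `V¹ ≥ 1` if `z < 1`
(a term with weight `0` is dropped). This is concavity of `log` (Gibbs):
`z log(V⁰/z) + (1-z) log(V¹/(1-z)) ≤ log(V⁰ + V¹)`.
Alternative without groups (one Jensen for every `j`): for each pair `(a,b)` let `w(a,b)` be `z` if
`j ∉ a ∪ b` and `1 - z` otherwise; then `∑_{a,b} log (V_{j+1}/(V_j w)) ≤ |U|² log ( |U|^{-2} ∑_{a,b}
V_{j+1}/(V_j w) ) ≤ 0` as the sum of `V_{j+1}/(V_j w)` over a group is at most `n n'`, and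
`∑_{a,b} - log w(a,b) = ∑_{a,b} binEntropy (xx U j a * xx U j b)`.
-/

open Finset

namespace EMS

private lemma mem_pre {N : ℕ} {U : Finset (Finset (Fin N))} {j : Fin N} {a a' : Finset (Fin N)} :
    a' ∈ pre U j a ↔ a' ∈ U ∧ ∀ i < j, (i ∈ a' ↔ i ∈ a) := by
  simp [pre]

private lemma self_mem {N : ℕ} {U : Finset (Finset (Fin N))} {j : Fin N} {a : Finset (Fin N)}
    (ha : a ∈ U) : a ∈ pre U j a := mem_pre.2 ⟨ha, fun _ _ => Iff.rfl⟩

private lemma pre_congr {N : ℕ} {U : Finset (Finset (Fin N))} {j : Fin N} {a a' : Finset (Fin N)}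
    (h : a' ∈ pre U j a) : pre U j a' = pre U j a := by
  have h2 := (mem_pre.1 h).2
  ext c
  rw [mem_pre, mem_pre]
  constructor
  · rintro ⟨h3, h4⟩
    exact ⟨h3, fun i hi => (h4 i hi).trans (h2 i hi)⟩
  · rintro ⟨h3, h4⟩
    exact ⟨h3, fun i hi => (h4 i hi).trans (h2 i hi).symm⟩

private lemma xx_congr {N : ℕ} {U : Finset (Finset (Fin N))} {j : Fin N} {a a' : Finset (Fin N)}
    (h : a' ∈ pre U j a) : xx U j a' = xx U j a := by
  unfold xx
  rw [pre_congr h]

private lemma avg1 {N : ℕ} (U : Finset (Finset (Fin N))) (j : Fin N) (g : Finset (Fin N) → ℝ) :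
    ∑ a ∈ U, g a = ∑ a ∈ U, (∑ a' ∈ pre U j a, g a') / ((pre U j a).card : ℝ) := by
  have h1 : ∀ a ∈ U, (∑ a' ∈ pre U j a, g a') / ((pre U j a).card : ℝ) =
      ∑ a' ∈ U, if a ∈ pre U j a' then g a' / ((pre U j a').card : ℝ) else 0 := by
    intro a ha
    rw [sum_div, ← sum_filter]
    have e : pre U j a = U.filter (fun a' => a ∈ pre U j a') := by
      ext c
      rw [mem_filter, mem_pre, mem_pre]
      constructor
      · rintro ⟨h3, h4⟩
        exact ⟨h3, ha, fun i hi => (h4 i hi).symm⟩
      · rintro ⟨h3, -, h4⟩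
        exact ⟨h3, fun i hi => (h4 i hi).symm⟩
    rw [← e]
    refine sum_congr rfl fun a' ha' => ?_
    rw [pre_congr ha']
  rw [sum_congr rfl h1, sum_comm]
  refine sum_congr rfl fun a' ha' => ?_
  rw [← sum_filter]
  have e : U.filter (fun a => a ∈ pre U j a') = pre U j a' := by
    ext c
    rw [mem_filter]
    exact ⟨fun h => h.2, fun h => ⟨(mem_pre.1 h).1, h⟩⟩
  rw [e, sum_const, nsmul_eq_mul]
  have hpos : (0 : ℝ) < (pre U j a').card := by
    exact_mod_cast card_pos.2 ⟨a', self_mem ha'⟩
  field_simp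

private lemma avg2 {N : ℕ} (U : Finset (Finset (Fin N))) (j : Fin N)
    (f : Finset (Fin N) → Finset (Fin N) → ℝ) :
    ∑ a ∈ U, ∑ b ∈ U, f a b = ∑ a ∈ U, ∑ b ∈ U,
      (∑ a' ∈ pre U j a, ∑ b' ∈ pre U j b, f a' b') /
        (((pre U j a).card : ℝ) * ((pre U j b).card : ℝ)) := by
  have h1 : ∀ a ∈ U, ∑ b ∈ U, f a b =
      ∑ b ∈ U, (∑ b' ∈ pre U j b, f a b') / ((pre U j b).card : ℝ) := fun a _ => avg1 U j _
  rw [sum_congr rfl h1, avg1 U j]
  refine sum_congr rfl fun a _ => ?_
  rw [sum_comm, sum_div]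
  refine sum_congr rfl fun b _ => ?_
  rw [← sum_div, div_div, mul_comm]

private lemma xx_mul {N : ℕ} (U : Finset (Finset (Fin N))) (j : Fin N) (a : Finset (Fin N)) :
    (((pre U j a).filter fun a' => j ∉ a').card : ℝ) = xx U j a * ((pre U j a).card : ℝ) := by
  unfold xx
  by_cases h : ((pre U j a).card : ℝ) = 0
  · have h0 : (pre U j a).card = 0 := by exact_mod_cast h
    have h1 : ((pre U j a).filter fun a' => j ∉ a').card = 0 :=
      Nat.le_zero.1 (h0 ▸ card_filter_le _ _)
    rw [h, h1]
    simp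
  · rw [div_mul_cancel₀ _ h]

private lemma grp_sum {N : ℕ} (U : Finset (Finset (Fin N))) (j : Fin N) (a b : Finset (Fin N))
    (α β : ℝ) :
    ∑ a' ∈ pre U j a, ∑ b' ∈ pre U j b, (if j ∉ a' ∧ j ∉ b' then α else β) =
      (xx U j a * xx U j b * α + (1 - xx U j a * xx U j b) * β) *
        (((pre U j a).card : ℝ) * ((pre U j b).card : ℝ)) := by
  have h1 : ∀ a' b' : Finset (Fin N), (if j ∉ a' ∧ j ∉ b' then α else β) =
      β + (α - β) * ((if j ∉ a' then 1 else 0) * (if j ∉ b' then 1 else 0)) := by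
    intro a' b'
    by_cases h1 : j ∉ a' <;> by_cases h2 : j ∉ b' <;> simp [h1, h2]
  simp_rw [h1, sum_add_distrib, sum_const, nsmul_eq_mul, ← mul_sum, ← sum_mul]
  rw [← mul_assoc]
  rw [sum_boole, sum_boole, xx_mul, xx_mul]
  ring

private def VV {N : ℕ} (P : Finset (Finset (Fin N))) (k : ℕ) (S : Finset (Fin N)) : ℕ :=
  (P.filter fun S' => ∀ i : Fin N, i.val < k → (i ∈ S' ↔ i ∈ S)).card

private lemma VV_pos {N : ℕ} {P : Finset (Finset (Fin N))} (k : ℕ) {S : Finset (Fin N)}
    (hS : S ∈ P) : 0 < VV P k S := by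
  refine card_pos.2 ⟨S, ?_⟩
  simp [hS]

private lemma VV_congr {N : ℕ} (P : Finset (Finset (Fin N))) (k : ℕ) {S T : Finset (Fin N)}
    (h : ∀ i : Fin N, i.val < k → (i ∈ S ↔ i ∈ T)) : VV P k S = VV P k T := by
  unfold VV
  congr 1
  ext c
  simp only [mem_filter]
  constructor
  · rintro ⟨h1, h2⟩
    exact ⟨h1, fun i hi => (h2 i hi).trans (h i hi)⟩
  · rintro ⟨h1, h2⟩
    exact ⟨h1, fun i hi => (h2 i hi).trans (h i hi).symm⟩

private lemma VV_split {N : ℕ} (P : Finset (Finset (Fin N))) (j : Fin N) (S : Finset (Fin N)) :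
    VV P (j.val + 1) (S \ {j}) + VV P (j.val + 1) (insert j S) = VV P j.val S := by
  unfold VV
  rw [← card_union_of_disjoint]
  · congr 1
    ext c
    simp only [mem_union, mem_filter, mem_sdiff, mem_singleton, mem_insert]
    constructor
    · rintro (⟨h1, h2⟩ | ⟨h1, h2⟩)
      · refine ⟨h1, fun i hi => ?_⟩
        have := h2 i (by omega)
        have hne : i ≠ j := fun h => by subst h; omega
        simpa [hne] using this
      · refine ⟨h1, fun i hi => ?_⟩
        have := h2 i (by omega)
        have hne : i ≠ j := fun h => by subst h; omega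
        simpa [hne] using this
    · rintro ⟨h1, h2⟩
      by_cases hj : j ∈ c
      · right
        refine ⟨h1, fun i hi => ?_⟩
        by_cases hij : i = j
        · subst hij
          simp [hj]
        · have : i.val < j.val := by
            have : i.val ≠ j.val := fun h => hij (Fin.ext h)
            omega
          simpa [hij] using h2 i this
      · left
        refine ⟨h1, fun i hi => ?_⟩
        by_cases hij : i = j
        · subst hij
          simp [hj]
        · have : i.val < j.val := by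
            have : i.val ≠ j.val := fun h => hij (Fin.ext h)
            omega
          simpa [hij] using h2 i this
  · rw [disjoint_left]
    intro c h1 h2
    simp only [mem_filter, mem_sdiff, mem_singleton, mem_insert] at h1 h2
    have := h1.2 j (by omega)
    have := h2.2 j (by omega)
    simp_all

private lemma level {N : ℕ} (U P : Finset (Finset (Fin N)))
    (hP : ∀ a ∈ U, ∀ b ∈ U, a ∪ b ∈ P) (j : Fin N) :
    ∑ a ∈ U, ∑ b ∈ U, Real.binEntropy (xx U j a * xx U j b) ≤
      ∑ a ∈ U, ∑ b ∈ U, (Real.log (VV P j.val (a ∪ b)) - Real.log (VV P (j.val + 1) (a ∪ b))) := by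
  set w : Finset (Fin N) → Finset (Fin N) → ℝ := fun a b =>
    if j ∉ a ∧ j ∉ b then xx U j a * xx U j b else 1 - xx U j a * xx U j b with hw
  have hn : ∀ a ∈ U, (0 : ℝ) < (pre U j a).card := fun a ha => by
    exact_mod_cast card_pos.2 ⟨a, self_mem ha⟩
  have hx0 : ∀ a, 0 ≤ xx U j a := fun a => by unfold xx; positivity
  have hx1 : ∀ a, xx U j a ≤ 1 := fun a => by
    unfold xx
    apply div_le_one_of_le₀ _ (by positivity)
    exact_mod_cast card_filter_le _ _
  have hxpos : ∀ a ∈ U, j ∉ a → 0 < xx U j a := by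
    intro a ha hj
    unfold xx
    apply div_pos _ (hn a ha)
    exact_mod_cast card_pos.2 ⟨a, mem_filter.2 ⟨self_mem ha, hj⟩⟩
  have hxlt : ∀ a ∈ U, j ∈ a → xx U j a < 1 := by
    intro a ha hj
    unfold xx
    rw [div_lt_one (hn a ha)]
    have : ((pre U j a).filter fun a' => j ∉ a') ⊂ pre U j a := by
      rw [ssubset_iff_of_subset (filter_subset _ _)]
      exact ⟨a, self_mem ha, by simp [hj]⟩
    exact_mod_cast card_lt_card this
  have hwpos : ∀ a ∈ U, ∀ b ∈ U, 0 < w a b := by
    intro a ha b hb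
    simp only [hw]
    split_ifs with h
    · exact mul_pos (hxpos a ha h.1) (hxpos b hb h.2)
    · rw [not_and_or, not_not, not_not] at h
      rcases h with h | h
      · have h1 := hxlt a ha h
        have := mul_le_mul_of_nonneg_left (hx1 b) (hx0 a)
        linarith
      · have h1 := hxlt b hb h
        have := mul_le_mul_of_nonneg_right (hx1 a) (hx0 b)
        linarith
  -- the entropy
  have hent : ∑ a ∈ U, ∑ b ∈ U, -Real.log (w a b) =
      ∑ a ∈ U, ∑ b ∈ U, Real.binEntropy (xx U j a * xx U j b) := by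
    rw [avg2 U j]
    refine sum_congr rfl fun a ha => sum_congr rfl fun b hb => ?_
    have h1 : ∑ a' ∈ pre U j a, ∑ b' ∈ pre U j b, -Real.log (w a' b') =
        ∑ a' ∈ pre U j a, ∑ b' ∈ pre U j b, (if j ∉ a' ∧ j ∉ b' then
          -Real.log (xx U j a * xx U j b) else -Real.log (1 - xx U j a * xx U j b)) := by
      refine sum_congr rfl fun a' ha' => sum_congr rfl fun b' hb' => ?_
      simp only [hw]
      rw [xx_congr ha', xx_congr hb']
      split_ifs <;> rfl
    rw [h1, grp_sum, mul_div_cancel_right₀ _ (by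
      have := hn a ha
      have := hn b hb
      positivity), Real.binEntropy]
    rw [Real.log_inv, Real.log_inv]
  -- the main term
  have hmain : ∑ a ∈ U, ∑ b ∈ U, ((VV P (j.val + 1) (a ∪ b) : ℝ) / (VV P j.val (a ∪ b) * w a b)) ≤
      ∑ a ∈ U, ∑ b ∈ U, (1 : ℝ) := by
    rw [avg2 U j]
    refine sum_le_sum fun a ha => sum_le_sum fun b hb => ?_
    set V : ℝ := (VV P j.val (a ∪ b) : ℝ) with hV
    set V0 : ℝ := (VV P (j.val + 1) ((a ∪ b) \ {j}) : ℝ) with hV0
    set V1 : ℝ := (VV P (j.val + 1) (insert j (a ∪ b)) : ℝ) with hV1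
    have hVpos : 0 < V := by
      rw [hV]
      exact_mod_cast VV_pos _ (hP a ha b hb)
    have hVs : V0 + V1 = V := by
      rw [hV, hV0, hV1]
      exact_mod_cast VV_split P j (a ∪ b)
    have h1 : ∑ a' ∈ pre U j a, ∑ b' ∈ pre U j b,
        ((VV P (j.val + 1) (a' ∪ b') : ℝ) / (VV P j.val (a' ∪ b') * w a' b')) =
        ∑ a' ∈ pre U j a, ∑ b' ∈ pre U j b, (if j ∉ a' ∧ j ∉ b' then
          V0 / (V * (xx U j a * xx U j b)) else V1 / (V * (1 - xx U j a * xx U j b))) := by
      refine sum_congr rfl fun a' ha' => sum_congr rfl fun b' hb' => ?_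
      simp only [hw]
      rw [xx_congr ha', xx_congr hb']
      have ha2 := (mem_pre.1 ha').2
      have hb2 := (mem_pre.1 hb').2
      have e : VV P j.val (a' ∪ b') = VV P j.val (a ∪ b) := by
        apply VV_congr
        intro i hi
        rw [mem_union, mem_union, ha2 i hi, hb2 i hi]
      rw [e, ← hV]
      split_ifs with hj
      · have e2 : VV P (j.val + 1) (a' ∪ b') = VV P (j.val + 1) ((a ∪ b) \ {j}) := by
          apply VV_congr
          intro i hi
          by_cases hij : i = j
          · subst hij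
            simp [hj.1, hj.2]
          · have : i < j := by
              have : i.val ≠ j.val := fun h => hij (Fin.ext h)
              exact Fin.lt_def.2 (by omega)
            rw [mem_union, ha2 i this, hb2 i this]
            simp [hij]
        rw [e2]
      · have e2 : VV P (j.val + 1) (a' ∪ b') = VV P (j.val + 1) (insert j (a ∪ b)) := by
          apply VV_congr
          intro i hi
          by_cases hij : i = j
          · subst hij
            rw [not_and_or, not_not, not_not] at hj
            simp [hj]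
          · have : i < j := by
              have : i.val ≠ j.val := fun h => hij (Fin.ext h)
              exact Fin.lt_def.2 (by omega)
            rw [mem_union, ha2 i this, hb2 i this]
            simp [hij]
        rw [e2]
    rw [h1, grp_sum, mul_div_cancel_right₀ _ (by
      have := hn a ha
      have := hn b hb
      positivity)]
    set z := xx U j a * xx U j b with hz
    have hz0 : 0 ≤ z := mul_nonneg (hx0 a) (hx0 b)
    have hz1 : z ≤ 1 := by
      have := mul_le_mul (hx1 a) (hx1 b) (hx0 b) zero_le_one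
      linarith
    have hV0n : 0 ≤ V0 := by rw [hV0]; positivity
    have hV1n : 0 ≤ V1 := by rw [hV1]; positivity
    have t1 : z * (V0 / (V * z)) ≤ V0 / V := by
      rcases hz0.eq_or_lt with h | h
      · rw [← h]
        simp only [mul_zero, div_zero]
        positivity
      · apply le_of_eq
        field_simp
    have t2 : (1 - z) * (V1 / (V * (1 - z))) ≤ V1 / V := by
      rcases hz1.eq_or_lt with h | h
      · rw [h]
        simp only [sub_self, mul_zero, div_zero]
        positivity
      · have : 0 < 1 - z := by linarith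
        apply le_of_eq
        field_simp
    calc z * (V0 / (V * z)) + (1 - z) * (V1 / (V * (1 - z))) ≤ V0 / V + V1 / V := add_le_add t1 t2
      _ = 1 := by rw [← add_div, hVs, div_self hVpos.ne']
  -- conclusion
  rw [← hent]
  have hpt : ∀ a ∈ U, ∀ b ∈ U, -Real.log (w a b) +
      (1 - (VV P (j.val + 1) (a ∪ b) : ℝ) / (VV P j.val (a ∪ b) * w a b)) ≤
      Real.log (VV P j.val (a ∪ b)) - Real.log (VV P (j.val + 1) (a ∪ b)) := by
    intro a ha b hb
    have hS := hP a ha b hb
    have p1 : (0 : ℝ) < VV P j.val (a ∪ b) := by exact_mod_cast VV_pos _ hS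
    have p2 : (0 : ℝ) < VV P (j.val + 1) (a ∪ b) := by exact_mod_cast VV_pos _ hS
    have p3 := hwpos a ha b hb
    have h := Real.log_le_sub_one_of_pos (div_pos p2 (mul_pos p1 p3))
    rw [Real.log_div p2.ne' (mul_pos p1 p3).ne', Real.log_mul p1.ne' p3.ne'] at h
    linarith
  have hsum := sum_le_sum fun a (ha : a ∈ U) => sum_le_sum fun b (hb : b ∈ U) => hpt a ha b hb
  simp only [sum_add_distrib, sum_sub_distrib] at hsum hmain ⊢
  linarith

theorem telescope {N : ℕ} (U P : Finset (Finset (Fin N))) (hU : U.Nonempty)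
    (hP : ∀ a ∈ U, ∀ b ∈ U, a ∪ b ∈ P) :
    ∑ j : Fin N, (∑ a ∈ U, ∑ b ∈ U, Real.binEntropy (xx U j a * xx U j b)) / (U.card : ℝ) ^ 2 ≤
      Real.log P.card := by
  have hUc : (0 : ℝ) < U.card := by exact_mod_cast card_pos.2 hU
  rw [← sum_div, div_le_iff₀ (by positivity)]
  have h1 := sum_le_sum fun j (_ : j ∈ (univ : Finset (Fin N))) => level U P hP j
  refine h1.trans (le_of_eq ?_)
  rw [sum_comm]
  have h2 : ∀ a ∈ U, ∑ j : Fin N, ∑ b ∈ U,
      (Real.log (VV P j.val (a ∪ b)) - Real.log (VV P (j.val + 1) (a ∪ b))) =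
      U.card * Real.log P.card := by
    intro a ha
    rw [sum_comm]
    have h3 : ∀ b ∈ U, ∑ j : Fin N,
        (Real.log (VV P j.val (a ∪ b)) - Real.log (VV P (j.val + 1) (a ∪ b))) =
        Real.log P.card := by
      intro b hb
      have h4 := Fin.sum_univ_eq_sum_range (fun k => Real.log (VV P k (a ∪ b)) -
        Real.log (VV P (k + 1) (a ∪ b))) N
      rw [h4]
      rw [sum_range_sub' (fun k => Real.log (VV P k (a ∪ b)))]
      have e0 : VV P 0 (a ∪ b) = P.card := by
        unfold VV
        simp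
      have e1 : VV P N (a ∪ b) = 1 := by
        unfold VV
        rw [card_eq_one]
        refine ⟨a ∪ b, ?_⟩
        ext c
        simp only [mem_filter, mem_singleton]
        constructor
        · rintro ⟨-, h⟩
          ext i
          exact h i i.isLt
        · rintro rfl
          exact ⟨hP a ha b hb, fun _ _ => Iff.rfl⟩
      rw [e0, e1]
      simp
    rw [sum_congr rfl h3, sum_const, nsmul_eq_mul]
  rw [sum_congr rfl h2, sum_const, nsmul_eq_mul]
  ring

end EMS
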