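import Pool.Agent.Work.MP_2b8540_co.S.HIneq
import Pool.Agent.Work.MP_2b8540_co.S.Telescope

/-!
# Module S/ClassU (M): union-closed families

Imports `EMS.binEntropy_mul`, `EMS.chain_rule`, `EMS.sum_xx`, `EMS.telescope`.

## Proof
* `gilmer`: with `λ = 2^(3/5)`, for every `j`, averaging over `a, b ∈ U` independently,
  `E binEntropy(x_a x_b) ≥ (λ/2) E (x_a h(x_b) + x_b h(x_a)) = λ E[x_a] E[h(x_a)] = λ (av U {j}) H_j`
  with `H_j = (∑_a binEntropy (xx U j a))/|U| ∈ [0, log 2]` and `∑_j H_j = log |U|`. As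
  `av U {j} ≥ q - |av U {j} - q|`: `log |P| ≥ λ ∑_j (q - |av U {j} - q|) H_j ≥ λ q log |U| - λ log 2 ∑_j |av U {j} - q|`.
* `classU`: take `K = 2000`, `T i = {i}` (so `Sys K T`, and `dev U T = ∑ i, |av U {i} - q|`). Let `P` be
  union-closed with `|P| ≤ 2^(1.07 n)`, `U ⊆ P`, `|U| ≥ 2^((1-1/K) n)`. If `dev U T < n/K` (then `n ≥ 1`;
  for `n = 0` the claim `0 ≤ dev U T` is trivial) then
  `log |P| ≥ λ (q (1 - 1/K) n log 2 - log 2 · n/K) = (2^(1/10) (1 - 1/K) - 2^(3/5)/K) n log 2` since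
  `λ q = 2^(3/5) 2^(-1/2) = 2^(1/10)`. Now `2^(1/10) ≥ 1.0717` (`1.0717^10 ≤ 2`: 1.0717^10 = 1.99867..),
  `2^(3/5) ≤ 1.52`, so the bracket is `≥ 1.0717 · 0.9995 - 0.00076 ≥ 1.0704 > 1.07`: contradiction with
  `log |P| ≤ 1.07 n log 2`, `n ≥ 1`.
-/

open Finset

namespace EMS

private theorem classU_xx {N : ℕ} (U : Finset (Finset (Fin N))) (j : Fin N) (a : Finset (Fin N)) :
    0 ≤ xx U j a ∧ xx U j a ≤ 1 := by
  unfold xx
  refine ⟨by positivity, div_le_one_of_le₀ ?_ (Nat.cast_nonneg _)⟩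
  exact_mod_cast Finset.card_le_card (Finset.filter_subset _ _)

theorem gilmer {N : ℕ} (U P : Finset (Finset (Fin N))) (hU : U.Nonempty)
    (hP : ∀ a ∈ U, ∀ b ∈ U, a ∪ b ∈ P) :
    (2 : ℝ) ^ ((3 : ℝ) / 5) *
        (q * Real.log U.card - Real.log 2 * ∑ i : Fin N, |av U {i} - q|) ≤
      Real.log P.card := by
  have hc : (0 : ℝ) < U.card := by exact_mod_cast hU.card_pos
  refine le_trans ?_ (telescope U P hU hP)
  rw [← chain_rule U hU, Finset.mul_sum, Finset.mul_sum, ← Finset.sum_sub_distrib,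
    Finset.mul_sum]
  refine Finset.sum_le_sum fun j _ => ?_
  rw [← sum_xx U hU j]
  set lam : ℝ := (2 : ℝ) ^ ((3 : ℝ) / 5) with hlam
  have hlam0 : 0 < lam := by positivity
  have hX0 : 0 ≤ (∑ a ∈ U, xx U j a) / (U.card : ℝ) :=
    div_nonneg (Finset.sum_nonneg fun a _ => (classU_xx U j a).1) hc.le
  have hH0 : 0 ≤ (∑ a ∈ U, Real.binEntropy (xx U j a)) / (U.card : ℝ) :=
    div_nonneg (Finset.sum_nonneg fun a _ =>
      Real.binEntropy_nonneg (classU_xx U j a).1 (classU_xx U j a).2) hc.le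
  have hH1 : (∑ a ∈ U, Real.binEntropy (xx U j a)) / (U.card : ℝ) ≤ Real.log 2 := by
    rw [div_le_iff₀ hc]
    calc _ ≤ ∑ _a ∈ U, Real.log 2 := Finset.sum_le_sum fun a _ => Real.binEntropy_le_log_two
      _ = _ := by rw [Finset.sum_const, nsmul_eq_mul, mul_comm]
  have h1 : lam * (((∑ a ∈ U, xx U j a) / (U.card : ℝ)) *
      ((∑ a ∈ U, Real.binEntropy (xx U j a)) / (U.card : ℝ))) ≤
      (∑ a ∈ U, ∑ b ∈ U, Real.binEntropy (xx U j a * xx U j b)) / (U.card : ℝ) ^ 2 := by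
    have h2 : lam * ((∑ a ∈ U, xx U j a) * (∑ a ∈ U, Real.binEntropy (xx U j a))) ≤
        ∑ a ∈ U, ∑ b ∈ U, Real.binEntropy (xx U j a * xx U j b) := by
      have h3 : ∑ a ∈ U, ∑ b ∈ U, lam / 2 * (xx U j a * Real.binEntropy (xx U j b) +
          xx U j b * Real.binEntropy (xx U j a)) =
          lam * ((∑ a ∈ U, xx U j a) * (∑ a ∈ U, Real.binEntropy (xx U j a))) := by
        simp only [← Finset.mul_sum, Finset.sum_add_distrib, ← Finset.sum_mul]
        ring
      rw [← h3]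
      refine Finset.sum_le_sum fun a _ => Finset.sum_le_sum fun b _ => ?_
      exact binEntropy_mul (classU_xx U j a).1 (classU_xx U j a).2 (classU_xx U j b).1
        (classU_xx U j b).2
    rw [div_mul_div_comm, ← sq, mul_div_assoc']
    exact div_le_div_of_nonneg_right h2 (sq_nonneg _)
  refine le_trans ?_ h1
  refine mul_le_mul_of_nonneg_left ?_ hlam0.le
  set X := (∑ a ∈ U, xx U j a) / (U.card : ℝ)
  set H := (∑ a ∈ U, Real.binEntropy (xx U j a)) / (U.card : ℝ)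
  have h4 : q - |X - q| ≤ X := by linarith [neg_abs_le (X - q)]
  have h5 : H * |X - q| ≤ Real.log 2 * |X - q| := mul_le_mul_of_nonneg_right hH1 (abs_nonneg _)
  have h6 := mul_le_mul_of_nonneg_right h4 hH0
  linarith

theorem classU : ∃ K : ℕ, 1 ≤ K ∧ ∀ (n : ℕ) (P : Finset (Finset (Fin (2 * n)))),
    UnionClosed n P → NonRandom K n P := by
  refine ⟨2000, by norm_num, fun n P hPc U hUP hU => ?_⟩
  refine ⟨fun i => {i}, ⟨fun i j hij => ?_, fun i => by simp⟩, ?_⟩
  · rw [Finset.disjoint_singleton]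
    exact hij
  by_contra hcon
  rw [not_le] at hcon
  have hdev : dev U (fun i : Fin (2 * n) => ({i} : Finset (Fin (2 * n)))) =
      ∑ i : Fin (2 * n), |av U {i} - q| := by
    unfold dev
    simp only [Finset.card_singleton, pow_one]
  have hd0 : 0 ≤ dev U (fun i : Fin (2 * n) => ({i} : Finset (Fin (2 * n)))) := by
    rw [hdev]
    exact Finset.sum_nonneg fun _ _ => abs_nonneg _
  have hn : (0 : ℝ) < n := by
    have h1 := hd0.trans_lt hcon
    by_contra h
    have h2 : (n : ℝ) = 0 := le_antisymm (not_lt.1 h) (Nat.cast_nonneg _)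
    rw [h2] at h1
    simp at h1
  have hUc : (0 : ℝ) < U.card := lt_of_lt_of_le (by positivity) hU
  have hUn : U.Nonempty := Finset.card_pos.1 (by exact_mod_cast hUc)
  have hg := gilmer U P hUn fun a ha b hb => hPc.1 a (hUP ha) b (hUP hb)
  rw [← hdev] at hg
  have hPpos : (0 : ℝ) < P.card := by
    exact_mod_cast (Finset.card_pos.2 (hUn.mono hUP))
  have hl2 : 0 < Real.log 2 := Real.log_pos (by norm_num)
  have h1 : (1 - 1 / ((2000 : ℕ) : ℝ)) * n * Real.log 2 ≤ Real.log U.card := by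
    rw [← Real.log_rpow (by norm_num)]
    exact Real.log_le_log (by positivity) hU
  have h2 : Real.log P.card ≤ (1.07 : ℝ) * n * Real.log 2 := by
    rw [← Real.log_rpow (by norm_num)]
    exact Real.log_le_log hPpos hPc.2
  set lam : ℝ := (2 : ℝ) ^ ((3 : ℝ) / 5) with hlam
  have hlam0 : 0 < lam := by positivity
  have hl5 : lam ^ 5 = 8 := by
    rw [hlam, ← Real.rpow_natCast, ← Real.rpow_mul (by norm_num)]
    norm_num
  have hlam1 : lam ≤ 1.52 := by
    by_contra h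
    have h3 : (1.52 : ℝ) ^ 5 < lam ^ 5 := pow_lt_pow_left₀ (not_le.1 h) (by norm_num) (by norm_num)
    rw [hl5] at h3
    norm_num at h3
  have hlq : 1.0717 ≤ lam * q := by
    by_contra h
    have h3 : (lam * q) ^ 10 < (1.0717 : ℝ) ^ 10 :=
      pow_lt_pow_left₀ (not_le.1 h) (mul_nonneg hlam0.le q_pos.le) (by norm_num)
    have h4 : (lam * q) ^ 10 = 2 := by
      have e1 : (lam * q) ^ 10 = (lam ^ 5) ^ 2 * (q ^ 2) ^ 5 := by ring
      rw [e1, hl5, q_sq']
      norm_num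
    rw [h4] at h3
    norm_num at h3
  have h3 : lam * (q * ((1 - 1 / ((2000 : ℕ) : ℝ)) * n * Real.log 2) -
      Real.log 2 * (n / ((2000 : ℕ) : ℝ))) ≤ (1.07 : ℝ) * n * Real.log 2 := by
    refine le_trans ?_ (hg.trans h2)
    refine mul_le_mul_of_nonneg_left ?_ hlam0.le
    have h4 := mul_le_mul_of_nonneg_left h1 q_pos.le
    have h5 := mul_le_mul_of_nonneg_left hcon.le hl2.le
    linarith
  have hnl : 0 < (n : ℝ) * Real.log 2 := mul_pos hn hl2
  have h6 : (lam * q * (1 - 1 / 2000) - lam / 2000 - 1.07) * (n * Real.log 2) ≤ 0 := by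
    push_cast at h3
    linarith
  have h7 : 0 < lam * q * (1 - 1 / 2000) - lam / 2000 - 1.07 := by
    linarith
  exact absurd (mul_pos h7 hnl) (not_lt.2 h6)

end EMS
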