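import Pool.Agent.Work.MP_2b8540_co.S.Defs

/-!
# Module S/Count (M): Goodman's inequality and the count of the edges

## Proof
* `goodman`: let `m' = |F|`, `e = ep H F F` (ordered pairs), `d(a) = #{b ∈ F | Adj a b}`, so
  `∑ a ∈ F, d a = e`. For an edge `(a,b)` the number of common neighbours in `F` is at least
  `d a + d b - m'`. Sum over all ordered edges: `tri H F ≥ 2 ∑ d² - m' e ≥ 2 e²/m' - m' e
  = e (2e - m'²)/m'` (Cauchy-Schwarz; `∑_{(a,b)} d a = ∑_a d(a)²`). If `e > m'²/2 + 2 ξ m²` then `m' > 0`,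
  `tri ≥ e(2e - m'²)/m' > (2 ξ m²)(4 ξ m²)/m' ≥ 8 ξ² m³`, since `0 < m' ≤ m`; contradiction.
* `count`: with `x = |X|`, `m = |F|`: `ep H F F = ep H X X + ep H X (F\X) + ep H (F\X) X + ep H (F\X) (F\X)`,
  `ep H X X ≤ x²`, the two mixed terms are equal (symmetry) and at most `η m²`, and `goodman` for
  `F \ X` (with `m`) bounds the last one by `(m-x)²/2 + 2 ξ m²`. Halve.
  Second: an ordered pair of `F` which touches `G` lies in `(F\X)²`, or is mixed, or lies in `X²` and has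
  one of its entries in `X ∩ G` (at most `2 |X ∩ G| m ≤ 2 η m²`). Total
  `≤ (m-x)²/2 + 2 ξ m² + 4 η m²`. Halve.
  Third: `|F \ G| ≥ |X \ G| = x - |X ∩ G|`.
-/

open Finset

namespace EMS

open Classical in
/-- the indicator of the edges -/
private noncomputable def ad {α : Type*} (H : SimpleGraph α) (a b : α) : ℝ :=
  if H.Adj a b then 1 else 0

open Classical in
/-- the indicator of the pairs which touch `G` -/
private noncomputable def tg {α : Type*} (G : Finset α) (a b : α) : ℝ :=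
  if a ∈ G ∨ b ∈ G then 1 else 0

private lemma ad_nonneg {α : Type*} (H : SimpleGraph α) (a b : α) : 0 ≤ ad H a b := by
  unfold ad
  split_ifs <;> norm_num

private lemma ad_le {α : Type*} (H : SimpleGraph α) (a b : α) : ad H a b ≤ 1 := by
  unfold ad
  split_ifs <;> norm_num

private lemma ad_symm {α : Type*} (H : SimpleGraph α) (a b : α) : ad H a b = ad H b a := by
  unfold ad
  rw [H.adj_comm]

private lemma ep_eq {α : Type*} (H : SimpleGraph α) (A B : Finset α) :
    (ep H A B : ℝ) = ∑ a ∈ A, ∑ b ∈ B, ad H a b := by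
  classical
  unfold ep ad
  rw [Finset.card_filter, Finset.sum_product]
  push_cast
  refine Finset.sum_congr rfl fun a _ => Finset.sum_congr rfl fun b _ => ?_
  by_cases h : H.Adj a b
  · simp only [h, if_true]
  · simp only [h, if_false]

private lemma tri_eq {α : Type*} (H : SimpleGraph α) (F : Finset α) :
    (tri H F : ℝ) = ∑ a ∈ F, ∑ b ∈ F, ∑ c ∈ F, ad H a b * (ad H b c * ad H a c) := by
  classical
  unfold tri ad
  rw [Finset.card_filter, Finset.sum_product]
  push_cast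
  refine Finset.sum_congr rfl fun a _ => ?_
  rw [Finset.sum_product]
  refine Finset.sum_congr rfl fun b _ => Finset.sum_congr rfl fun c _ => ?_
  by_cases h1 : H.Adj a b
  · by_cases h2 : H.Adj b c
    · by_cases h3 : H.Adj a c
      · simp only [h1, h2, h3, and_self, if_true, mul_one]
      · simp only [h1, h2, h3, and_false, if_true, if_false, mul_zero]
    · simp only [h1, h2, false_and, and_false, if_true, if_false, mul_zero, zero_mul]
  · simp only [h1, false_and, if_false, zero_mul]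

private lemma et_eq {α : Type*} (H : SimpleGraph α) (F G : Finset α) :
    (et H F G : ℝ) = ∑ a ∈ F, ∑ b ∈ F, ad H a b * tg G a b := by
  classical
  unfold et ad tg
  rw [Finset.card_filter, Finset.sum_product]
  push_cast
  refine Finset.sum_congr rfl fun a _ => Finset.sum_congr rfl fun b _ => ?_
  by_cases h1 : H.Adj a b
  · by_cases h2 : a ∈ G ∨ b ∈ G
    · simp only [h1, h2, and_self, if_true, mul_one]
    · simp only [h1, h2, and_false, if_true, if_false, mul_zero]
  · simp only [h1, false_and, if_false, zero_mul]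

private lemma ep_comm {α : Type*} (H : SimpleGraph α) (A B : Finset α) :
    (ep H A B : ℝ) = (ep H B A : ℝ) := by
  rw [ep_eq, ep_eq, Finset.sum_comm]
  exact Finset.sum_congr rfl fun a _ => Finset.sum_congr rfl fun b _ => ad_symm H _ _

theorem goodman {α : Type*} [DecidableEq α] (H : SimpleGraph α) (F : Finset α) {ξ m : ℝ}
    (hξ : 0 < ξ) (hm : (F.card : ℝ) ≤ m) (htri : (tri H F : ℝ) ≤ 8 * ξ ^ 2 * m ^ 3) :
    (ep H F F : ℝ) ≤ (F.card : ℝ) ^ 2 / 2 + 2 * ξ * m ^ 2 := by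
  obtain ⟨d, hd⟩ : ∃ d : α → ℝ, d = fun a => ∑ b ∈ F, ad H a b := ⟨_, rfl⟩
  have hda : ∀ a, ∑ b ∈ F, ad H a b = d a := fun a => by rw [hd]
  have hdb : ∀ b, ∑ a ∈ F, ad H a b = d b := fun b => by
    rw [hd]
    exact Finset.sum_congr rfl fun a _ => ad_symm H a b
  have he : (ep H F F : ℝ) = ∑ a ∈ F, d a := by
    rw [ep_eq, hd]
  have he0 : 0 ≤ (ep H F F : ℝ) := Nat.cast_nonneg _
  have ht0 : 0 ≤ (tri H F : ℝ) := Nat.cast_nonneg _
  have hc0 : 0 ≤ (F.card : ℝ) := Nat.cast_nonneg _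
  have h1 : 2 * ∑ a ∈ F, d a ^ 2 - F.card * (ep H F F : ℝ) ≤ (tri H F : ℝ) := by
    have h2 : ∑ a ∈ F, ∑ b ∈ F, ∑ c ∈ F, ad H a b * (ad H b c + ad H a c - 1) ≤
        (tri H F : ℝ) := by
      rw [tri_eq]
      refine Finset.sum_le_sum fun a _ => Finset.sum_le_sum fun b _ =>
        Finset.sum_le_sum fun c _ => ?_
      refine mul_le_mul_of_nonneg_left ?_ (ad_nonneg H a b)
      nlinarith [mul_nonneg (sub_nonneg.2 (ad_le H b c)) (sub_nonneg.2 (ad_le H a c))]
    have h3 : ∀ a b, ∑ c ∈ F, ad H a b * (ad H b c + ad H a c - 1) =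
        ad H a b * d b + ad H a b * d a - F.card * ad H a b := by
      intro a b
      rw [← Finset.mul_sum, Finset.sum_sub_distrib, Finset.sum_add_distrib, hda, hda,
        Finset.sum_const, nsmul_eq_mul]
      ring
    have h4 : ∑ a ∈ F, ∑ b ∈ F, ∑ c ∈ F, ad H a b * (ad H b c + ad H a c - 1) =
        2 * ∑ a ∈ F, d a ^ 2 - F.card * (ep H F F : ℝ) := by
      simp only [h3, Finset.sum_sub_distrib, Finset.sum_add_distrib]
      have e1 : ∑ a ∈ F, ∑ b ∈ F, ad H a b * d b = ∑ a ∈ F, d a ^ 2 := by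
        rw [Finset.sum_comm]
        refine Finset.sum_congr rfl fun b _ => ?_
        rw [← Finset.sum_mul, hdb]
        ring
      have e2 : ∑ a ∈ F, ∑ b ∈ F, ad H a b * d a = ∑ a ∈ F, d a ^ 2 := by
        refine Finset.sum_congr rfl fun b _ => ?_
        rw [← Finset.sum_mul, hda]
        ring
      have e3 : ∑ a ∈ F, ∑ b ∈ F, (F.card : ℝ) * ad H a b = F.card * (ep H F F : ℝ) := by
        rw [ep_eq, Finset.mul_sum]
        exact Finset.sum_congr rfl fun a _ => by rw [Finset.mul_sum]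
      rw [e1, e2, e3]
      ring
    rw [h4] at h2
    exact h2
  have h2 : (ep H F F : ℝ) ^ 2 ≤ F.card * ∑ a ∈ F, d a ^ 2 := by
    rw [he]
    exact sq_sum_le_card_mul_sum_sq
  have h3 : (ep H F F : ℝ) * (2 * (ep H F F : ℝ) - (F.card : ℝ) ^ 2) ≤
      F.card * (tri H F : ℝ) := by
    have := mul_le_mul_of_nonneg_left h1 hc0
    nlinarith
  by_contra hcon
  push Not at hcon
  have hm0 : 0 ≤ m := hc0.trans hm
  have hξm : 0 ≤ 2 * ξ * m ^ 2 := by positivity
  have hF0 : 0 < (F.card : ℝ) := by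
    rcases hc0.lt_or_eq with h4 | h4
    · exact h4
    · exfalso
      have h5 : F.card = 0 := by exact_mod_cast h4.symm
      have h6 : (ep H F F : ℝ) = 0 := by
        rw [ep_eq, Finset.card_eq_zero.1 h5, Finset.sum_empty]
      rw [h6, ← h4] at hcon
      nlinarith
  have hm1 : 0 < m := hF0.trans_le hm
  have hξm' : 0 < 2 * ξ * m ^ 2 := by positivity
  have h4 : (2 * ξ * m ^ 2) * (4 * ξ * m ^ 2) <
      (ep H F F : ℝ) * (2 * (ep H F F : ℝ) - (F.card : ℝ) ^ 2) := by
    have e1 : 2 * ξ * m ^ 2 < (ep H F F : ℝ) := by nlinarith [sq_nonneg (F.card : ℝ)]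
    have e2 : 4 * ξ * m ^ 2 < 2 * (ep H F F : ℝ) - (F.card : ℝ) ^ 2 := by linarith
    exact mul_lt_mul'' e1 e2 hξm'.le (by positivity)
  have h5 : F.card * (tri H F : ℝ) ≤ m * (8 * ξ ^ 2 * m ^ 3) :=
    mul_le_mul hm htri ht0 hm0
  nlinarith

theorem count {α : Type*} [DecidableEq α] (H : SimpleGraph α) (F G X : Finset α) (hGF : G ⊆ F)
    (hXF : X ⊆ F) {η ξ : ℝ} (hη : 0 ≤ η) (hξ : 0 < ξ)
    (h1 : ((X ∩ G).card : ℝ) ≤ η * F.card) (h2 : (ep H X (F \ X) : ℝ) ≤ η * (F.card : ℝ) ^ 2)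
    (h3 : (tri H (F \ X) : ℝ) ≤ 8 * ξ ^ 2 * (F.card : ℝ) ^ 3) :
    (ep H F F : ℝ) / 2 ≤ (X.card : ℝ) ^ 2 / 2 + ((F.card : ℝ) - X.card) ^ 2 / 4
        + (η + ξ) * (F.card : ℝ) ^ 2 ∧
      (et H F G : ℝ) / 2 ≤ ((F.card : ℝ) - X.card) ^ 2 / 4 + (2 * η + ξ) * (F.card : ℝ) ^ 2 ∧
      (X.card : ℝ) - η * F.card ≤ ((F \ G).card : ℝ) := by
  obtain ⟨x, hx⟩ : ∃ x : ℝ, x = (X.card : ℝ) := ⟨_, rfl⟩
  obtain ⟨m, hm⟩ : ∃ m : ℝ, m = (F.card : ℝ) := ⟨_, rfl⟩
  have hm0 : 0 ≤ m := by rw [hm]; exact Nat.cast_nonneg _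
  have hx0 : 0 ≤ x := by rw [hx]; exact Nat.cast_nonneg _
  have hxm : x ≤ m := by
    rw [hx, hm]
    exact_mod_cast Finset.card_le_card hXF
  have hFX : ((F \ X).card : ℝ) = m - x := by
    rw [hx, hm, eq_sub_iff_add_eq]
    exact_mod_cast Finset.card_sdiff_add_card_eq_card hXF
  have hg := goodman H (F \ X) hξ (m := m) (by rw [hFX]; linarith) (by rw [hm]; exact h3)
  rw [hFX] at hg
  rw [← hm] at h1 h2
  have hsplit : ∀ f : α → α → ℝ, ∑ a ∈ F, ∑ b ∈ F, f a b =
      ∑ a ∈ F \ X, ∑ b ∈ F \ X, f a b + ∑ a ∈ F \ X, ∑ b ∈ X, f a b +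
        (∑ a ∈ X, ∑ b ∈ F \ X, f a b + ∑ a ∈ X, ∑ b ∈ X, f a b) := by
    intro f
    rw [← Finset.sum_sdiff hXF, ← Finset.sum_add_distrib, ← Finset.sum_add_distrib]
    congr 1
    · exact Finset.sum_congr rfl fun a _ => (Finset.sum_sdiff hXF).symm
    · exact Finset.sum_congr rfl fun a _ => (Finset.sum_sdiff hXF).symm
  have hsym := ep_comm H (F \ X) X
  refine ⟨?_, ?_, ?_⟩
  · have e1 : (ep H X X : ℝ) ≤ x ^ 2 := by
      rw [ep_eq]
      calc ∑ a ∈ X, ∑ b ∈ X, ad H a b ≤ ∑ a ∈ X, ∑ b ∈ X, (1 : ℝ) :=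
            Finset.sum_le_sum fun a _ => Finset.sum_le_sum fun b _ => ad_le H a b
        _ = x ^ 2 := by
            rw [Finset.sum_const, Finset.sum_const, nsmul_eq_mul, nsmul_eq_mul, hx]
            ring
    have e2 : (ep H F F : ℝ) = (ep H (F \ X) (F \ X) : ℝ) + (ep H (F \ X) X : ℝ) +
        ((ep H X (F \ X) : ℝ) + (ep H X X : ℝ)) := by
      rw [ep_eq, ep_eq, ep_eq, ep_eq, ep_eq]
      exact hsplit _
    rw [e2, ← hx, ← hm]
    linarith
  · have e1 : ∑ a ∈ X, ∑ b ∈ X, ad H a b * tg G a b ≤ 2 * (η * m * m) := by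
      have e3 : ∀ a b, ad H a b * tg G a b ≤ (if a ∈ G then (1 : ℝ) else 0) +
          (if b ∈ G then (1 : ℝ) else 0) := by
        intro a b
        have e4 : ad H a b * tg G a b ≤ tg G a b := by
          have e5 : 0 ≤ tg G a b := by
            unfold tg
            split_ifs <;> norm_num
          nlinarith [ad_le H a b]
        refine e4.trans ?_
        unfold tg
        by_cases h4 : a ∈ G
        · by_cases h5 : b ∈ G
          · rw [if_pos (Or.inl h4), if_pos h4, if_pos h5]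
            norm_num
          · rw [if_pos (Or.inl h4), if_pos h4, if_neg h5]
            norm_num
        · by_cases h5 : b ∈ G
          · rw [if_pos (Or.inr h5), if_neg h4, if_pos h5]
            norm_num
          · rw [if_neg (not_or.2 ⟨h4, h5⟩), if_neg h4, if_neg h5]
            norm_num
      have e6 : ∑ a ∈ X, (if a ∈ G then (1 : ℝ) else 0) = ((X ∩ G).card : ℝ) := by
        rw [← Finset.filter_mem_eq_inter, Finset.card_filter]
        push_cast
        rfl
      calc ∑ a ∈ X, ∑ b ∈ X, ad H a b * tg G a b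
          ≤ ∑ a ∈ X, ∑ b ∈ X, ((if a ∈ G then (1 : ℝ) else 0) + (if b ∈ G then (1 : ℝ) else 0)) :=
            Finset.sum_le_sum fun a _ => Finset.sum_le_sum fun b _ => e3 a b
        _ = 2 * (((X ∩ G).card : ℝ) * x) := by
            simp only [Finset.sum_add_distrib, Finset.sum_const, nsmul_eq_mul]
            rw [← Finset.mul_sum, e6, hx]
            ring
        _ ≤ 2 * (η * m * m) := by
            have e7 : ((X ∩ G).card : ℝ) * x ≤ η * m * m :=
              mul_le_mul h1 hxm hx0 (by positivity)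
            linarith
    have e2 : ∀ A B : Finset α, ∑ a ∈ A, ∑ b ∈ B, ad H a b * tg G a b ≤ (ep H A B : ℝ) := by
      intro A B
      rw [ep_eq]
      refine Finset.sum_le_sum fun a _ => Finset.sum_le_sum fun b _ => ?_
      have e3 : tg G a b ≤ 1 := by
        unfold tg
        split_ifs <;> norm_num
      nlinarith [ad_nonneg H a b]
    rw [et_eq, hsplit, ← hx, ← hm]
    have e4 := e2 (F \ X) (F \ X)
    have e5 := e2 (F \ X) X
    have e6 := e2 X (F \ X)
    nlinarith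
  · have e1 : X \ G ⊆ F \ G := Finset.sdiff_subset_sdiff hXF subset_rfl
    have e2 := Finset.card_le_card e1
    have e3 : ((X \ G).card : ℝ) + ((X ∩ G).card : ℝ) = x := by
      rw [hx]
      exact_mod_cast Finset.card_sdiff_add_card_inter X G
    have e4 : ((X \ G).card : ℝ) ≤ ((F \ G).card : ℝ) := by exact_mod_cast e2
    rw [← hx, ← hm]
    linarith

end EMS
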