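import Mathlib

/-!
# Structured families and the Erdos-Moser problem: common definitions

`N` is the size of the ground set.  Families are of type `Finset (Finset (Fin N))`.
-/

open Finset

namespace EMS

/-- `1/√2` -/
noncomputable def q : ℝ := √2 / 2

lemma q_pos : 0 < q := by unfold q; positivity

lemma q_sq : q * q = 1 / 2 := by
  unfold q
  have h : √2 * √2 = 2 := Real.mul_self_sqrt (by norm_num)
  nlinarith

lemma q_sq' : q ^ 2 = 1 / 2 := by rw [sq]; exact q_sq

lemma q_lt_one : q < 1 := by
  have := q_sq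
  have h := q_pos
  nlinarith

lemma q_gt : 0.7071 < q := by
  have := q_sq
  have h := q_pos
  nlinarith

lemma q_lt : q < 0.70711 := by
  have := q_sq
  have h := q_pos
  nlinarith

/-- proportion of the members of `U` which are disjoint from `T` -/
noncomputable def av {N : ℕ} (U : Finset (Finset (Fin N))) (T : Finset (Fin N)) : ℝ :=
  ((U.filter fun a => Disjoint a T).card : ℝ) / (U.card : ℝ)

/-- a system of pairwise disjoint sets (some of them may be empty) of at most `k` elements -/
def Sys {N : ℕ} (k : ℕ) (T : Fin N → Finset (Fin N)) : Prop :=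
  (∀ i j, i ≠ j → Disjoint (T i) (T j)) ∧ ∀ i, (T i).card ≤ k

/-- how far the family `U` is, on the system `T`, from random sets of density `1 - 1/√2` -/
noncomputable def dev {N : ℕ} (U : Finset (Finset (Fin N))) (T : Fin N → Finset (Fin N)) : ℝ :=
  ∑ i, |av U (T i) - q ^ (T i).card|

/-- every subfamily of `P` with at least `2 ^ ((1 - 1/k) n)` members is distinguished from random
sets of density `1 - 1/√2` by a system of disjoint sets of at most `k` elements -/
def NonRandom (k n : ℕ) (P : Finset (Finset (Fin (2 * n)))) : Prop :=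
  ∀ U ⊆ P, (2 : ℝ) ^ ((1 - 1 / (k : ℝ)) * n) ≤ (U.card : ℝ) →
    ∃ T : Fin (2 * n) → Finset (Fin (2 * n)), Sys k T ∧ (n : ℝ) / k ≤ dev U T

/-- the sets which are unions of two (not necessarily distinct) members of `F` -/
noncomputable def unions {N : ℕ} (F : Finset (Finset (Fin N))) : Finset (Finset (Fin N)) :=
  open Classical in
  (Finset.univ : Finset (Finset (Fin N))).filter fun S => ∃ a ∈ F, ∃ b ∈ F, a ∪ b = S

/-- the sets which are unions of a member of `G` and a member of `F` -/
noncomputable def touching {N : ℕ} (F G : Finset (Finset (Fin N))) : Finset (Finset (Fin N)) :=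
  open Classical in
  (Finset.univ : Finset (Finset (Fin N))).filter fun S => ∃ a ∈ G, ∃ b ∈ F, a ∪ b = S

/-- all edges of `H` have different unions -/
def UU {N : ℕ} (H : SimpleGraph (Finset (Fin N))) : Prop :=
  ∀ a b a' b' : Finset (Fin N), H.Adj a b → H.Adj a' b' → a ∪ b = a' ∪ b' →
    (a = a' ∧ b = b') ∨ (a = b' ∧ b = a')

section graph

variable {α : Type*}

/-- maps `f` from `Fin r` to `α` with `f i ∈ U i` for all `i` which send every pair in `E` to an
edge of `H` -/
noncomputable def homs (H : SimpleGraph α) {r : ℕ} (E : Finset (Fin r × Fin r))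
    (U : Fin r → Finset α) : Finset (Fin r → α) :=
  open Classical in
  (Fintype.piFinset U).filter fun f => ∀ e ∈ E, H.Adj (f e.1) (f e.2)

lemma mem_homs {H : SimpleGraph α} {r : ℕ} {E : Finset (Fin r × Fin r)} {U : Fin r → Finset α}
    {f : Fin r → α} : f ∈ homs H E U ↔ (∀ i, f i ∈ U i) ∧ ∀ e ∈ E, H.Adj (f e.1) (f e.2) := by
  unfold homs
  simp [Fintype.mem_piFinset]

/-- the pattern: the path `0, 1, …, j + 2` together with the chord `{j, j + 2}` -/
def pat (j : ℕ) : Finset (Fin (j + 3) × Fin (j + 3)) :=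
  Finset.univ.filter fun e =>
    (e.1 : ℕ) + 1 = (e.2 : ℕ) ∨ ((e.1 : ℕ) = j ∧ (e.2 : ℕ) = j + 2)

/-- `A` for the first vertex, `F` for all the others -/
def start {r : ℕ} (A F : Finset α) : Fin r → Finset α := fun i => if (i : ℕ) = 0 then A else F

/-- number of walks of length `j` from `b` (with the vertices after `b` in `F`) followed by a
triangle at the end vertex -/
noncomputable def wk (H : SimpleGraph α) (F : Finset α) : ℕ → α → ℕ
  | 0, b => open Classical in
      ((F ×ˢ F).filter fun e => H.Adj b e.1 ∧ H.Adj e.1 e.2 ∧ H.Adj b e.2).card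
  | (j + 1), b => open Classical in ∑ b' ∈ F.filter (fun b' => H.Adj b b'), wk H F j b'

/-- number of ordered pairs `(a, b) ∈ A × B` which are edges of `H` -/
noncomputable def ep (H : SimpleGraph α) (A B : Finset α) : ℕ :=
  open Classical in ((A ×ˢ B).filter fun e => H.Adj e.1 e.2).card

/-- number of ordered triangles in `A` -/
noncomputable def tri (H : SimpleGraph α) (A : Finset α) : ℕ :=
  open Classical in
  ((A ×ˢ A ×ˢ A).filter fun e => H.Adj e.1 e.2.1 ∧ H.Adj e.2.1 e.2.2 ∧ H.Adj e.1 e.2.2).card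

/-- number of ordered pairs of members of `F` which are edges of `H` and touch `G` -/
noncomputable def et (H : SimpleGraph α) (F G : Finset α) : ℕ :=
  open Classical in
  ((F ×ˢ F).filter fun e : α × α => H.Adj e.1 e.2 ∧ (e.1 ∈ G ∨ e.2 ∈ G)).card

end graph

section classes

variable {N : ℕ}

/-- the traces on the complement of `X` of the members of `P` whose trace on `X` is `a` -/
def residual (P : Finset (Finset (Fin N))) (X a : Finset (Fin N)) : Finset (Finset (Fin N)) :=
  (P.filter fun c => c ∩ X = a).image fun c => c \ X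

/-- the number of different residual families of `P` with respect to `X` -/
def width (P : Finset (Finset (Fin N))) (X : Finset (Fin N)) : ℕ :=
  (P.image fun c => residual P X (c ∩ X)).card

/-- closed under unions -/
def UnionClosed (n : ℕ) (P : Finset (Finset (Fin (2 * n)))) : Prop :=
  (∀ a ∈ P, ∀ b ∈ P, a ∪ b ∈ P) ∧ (P.card : ℝ) ≤ 2 ^ ((1.07 : ℝ) * n)

/-- there is a set `I` of coordinates such that no trace on `I` is shared by many members -/
def Informative (k n : ℕ) (P : Finset (Finset (Fin (2 * n)))) : Prop :=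
  ∃ I : Finset (Fin (2 * n)), ∀ w : Finset (Fin (2 * n)),
    ((P.filter fun a => a ∩ I = w).card : ℝ) ≤
      2 ^ ((1 - 1 / (k : ℝ)) * n - 7 / 8 * (I.card : ℝ))

/-- at least `n / k` disjoint sets of at most `k` coordinates, each with a forbidden trace -/
def LocallyConstrained (k n : ℕ) (P : Finset (Finset (Fin (2 * n)))) : Prop :=
  ∃ 𝒯 : Finset (Finset (Fin (2 * n))), (∀ S ∈ 𝒯, ∀ T ∈ 𝒯, S ≠ T → Disjoint S T) ∧
    (∀ T ∈ 𝒯, T.card ≤ k) ∧ n ≤ k * 𝒯.card ∧ ∀ T ∈ 𝒯, ∃ w, w ⊆ T ∧ ∀ a ∈ P, a ∩ T ≠ w

/-- all members have density above (or all below) `1 - 1/√2` on some large set `X` -/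
def Biased (k n : ℕ) (P : Finset (Finset (Fin (2 * n)))) : Prop :=
  ∃ X : Finset (Fin (2 * n)), n ≤ k * X.card ∧
    ((∀ a ∈ P, (1 - q + 1 / k) * X.card ≤ ((a ∩ X).card : ℝ)) ∨
      (∀ a ∈ P, ((a ∩ X).card : ℝ) ≤ (1 - q - 1 / k) * X.card))

/-- the coordinates can be read in steps of at most `k` coordinates such that the product of
`P.card` and of the numbers of the residual families before the steps is at most `2 ^ (1.7 n)` -/
def Narrow (k n : ℕ) (P : Finset (Finset (Fin (2 * n)))) : Prop :=
  ∃ (r : ℕ) (X : ℕ → Finset (Fin (2 * n))), X 0 = ∅ ∧ X r = univ ∧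
    (∀ j < r, X j ⊂ X (j + 1) ∧ (X (j + 1) \ X j).card ≤ k) ∧
    (P.card : ℝ) * ∏ j ∈ range r, (width P (X j) : ℝ) ≤ 2 ^ ((1.7 : ℝ) * n)

end classes

end EMS
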