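import Pool.Agent.Work.MP_2b8540_co.S.Defs

/-!
# Module S/PairClose (S-M)

Let `t = (homs H E U).card > 0`. For `X ⊆ U i`, `Y ⊆ U j`, `i ≠ j` put `x = |X|/|U i|`,
`y = |Y|/|U j|`, `t(X,Y) = #{f ∈ homs H E U | f i ∈ X, f j ∈ Y}`.

## Proof
* `{f ∈ homs H E U | f i ∈ X, f j ∈ Y} = homs H E U'` with `U' = update (update U i X) j Y`, and
  `∏ l, |U' l|/|U l| = x y` (all other factors are `1`, as the `U l` are nonempty). Hence by `hmax`
  `t(X,Y) ≤ t (x y)^(1-β)`.
* For `s ∈ [0,1]`: `s^(1-β) ≤ (1-β) s + β ≤ s + β` (weighted AM-GM `Real.geom_mean_le_arith_mean2_weighted`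
  with the second number `1`; or Bernoulli `Real.rpow_one_add_le_one_add_mul_self`).
* Upper bound: `t(X,Y) ≤ t (x y + β)`.
* Lower bound: `t(X,Y) = t - t(U i \ X, U j) - t(X, U j \ Y)`, and `t(U i \ X, U j) ≤ t ((1-x) + β)`,
  `t(X, U j \ Y) ≤ t (x (1-y) + β)`. So `t(X,Y) ≥ t (1 - (1-x) - x(1-y) - 2β) = t (x y - 2β)`.
-/

open Finset

namespace EMS

private lemma pc_rpow {β s : ℝ} (hβ0 : 0 < β) (hβ1 : β < 1) (hs : 0 ≤ s) :
    s ^ (1 - β) ≤ s + β := by
  have h1 := Real.geom_mean_le_arith_mean2_weighted (show 0 ≤ 1 - β by linarith) hβ0.le hs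
    zero_le_one (by ring)
  rw [Real.one_rpow, mul_one, mul_one] at h1
  nlinarith [mul_nonneg hβ0.le hs]

private lemma pc_le {α : Type*} [DecidableEq α] (H : SimpleGraph α) {r : ℕ}
    (E : Finset (Fin r × Fin r)) (U : Fin r → Finset α) {β : ℝ} (hβ0 : 0 < β) (hβ1 : β < 1)
    (hU : ∀ i, (U i).Nonempty)
    (hmax : ∀ U' : Fin r → Finset α, (∀ i, U' i ⊆ U i) →
        ((homs H E U').card : ℝ) ≤
          ((homs H E U).card : ℝ) * (∏ i, (((U' i).card : ℝ) / ((U i).card : ℝ))) ^ (1 - β))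
    (i j : Fin r) (hij : i ≠ j) (X Y : Finset α) (hX : X ⊆ U i) (hY : Y ⊆ U j) :
    (((homs H E U).filter fun f => f i ∈ X ∧ f j ∈ Y).card : ℝ) ≤ ((homs H E U).card : ℝ) *
        (((X.card : ℝ) / ((U i).card : ℝ)) * ((Y.card : ℝ) / ((U j).card : ℝ)) + β) := by
  obtain ⟨U', hU'⟩ : ∃ U' : Fin r → Finset α,
    U' = Function.update (Function.update U i X) j Y := ⟨_, rfl⟩
  have hj : U' j = Y := by rw [hU', Function.update_self]
  have hi : U' i = X := by rw [hU', Function.update_of_ne hij, Function.update_self]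
  have hl : ∀ l, l ≠ i → l ≠ j → U' l = U l := fun l h1 h2 => by
    rw [hU', Function.update_of_ne h2, Function.update_of_ne h1]
  have hsub : ∀ l, U' l ⊆ U l := by
    intro l
    by_cases h2 : l = j
    · rw [h2, hj]; exact hY
    by_cases h1 : l = i
    · rw [h1, hi]; exact hX
    rw [hl l h1 h2]
  have hfs : ((homs H E U).filter fun f => f i ∈ X ∧ f j ∈ Y) ⊆ homs H E U' := by
    intro f hf
    obtain ⟨h1, h2, h3⟩ := Finset.mem_filter.1 hf
    obtain ⟨h4, h5⟩ := mem_homs.1 h1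
    refine mem_homs.2 ⟨fun l => ?_, h5⟩
    by_cases h6 : l = j
    · rw [h6, hj]; exact h3
    by_cases h7 : l = i
    · rw [h7, hi]; exact h2
    rw [hl l h7 h6]
    exact h4 l
  have hprod : (∏ l, (((U' l).card : ℝ) / ((U l).card : ℝ))) =
      ((X.card : ℝ) / ((U i).card : ℝ)) * ((Y.card : ℝ) / ((U j).card : ℝ)) := by
    rw [Fintype.prod_eq_mul i j hij, hi, hj]
    rintro l ⟨h1, h2⟩
    rw [hl l h1 h2]
    exact div_self (by exact_mod_cast (hU l).card_pos.ne')
  have h1 := hmax U' hsub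
  rw [hprod] at h1
  have h2 : (((homs H E U).filter fun f => f i ∈ X ∧ f j ∈ Y).card : ℝ) ≤
      ((homs H E U').card : ℝ) := by
    exact_mod_cast Finset.card_le_card hfs
  refine (h2.trans h1).trans (mul_le_mul_of_nonneg_left ?_ (Nat.cast_nonneg _))
  exact pc_rpow hβ0 hβ1 (by positivity)

private lemma pc_compl {α : Type*} [DecidableEq α] {A X : Finset α} (hA : A.Nonempty)
    (hX : X ⊆ A) : (((A \ X).card : ℝ) / (A.card : ℝ)) = 1 - (X.card : ℝ) / (A.card : ℝ) := by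
  have h1 : (A.card : ℝ) ≠ 0 := by exact_mod_cast hA.card_pos.ne'
  have h2 : ((A \ X).card : ℝ) = A.card - X.card := by
    rw [eq_sub_iff_add_eq]
    exact_mod_cast Finset.card_sdiff_add_card_eq_card hX
  rw [h2]
  field_simp

theorem pair_close {α : Type*} [DecidableEq α] (H : SimpleGraph α) {r : ℕ}
    (E : Finset (Fin r × Fin r)) (U : Fin r → Finset α) {β : ℝ} (hβ0 : 0 < β) (hβ1 : β < 1)
    (hU : ∀ i, (U i).Nonempty) (hpos : 0 < (homs H E U).card)
    (hmax : ∀ U' : Fin r → Finset α, (∀ i, U' i ⊆ U i) →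
        ((homs H E U').card : ℝ) ≤
          ((homs H E U).card : ℝ) * (∏ i, (((U' i).card : ℝ) / ((U i).card : ℝ))) ^ (1 - β))
    (i j : Fin r) (hij : i ≠ j) (X Y : Finset α) (hX : X ⊆ U i) (hY : Y ⊆ U j) :
    |(((homs H E U).filter fun f => f i ∈ X ∧ f j ∈ Y).card : ℝ) / ((homs H E U).card : ℝ) -
        ((X.card : ℝ) / ((U i).card : ℝ)) * ((Y.card : ℝ) / ((U j).card : ℝ))| ≤ 2 * β := by
  have ht : 0 < ((homs H E U).card : ℝ) := by exact_mod_cast hpos
  have h1 := pc_le H E U hβ0 hβ1 hU hmax i j hij X Y hX hY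
  have h2 := pc_le H E U hβ0 hβ1 hU hmax i j hij (U i \ X) (U j) Finset.sdiff_subset subset_rfl
  have h3 := pc_le H E U hβ0 hβ1 hU hmax i j hij X (U j \ Y) hX Finset.sdiff_subset
  have hj0 : ((U j).card : ℝ) ≠ 0 := by exact_mod_cast (hU j).card_pos.ne'
  rw [pc_compl (hU i) hX, div_self hj0] at h2
  rw [pc_compl (hU j) hY] at h3
  have h4 : ((homs H E U).card : ℝ) ≤
      (((homs H E U).filter fun f => f i ∈ X ∧ f j ∈ Y).card : ℝ) +
      (((homs H E U).filter fun f => f i ∈ U i \ X ∧ f j ∈ U j).card : ℝ) +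
      (((homs H E U).filter fun f => f i ∈ X ∧ f j ∈ U j \ Y).card : ℝ) := by
    have h5 : homs H E U ⊆ ((homs H E U).filter fun f => f i ∈ X ∧ f j ∈ Y) ∪
        ((homs H E U).filter fun f => f i ∈ U i \ X ∧ f j ∈ U j) ∪
        ((homs H E U).filter fun f => f i ∈ X ∧ f j ∈ U j \ Y) := by
      intro f hf
      have h6 := (mem_homs.1 hf).1
      simp only [Finset.mem_union, Finset.mem_filter, Finset.mem_sdiff]
      by_cases h7 : f i ∈ X
      · by_cases h8 : f j ∈ Y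
        · exact Or.inl (Or.inl ⟨hf, h7, h8⟩)
        · exact Or.inr ⟨hf, h7, h6 j, h8⟩
      · exact Or.inl (Or.inr ⟨hf, ⟨h6 i, h7⟩, h6 j⟩)
    have h6 := (Finset.card_le_card h5).trans ((Finset.card_union_le _ _).trans
      (Nat.add_le_add_right (Finset.card_union_le _ _) _))
    exact_mod_cast h6
  generalize (((homs H E U).filter fun f => f i ∈ X ∧ f j ∈ Y).card : ℝ) = a at *
  generalize (((homs H E U).filter fun f => f i ∈ U i \ X ∧ f j ∈ U j).card : ℝ) = b at *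
  generalize (((homs H E U).filter fun f => f i ∈ X ∧ f j ∈ U j \ Y).card : ℝ) = c at *
  generalize ((homs H E U).card : ℝ) = t at *
  generalize (X.card : ℝ) / ((U i).card : ℝ) = x at *
  generalize (Y.card : ℝ) / ((U j).card : ℝ) = y at *
  have h5 : a / t ≤ x * y + β := by
    rw [div_le_iff₀ ht]
    linarith
  have h6 : x * y - 2 * β ≤ a / t := by
    rw [le_div_iff₀ ht]
    nlinarith
  rw [abs_le]
  constructor <;> linarith

end EMS
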