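import Pool.Agent.Work.MP_2b8540_co.S.Balance
import Pool.Agent.Work.MP_2b8540_co.S.PairClose

/-!
# Module S/EdgeLaw (M)

Imports the statements `EMS.balance` (S/Balance) and `EMS.pair_close` (S/PairClose).

## Proof
Let `Ω = homs H E U` (nonempty by `hd`, since all `U l` are nonempty and `ρ > 0`) and
`S f = f i ∪ f j`.
* Fibres: given `X`, all `f ∈ Ω` with `f i ∪ f j = X` have `H.Adj (f i) (f j)` (as `(i,j) ∈ E`), so by
  `hUU` the pair `(f i, f j)` takes at most two values; the other coordinates take at most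
  `∏ l ∉ {i,j}, |U l|` values. So the fibres have at most `M = 2 ∏_{l ≠ i, j} |U l|` elements, and
  `M 2^N / |Ω| ≤ 2 · 2^N / (ρ |U i| |U j|)` by `hd`.
  (An injection `f ↦ f restricted to {l // l ≠ i ∧ l ≠ j}` on each of the two classes, or bound
  `#{f | f i = a, f j = b} ≤ (piFinset (update (update U i {a}) j {b})).card`.)
* `balance` gives `∑ l, |P(S f disjoint from T l) - (1/2)^|T l|| ≤ log(M 2^N/|Ω|)/λ + λ N`
  and `log` is monotone.
* `Disjoint (f i ∪ f j) (T l) ↔ f i ∈ (U i).filter (Disjoint · (T l)) ∧ f j ∈ (U j).filter (Disjoint · (T l))`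
  for `f ∈ Ω`, so by `pair_close` the probability differs from `av (U i) (T l) * av (U j) (T l)` by at
  most `2β`; sum over the `N` values of `l` and use the triangle inequality.
-/

open Finset

namespace EMS

/-- product over all indices, two of them split off -/
private theorem prod_two {r : ℕ} {i j : Fin r} (hij : i ≠ j) (g : Fin r → ℝ) :
    ∏ l, g l = g i * g j * ∏ l ∈ (univ.erase i).erase j, g l := by
  rw [← Finset.mul_prod_erase univ g (Finset.mem_univ i),
    ← Finset.mul_prod_erase (univ.erase i) g (Finset.mem_erase.2 ⟨hij.symm, Finset.mem_univ j⟩),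
    mul_assoc]

/-- the number of choices with two prescribed coordinates -/
private theorem fix_two {α : Type*} [DecidableEq α] {r : ℕ} (U : Fin r → Finset α) {i j : Fin r}
    (hij : i ≠ j) (Ω : Finset (Fin r → α)) (hΩ : ∀ f ∈ Ω, ∀ l, f l ∈ U l) (a b : α) :
    ((Ω.filter fun f => f i = a ∧ f j = b).card : ℝ) ≤
      ∏ l ∈ (univ.erase i).erase j, ((U l).card : ℝ) := by
  classical
  have h1 : (Ω.filter fun f => f i = a ∧ f j = b) ⊆
      Fintype.piFinset (fun l => if l = i then {a} else if l = j then {b} else U l) := by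
    intro f hf
    obtain ⟨hf1, hf2, hf3⟩ := Finset.mem_filter.1 hf
    rw [Fintype.mem_piFinset]
    intro l
    by_cases hl : l = i
    · rw [if_pos hl, hl, hf2]
      exact Finset.mem_singleton_self a
    · rw [if_neg hl]
      by_cases hl' : l = j
      · rw [if_pos hl', hl', hf3]
        exact Finset.mem_singleton_self b
      · rw [if_neg hl']
        exact hΩ f hf1 l
  have h2 := Finset.card_le_card h1
  rw [Fintype.card_piFinset] at h2
  have h3 : ((Ω.filter fun f => f i = a ∧ f j = b).card : ℝ) ≤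
      ∏ l, (((if l = i then {a} else if l = j then {b} else U l : Finset α).card : ℕ) : ℝ) := by
    exact_mod_cast h2
  refine h3.trans (le_of_eq ?_)
  rw [prod_two hij, if_pos rfl, if_neg hij.symm, if_pos rfl, Finset.card_singleton,
    Finset.card_singleton, Nat.cast_one, one_mul, one_mul]
  refine Finset.prod_congr rfl fun l hl => ?_
  obtain ⟨h4, h5⟩ := Finset.mem_erase.1 hl
  rw [if_neg (Finset.mem_erase.1 h5).1, if_neg h4]

theorem edge_law {N : ℕ} (H : SimpleGraph (Finset (Fin N))) (hUU : UU H) {r : ℕ}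
    (E : Finset (Fin r × Fin r)) (U : Fin r → Finset (Finset (Fin N))) {ρ β lam : ℝ}
    (hρ : 0 < ρ) (hβ0 : 0 < β) (hβ1 : β < 1) (hU : ∀ i, (U i).Nonempty)
    (hd : ρ * ∏ i, ((U i).card : ℝ) ≤ ((homs H E U).card : ℝ))
    (hmax : ∀ U' : Fin r → Finset (Finset (Fin N)), (∀ i, U' i ⊆ U i) →
        ((homs H E U').card : ℝ) ≤
          ((homs H E U).card : ℝ) * (∏ i, (((U' i).card : ℝ) / ((U i).card : ℝ))) ^ (1 - β))
    (i j : Fin r) (hij : i ≠ j) (he : (i, j) ∈ E)
    (T : Fin N → Finset (Fin N)) (hT : ∀ i j, i ≠ j → Disjoint (T i) (T j))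
    (h0 : 0 < lam) (h1 : lam ≤ 1) :
    ∑ l, |av (U i) (T l) * av (U j) (T l) - (1 / 2) ^ (T l).card| ≤
      2 * β * N + Real.log (2 * 2 ^ N / (ρ * ((U i).card : ℝ) * ((U j).card : ℝ))) / lam
        + lam * N := by
  classical
  have hUc : ∀ l, (0 : ℝ) < ((U l).card : ℝ) := fun l => by
    exact_mod_cast Finset.card_pos.2 (hU l)
  have hprod : (0 : ℝ) < ∏ l, ((U l).card : ℝ) := Finset.prod_pos fun l _ => hUc l
  have hRest : (0 : ℝ) < ∏ l ∈ (univ.erase i).erase j, ((U l).card : ℝ) :=
    Finset.prod_pos fun l _ => hUc l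
  have hcpos : (0 : ℝ) < ((homs H E U).card : ℝ) := lt_of_lt_of_le (mul_pos hρ hprod) hd
  have hpos : 0 < (homs H E U).card := by exact_mod_cast hcpos
  have hΩ : ∀ f ∈ homs H E U, ∀ l, f l ∈ U l := fun f hf => (mem_homs.1 hf).1
  -- the fibres
  have hM : ∀ X : Finset (Fin N), (((homs H E U).filter fun f => f i ∪ f j = X).card : ℝ) ≤
      2 * ∏ l ∈ (univ.erase i).erase j, ((U l).card : ℝ) := by
    intro X
    rcases ((homs H E U).filter fun f => f i ∪ f j = X).eq_empty_or_nonempty with h2 | ⟨f0, hf0⟩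
    · rw [h2, Finset.card_empty, Nat.cast_zero]
      exact mul_nonneg (by norm_num) hRest.le
    · obtain ⟨hf1, hf2⟩ := Finset.mem_filter.1 hf0
      have hadj0 := (mem_homs.1 hf1).2 (i, j) he
      have hsub : ((homs H E U).filter fun f => f i ∪ f j = X) ⊆
          ((homs H E U).filter fun f => f i = f0 i ∧ f j = f0 j) ∪
            ((homs H E U).filter fun f => f i = f0 j ∧ f j = f0 i) := by
        intro f hf
        obtain ⟨hf3, hf4⟩ := Finset.mem_filter.1 hf
        have hadj := (mem_homs.1 hf3).2 (i, j) he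
        rw [Finset.mem_union, Finset.mem_filter, Finset.mem_filter]
        rcases hUU _ _ _ _ hadj hadj0 (hf4.trans hf2.symm) with h5 | h5
        · exact Or.inl ⟨hf3, h5⟩
        · exact Or.inr ⟨hf3, h5⟩
      have h6 := (Finset.card_le_card hsub).trans (Finset.card_union_le _ _)
      have h7 : (((homs H E U).filter fun f => f i ∪ f j = X).card : ℝ) ≤
          (((homs H E U).filter fun f => f i = f0 i ∧ f j = f0 j).card : ℝ) +
            (((homs H E U).filter fun f => f i = f0 j ∧ f j = f0 i).card : ℝ) := by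
        exact_mod_cast h6
      have h8 := fix_two U hij (homs H E U) hΩ (f0 i) (f0 j)
      have h9 := fix_two U hij (homs H E U) hΩ (f0 j) (f0 i)
      linarith
  have hbal := balance (homs H E U) (fun f => f i ∪ f j) (Finset.card_pos.1 hpos) hM T hT h0 h1
  -- the logarithm
  have hlog : Real.log (2 * (∏ l ∈ (univ.erase i).erase j, ((U l).card : ℝ)) * 2 ^ N /
      ((homs H E U).card : ℝ)) ≤
      Real.log (2 * 2 ^ N / (ρ * ((U i).card : ℝ) * ((U j).card : ℝ))) := by
    refine Real.log_le_log
      (div_pos (mul_pos (mul_pos (by norm_num) hRest) (by positivity)) hcpos) ?_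
    have hUi := hUc i
    have hUj := hUc j
    rw [div_le_div_iff₀ hcpos (by positivity)]
    rw [prod_two hij] at hd
    calc 2 * (∏ l ∈ (univ.erase i).erase j, ((U l).card : ℝ)) * 2 ^ N *
          (ρ * ((U i).card : ℝ) * ((U j).card : ℝ))
        = 2 * 2 ^ N * (ρ * (((U i).card : ℝ) * ((U j).card : ℝ) *
            ∏ l ∈ (univ.erase i).erase j, ((U l).card : ℝ))) := by ring
      _ ≤ 2 * 2 ^ N * ((homs H E U).card : ℝ) := mul_le_mul_of_nonneg_left hd (by positivity)
  have hbal2 := hbal.trans (add_le_add (div_le_div_of_nonneg_right hlog h0.le) le_rfl)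
  -- the pairs
  have hpair : ∀ l, |av (U i) (T l) * av (U j) (T l) -
      (((homs H E U).filter fun f => Disjoint (f i ∪ f j) (T l)).card : ℝ) /
        ((homs H E U).card : ℝ)| ≤ 2 * β := by
    intro l
    have h2 := pair_close H E U hβ0 hβ1 hU hpos hmax i j hij
      ((U i).filter fun a => Disjoint a (T l)) ((U j).filter fun a => Disjoint a (T l))
      (Finset.filter_subset _ _) (Finset.filter_subset _ _)
    have h3 : ((homs H E U).filter fun f => f i ∈ (U i).filter (fun a => Disjoint a (T l)) ∧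
        f j ∈ (U j).filter (fun a => Disjoint a (T l))) =
        (homs H E U).filter fun f => Disjoint (f i ∪ f j) (T l) := by
      refine Finset.filter_congr fun f hf => ?_
      rw [Finset.mem_filter, Finset.mem_filter, Finset.disjoint_union_left]
      exact ⟨fun h4 => ⟨h4.1.2, h4.2.2⟩, fun h4 => ⟨⟨hΩ f hf i, h4.1⟩, ⟨hΩ f hf j, h4.2⟩⟩⟩
    rw [h3] at h2
    rw [abs_sub_comm]
    exact h2
  calc ∑ l, |av (U i) (T l) * av (U j) (T l) - (1 / 2) ^ (T l).card|
      ≤ ∑ l, (2 * β + |(((homs H E U).filter fun f => Disjoint (f i ∪ f j) (T l)).card : ℝ) /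
        ((homs H E U).card : ℝ) - (1 / 2) ^ (T l).card|) := by
        refine Finset.sum_le_sum fun l _ => ?_
        have h2 := abs_sub_le (av (U i) (T l) * av (U j) (T l))
          ((((homs H E U).filter fun f => Disjoint (f i ∪ f j) (T l)).card : ℝ) /
            ((homs H E U).card : ℝ)) ((1 / 2) ^ (T l).card)
        linarith [hpair l]
    _ = 2 * β * N + ∑ l, |(((homs H E U).filter fun f => Disjoint (f i ∪ f j) (T l)).card : ℝ) /
        ((homs H E U).card : ℝ) - (1 / 2) ^ (T l).card| := by
        rw [Finset.sum_add_distrib, Finset.sum_const, Finset.card_univ, Fintype.card_fin,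
          nsmul_eq_mul]
        ring
    _ ≤ _ := by linarith

end EMS
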