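import Pool.Agent.Work.MP_2b8540_co.S.Defs

/-!
# Module S/HIneq (M): an elementary entropy inequality

`Real.binEntropy p = p log p⁻¹ + (1-p) log (1-p)⁻¹` (natural logarithm), `λ = 2^(3/5)`.

## Proof
If `x = 0` or `y = 0` both sides are `0` (`binEntropy 0 = 0`). If `x, y > 0` put
`G(s) = binEntropy(e^{-s}) / e^{-s}` for `s ≥ 0`; with `s = - log x`, `r = - log y` the claim is
`G(s + r) ≥ (λ/2)(G(s) + G(r))` (divide by `x y`).
* `G` is continuous on `[0, ∞)`, `G 0 = 0`, and for `s > 0`: with `t = e^{-s} ∈ (0,1)`,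
  `G(s) = - log t - ((1-t)/t) log(1-t)` and `G'(s) = - log(1-t)/t = (-log(1-t))/t`.
  `t ↦ -log(1-t)/t` is increasing on `(0,1)`, so `G'` is decreasing in `s` and `G` is concave:
  `G(s) + G(r) ≤ 2 G((s+r)/2)`.
* `z G'(z) ≥ (3/5) G(z)` for `z > 0`, i.e. `log t · log(1-t) ≥ (3/5) binEntropy t` for `0 < t < 1`:
  put `A = - log t`, `B = - log(1-t)`; `A ≥ (1-t)(3-t)/2` and `B ≥ t(2+t)/2`
  (`-log(1-w) ≥ w + w²/2`), so `t ≤ 2B/(2+t)`, `1-t ≤ 2A/(3-t)` and
  `binEntropy t = tA + (1-t)B ≤ AB (2/(2+t) + 2/(3-t)) = AB · 10/((2+t)(3-t)) ≤ AB · 10/6`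
  since `(2+t)(3-t) = 6 + t(1-t) ≥ 6`.
  Hence `z ↦ G(z)/z^(3/5)` is nondecreasing and `G(2z) ≥ 2^(3/5) G(z)`.
* Together: `G(s+r) = G(2·(s+r)/2) ≥ λ G((s+r)/2) ≥ (λ/2)(G(s)+G(r))`.
(Any other proof is fine.)
-/

open Finset

namespace EMS

private noncomputable def hG (s : ℝ) : ℝ := Real.binEntropy (Real.exp (-s)) * Real.exp s

private lemma hG_eq (s : ℝ) : hG s =
    (s * Real.exp (-s) - (1 - Real.exp (-s)) * Real.log (1 - Real.exp (-s))) * Real.exp s := by
  unfold hG Real.binEntropy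
  rw [Real.log_inv, Real.log_inv, Real.log_exp]
  ring

private lemma hG_continuous : Continuous hG := by
  unfold hG
  exact (Real.binEntropy_continuous.comp (Real.continuous_exp.comp continuous_neg)).mul
    Real.continuous_exp

private lemma hG_deriv {s : ℝ} (hs : 0 < s) :
    HasDerivAt hG (-Real.log (1 - Real.exp (-s)) * Real.exp s) s := by
  have h1 : Real.exp (-s) ≠ 0 := (Real.exp_pos _).ne'
  have h2 : Real.exp (-s) < 1 := by
    rw [Real.exp_lt_one_iff]
    linarith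
  have h3 := Real.hasDerivAt_binEntropy h1 h2.ne
  have h4 : HasDerivAt (fun s => Real.exp (-s)) (-Real.exp (-s)) s := by
    simpa using (hasDerivAt_neg s).exp
  have h5 := h3.comp s h4
  have h6 := h5.mul (Real.hasDerivAt_exp s)
  refine h6.congr_deriv ?_
  simp only [Function.comp_apply]
  unfold Real.binEntropy
  rw [Real.log_inv, Real.log_inv, Real.log_exp]
  ring

private lemma hG_concave : ConcaveOn ℝ (Set.Ici (0 : ℝ)) hG := by
  refine AntitoneOn.concaveOn_of_deriv (convex_Ici 0) hG_continuous.continuousOn ?_ ?_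
  · rw [interior_Ici]
    intro s hs
    exact (hG_deriv hs).differentiableAt.differentiableWithinAt
  · rw [interior_Ici]
    intro s hs r hr hsr
    have hs0 : 0 < s := hs
    have hr0 : 0 < r := hr
    rw [(hG_deriv hs0).deriv, (hG_deriv hr0).deriv]
    set t := Real.exp (-s) with ht
    set u := Real.exp (-r) with hu
    have ht0 : 0 < t := Real.exp_pos _
    have hu0 : 0 < u := Real.exp_pos _
    have ht1 : t < 1 := by
      rw [ht, Real.exp_lt_one_iff]
      linarith
    have hut : u ≤ t := by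
      rw [hu, ht, Real.exp_le_exp]
      linarith
    have hst : Real.exp s = t⁻¹ := by
      rw [ht, Real.exp_neg, inv_inv]
    have hru : Real.exp r = u⁻¹ := by
      rw [hu, Real.exp_neg, inv_inv]
    rw [hst, hru]
    have hc := strictConcaveOn_log_Ioi.concaveOn.2
      (show (1 - t : ℝ) ∈ Set.Ioi (0 : ℝ) by rw [Set.mem_Ioi]; linarith)
      (show (1 : ℝ) ∈ Set.Ioi (0 : ℝ) by rw [Set.mem_Ioi]; norm_num)
      (show (0 : ℝ) ≤ u / t by positivity)
      (show (0 : ℝ) ≤ 1 - u / t by rw [sub_nonneg]; exact (div_le_one ht0).2 hut)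
      (show u / t + (1 - u / t) = (1 : ℝ) by ring)
    simp only [smul_eq_mul, Real.log_one, mul_zero, add_zero, mul_one] at hc
    have e1 : u / t * (1 - t) + (1 - u / t) = 1 - u := by
      field_simp
      ring
    rw [e1] at hc
    have hc' : Real.log (1 - t) * u ≤ Real.log (1 - u) * t := by
      have := mul_le_mul_of_nonneg_right hc ht0.le
      have e2 : u / t * Real.log (1 - t) * t = Real.log (1 - t) * u := by
        field_simp
      linarith
    rw [← div_eq_mul_inv, ← div_eq_mul_inv, div_le_div_iff₀ hu0 ht0]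
    linarith

private lemma hG_neglog {w : ℝ} (h0 : 0 ≤ w) (h1 : w < 1) :
    w + w ^ 2 / 2 ≤ -Real.log (1 - w) := by
  have h := Real.hasSum_pow_div_log_of_abs_lt_one (x := w) (by rw [abs_of_nonneg h0]; exact h1)
  have h2 := sum_le_hasSum (range 2) (fun i _ => by positivity) h
  rw [Finset.sum_range_succ, Finset.sum_range_one] at h2
  norm_num at h2
  linarith

private lemma hG_slope {z : ℝ} (hz : 0 < z) :
    (3 / 5) * hG z ≤ z * (-Real.log (1 - Real.exp (-z)) * Real.exp z) := by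
  rw [hG_eq]
  set t := Real.exp (-z) with ht
  have ht0 : 0 < t := Real.exp_pos _
  have ht1 : t < 1 := by
    rw [ht, Real.exp_lt_one_iff]
    linarith
  have hA : z = -Real.log t := by
    rw [ht, Real.log_exp]
    ring
  have hA1 : (1 - t) * (3 - t) / 2 ≤ z := by
    have := hG_neglog (w := 1 - t) (by linarith) (by linarith)
    rw [hA]
    rw [sub_sub_cancel] at this
    nlinarith
  have hB1 : t * (2 + t) / 2 ≤ -Real.log (1 - t) := by
    have := hG_neglog (w := t) ht0.le ht1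
    nlinarith
  set B := -Real.log (1 - t) with hB
  have hB0 : 0 < B := lt_of_lt_of_le (by positivity) hB1
  have hL : Real.log (1 - t) = -B := by rw [hB]; ring
  rw [hL]
  have k1 : t * z ≤ 2 * (z * B) / (2 + t) := by
    rw [le_div_iff₀ (by linarith)]
    nlinarith
  have k2 : (1 - t) * B ≤ 2 * (z * B) / (3 - t) := by
    rw [le_div_iff₀ (by linarith)]
    nlinarith
  have k3 : 2 * (z * B) / (2 + t) + 2 * (z * B) / (3 - t) ≤ 5 / 3 * (z * B) := by
    have hzB : 0 < z * B := mul_pos hz hB0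
    rw [div_add_div _ _ (by linarith) (by linarith), div_le_iff₀ (by nlinarith)]
    nlinarith [mul_pos hzB (mul_pos ht0 (sub_pos.2 ht1))]
  have k4 : 3 / 5 * (z * t - (1 - t) * (-B)) ≤ z * B := by linarith
  have := mul_le_mul_of_nonneg_right k4 (Real.exp_pos z).le
  linarith

private lemma hG_double {z : ℝ} (hz : 0 < z) :
    (2 : ℝ) ^ ((3 : ℝ) / 5) * hG z ≤ hG (2 * z) := by
  have hmono : MonotoneOn (fun z => hG z * z ^ (-(3 / 5) : ℝ)) (Set.Ioi (0 : ℝ)) := by
    have hd : ∀ w ∈ Set.Ioi (0 : ℝ), HasDerivAt (fun z => hG z * z ^ (-(3 / 5) : ℝ))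
        ((-Real.log (1 - Real.exp (-w)) * Real.exp w) * w ^ (-(3 / 5) : ℝ) +
          hG w * (-(3 / 5) * w ^ (-(3 / 5) - 1 : ℝ))) w := by
      intro w hw
      have hw0 : (0 : ℝ) < w := hw
      exact (hG_deriv hw0).mul (Real.hasDerivAt_rpow_const (Or.inl hw0.ne'))
    refine monotoneOn_of_deriv_nonneg (convex_Ioi 0) ?_ ?_ ?_
    · intro w hw
      exact (hd w hw).continuousAt.continuousWithinAt
    · rw [interior_Ioi]
      intro w hw
      exact (hd w hw).differentiableAt.differentiableWithinAt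
    · rw [interior_Ioi]
      intro w hw
      have hw0 : (0 : ℝ) < w := hw
      rw [(hd w hw).deriv]
      have e : w ^ (-(3 / 5) : ℝ) = w ^ (-(3 / 5) - 1 : ℝ) * w := by
        rw [← Real.rpow_add_one hw0.ne']
        norm_num
      rw [e]
      have hp : 0 < w ^ (-(3 / 5) - 1 : ℝ) := Real.rpow_pos_of_pos hw0 _
      have := hG_slope hw0
      nlinarith
  have h1 := hmono (show z ∈ Set.Ioi (0 : ℝ) from hz) (show 2 * z ∈ Set.Ioi (0 : ℝ) by
    show (0 : ℝ) < 2 * z; linarith) (by linarith)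
  simp only at h1
  rw [Real.mul_rpow (by norm_num) hz.le] at h1
  have hp : 0 < z ^ (-(3 / 5) : ℝ) := Real.rpow_pos_of_pos hz _
  have h2 : hG z ≤ hG (2 * z) * 2 ^ (-(3 / 5) : ℝ) := by
    have h3 : hG z * z ^ (-(3 / 5) : ℝ) ≤ (hG (2 * z) * 2 ^ (-(3 / 5) : ℝ)) * z ^ (-(3 / 5) : ℝ) := by
      linarith
    exact le_of_mul_le_mul_right h3 hp
  have h4 : (2 : ℝ) ^ ((3 : ℝ) / 5) * 2 ^ (-(3 / 5) : ℝ) = 1 := by
    rw [← Real.rpow_add (by norm_num)]
    norm_num
  have hq : 0 < (2 : ℝ) ^ ((3 : ℝ) / 5) := Real.rpow_pos_of_pos (by norm_num) _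
  calc (2 : ℝ) ^ ((3 : ℝ) / 5) * hG z ≤
      (2 : ℝ) ^ ((3 : ℝ) / 5) * (hG (2 * z) * 2 ^ (-(3 / 5) : ℝ)) :=
        mul_le_mul_of_nonneg_left h2 hq.le
    _ = hG (2 * z) * ((2 : ℝ) ^ ((3 : ℝ) / 5) * 2 ^ (-(3 / 5) : ℝ)) := by ring
    _ = hG (2 * z) := by rw [h4, mul_one]

private lemma hG_log {x : ℝ} (hx : 0 < x) : hG (-Real.log x) * x = Real.binEntropy x := by
  unfold hG
  rw [neg_neg, Real.exp_log hx, Real.exp_neg, Real.exp_log hx]
  field_simp

theorem binEntropy_mul {x y : ℝ} (hx0 : 0 ≤ x) (hx1 : x ≤ 1) (hy0 : 0 ≤ y) (hy1 : y ≤ 1) :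
    (2 : ℝ) ^ ((3 : ℝ) / 5) / 2 * (x * Real.binEntropy y + y * Real.binEntropy x) ≤
      Real.binEntropy (x * y) := by
  rcases hx0.eq_or_lt with rfl | hx
  · simp
  rcases hy0.eq_or_lt with rfl | hy
  · simp
  have hs : 0 ≤ -Real.log x := by
    have := Real.log_nonpos hx0 hx1
    linarith
  have hr : 0 ≤ -Real.log y := by
    have := Real.log_nonpos hy0 hy1
    linarith
  have hxy : 0 < x * y := mul_pos hx hy
  have elog : -Real.log (x * y) = -Real.log x + -Real.log y := by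
    rw [Real.log_mul hx.ne' hy.ne']
    ring
  have e1 := hG_log hx
  have e2 := hG_log hy
  have e3 := hG_log hxy
  rw [elog] at e3
  set s := -Real.log x with hsdef
  set r := -Real.log y with hrdef
  have hq : 0 < (2 : ℝ) ^ ((3 : ℝ) / 5) := Real.rpow_pos_of_pos (by norm_num) _
  have hmain : (2 : ℝ) ^ ((3 : ℝ) / 5) / 2 * (hG s + hG r) ≤ hG (s + r) := by
    rcases (add_nonneg hs hr).eq_or_lt with h0 | h0
    · have hs0 : s = 0 := by linarith
      have hr0 : r = 0 := by linarith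
      have hG0 : hG 0 = 0 := by
        unfold hG
        simp
      rw [hs0, hr0, add_zero, hG0]
      simp
    · have hc := hG_concave.2 (show s ∈ Set.Ici (0 : ℝ) from hs) (show r ∈ Set.Ici (0 : ℝ) from hr)
        (show (0 : ℝ) ≤ 1 / 2 by norm_num) (show (0 : ℝ) ≤ 1 / 2 by norm_num)
        (show (1 : ℝ) / 2 + 1 / 2 = 1 by norm_num)
      simp only [smul_eq_mul] at hc
      have hd := hG_double (z := 1 / 2 * s + 1 / 2 * r) (by linarith)
      have e4 : 2 * (1 / 2 * s + 1 / 2 * r) = s + r := by ring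
      rw [e4] at hd
      have := mul_le_mul_of_nonneg_left hc hq.le
      linarith
  have := mul_le_mul_of_nonneg_right hmain hxy.le
  rw [e3] at this
  refine le_trans (le_of_eq ?_) this
  rw [← e1, ← e2]
  ring

end EMS
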