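import Pool.Agent.Work.MP_2b8540_co.S.Defs

/-!
# Module S/Propagate (S-M), pure numbers

`pat j` consists of the pairs `(i, i+1)` (`i ≤ j+1`) and `(j, j+2)`. For a fixed `l` put
`a = q^(t l)` (so `a² = (1/2)^(t l)`, `2^(-k/2) ≤ a ≤ 1`) and `C = 4^(k+1)`.

## Proof
* (triangle `j, j+1, j+2`) with `u, v, w` the three values and `e₁ = |uv - a²|`, `e₂ = |vw - a²|`,
  `e₃ = |uw - a²|`: `|u² a² - a⁴| ≤ u²|a² - vw| + |(uv)(uw) - a⁴| ≤ e₂ + e₁ + e₃`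
  (`|xy - a⁴| ≤ |x - a²| y + a² |y - a²|`, all numbers in `[0,1]`), hence
  `|u - a| ≤ (e₁+e₂+e₃)/(a²(u+a)) ≤ (e₁+e₂+e₃)/a³ ≤ C (e₁+e₂+e₃)` as `a^(-3) ≤ 2^(3k/2) ≤ 4^k`.
  Summing over `l`: `D_j := ∑ l, |u j l - q^(t l)| ≤ 3 C θ`.
* (edge) `|u - a| ≤ (2/a)(|u w - a²| + |w - a|)`: if `w ≥ a/2` then
  `|u-a| w ≤ |u w - a²| + a|a - w|`, divide by `w`; if `w < a/2` then `|w - a| > a/2` and `|u-a| ≤ 1`.
  `2/a ≤ 2·2^(k/2) ≤ C`. Summing over `l`: `D_i ≤ C (θ + D_(i+1))` for `i < j`.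
* So `D_0 ≤ 3 C^(j+1) θ + (C + … + C^j) θ ≤ 4 C^(j+1) θ` (`C ≥ 4`; e.g. prove
  `D_i ≤ (4 C^(j+1-i) - 2) θ`... any induction giving `4 C^(j+1) θ`; `θ ≥ 0`).
  Suggested downward induction: `D_(j-s) ≤ (3 C^(s+1) + 2 C^s) θ`... or generalise over `j` by
  dropping the vertex `0` (`Fin.succ`): for `j+1` apply the statement for `j` to `u ∘ Fin.succ`
  (its pattern pairs are pattern pairs of `j+1`), giving `D_1 ≤ 4 C^(j+1) θ`, then
  `D_0 ≤ (2/a)(θ + D_1)` with `2/a ≤ 2·2^(k/2)` and `2·2^(k/2)(1 + 4 C^(j+1)) ≤ 4 C^(j+2)`.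
-/

open Finset

namespace EMS

private theorem prop_tri {u v w a : ℝ} (hu0 : 0 ≤ u) (hu1 : u ≤ 1) (hw0 : 0 ≤ w)
    (hw1 : w ≤ 1) (ha0 : 0 < a) (ha1 : a ≤ 1) :
    a ^ 3 * |u - a| ≤ |u * v - a ^ 2| + |v * w - a ^ 2| + |u * w - a ^ 2| := by
  have h1 : a ^ 2 * (u + a) * (u - a) =
      -(u ^ 2 * (v * w - a ^ 2)) + (u * v - a ^ 2) * (u * w) + a ^ 2 * (u * w - a ^ 2) := by ring
  have h2 : |a ^ 2 * (u + a) * (u - a)| ≤
      |v * w - a ^ 2| + |u * v - a ^ 2| + |u * w - a ^ 2| := by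
    rw [h1]
    refine (abs_add_le _ _).trans (add_le_add ((abs_add_le _ _).trans (add_le_add ?_ ?_)) ?_)
    · rw [abs_neg, abs_mul, abs_of_nonneg (by positivity)]
      exact mul_le_of_le_one_left (abs_nonneg _) (by nlinarith)
    · rw [abs_mul, abs_of_nonneg (mul_nonneg hu0 hw0)]
      exact mul_le_of_le_one_right (abs_nonneg _) (by nlinarith)
    · rw [abs_mul, abs_of_nonneg (by positivity)]
      exact mul_le_of_le_one_left (abs_nonneg _) (by nlinarith)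
  rw [abs_mul, abs_of_nonneg (by positivity)] at h2
  have h3 : a ^ 3 * |u - a| ≤ a ^ 2 * (u + a) * |u - a| := by
    apply mul_le_mul_of_nonneg_right _ (abs_nonneg _)
    have : 0 ≤ a ^ 2 * u := by positivity
    nlinarith
  linarith

private theorem prop_edge {u w a : ℝ} (hu0 : 0 ≤ u) (hu1 : u ≤ 1) (ha0 : 0 < a) (ha1 : a ≤ 1) :
    a * |u - a| ≤ 2 * (|u * w - a ^ 2| + |w - a|) := by
  by_cases hw : a / 2 ≤ w
  · have h1 : (u - a) * w = (u * w - a ^ 2) + a * (a - w) := by ring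
    have h2 : |(u - a) * w| ≤ |u * w - a ^ 2| + |w - a| := by
      rw [h1]
      refine (abs_add_le _ _).trans (add_le_add le_rfl ?_)
      rw [abs_mul, abs_of_pos ha0, abs_sub_comm]
      exact mul_le_of_le_one_left (abs_nonneg _) ha1
    rw [abs_mul, abs_of_nonneg (by linarith : 0 ≤ w)] at h2
    have h3 : |u - a| * (a / 2) ≤ |u - a| * w := mul_le_mul_of_nonneg_left hw (abs_nonneg _)
    nlinarith
  · push Not at hw
    have h1 : a / 2 ≤ |w - a| := by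
      rw [abs_sub_comm]
      exact le_trans (by linarith) (le_abs_self _)
    have h2 : |u - a| ≤ 1 := abs_le.2 ⟨by linarith, by linarith⟩
    have h3 : a * |u - a| ≤ a := mul_le_of_le_one_right ha0.le h2
    have h4 := abs_nonneg (u * w - a ^ 2)
    linarith

private theorem prop_q {k t : ℕ} (ht : t ≤ k) : 0 < q ^ t ∧ q ^ t ≤ 1 ∧ (q ^ t) ^ 2 = (1 / 2) ^ t ∧
    1 ≤ 4 ^ k * (q ^ t) ^ 3 ∧ 1 ≤ 2 ^ k * q ^ t := by
  have hq0 := q_pos
  have hq1 := q_lt_one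
  have hq2 := q_gt
  refine ⟨by positivity, pow_le_one₀ hq0.le hq1.le, ?_, ?_, ?_⟩
  · rw [← pow_mul, mul_comm, pow_mul, q_sq']
  · have h1 : (1 / 4 : ℝ) ^ k ≤ (1 / 4) ^ t := pow_le_pow_of_le_one (by norm_num) (by norm_num) ht
    have h2 : (1 / 4 : ℝ) ^ t ≤ (q ^ 3) ^ t := by
      refine pow_le_pow_left₀ (by norm_num) ?_ _
      have h3 : q ^ 3 = 1 / 2 * q := by rw [pow_succ, q_sq']
      rw [h3]
      linarith
    have h3 : (q ^ t) ^ 3 = (q ^ 3) ^ t := by rw [← pow_mul, mul_comm, pow_mul]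
    rw [h3]
    have h4 : (4 : ℝ) ^ k * (1 / 4) ^ k = 1 := by rw [← mul_pow]; norm_num
    rw [← h4]
    exact mul_le_mul_of_nonneg_left (h1.trans h2) (by positivity)
  · have h1 : (1 / 2 : ℝ) ^ k ≤ (1 / 2) ^ t := pow_le_pow_of_le_one (by norm_num) (by norm_num) ht
    have h2 : (1 / 2 : ℝ) ^ t ≤ q ^ t := pow_le_pow_left₀ (by norm_num) (by linarith) _
    have h4 : (2 : ℝ) ^ k * (1 / 2) ^ k = 1 := by rw [← mul_pow]; norm_num
    rw [← h4]
    exact mul_le_mul_of_nonneg_left (h1.trans h2) (by positivity)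

theorem propagate {N k : ℕ} (j : ℕ) (u : Fin (j + 3) → Fin N → ℝ)
    (hu0 : ∀ i l, 0 ≤ u i l) (hu1 : ∀ i l, u i l ≤ 1) (t : Fin N → ℕ) (ht : ∀ l, t l ≤ k) {θ : ℝ}
    (h : ∀ e ∈ pat j, ∑ l, |u e.1 l * u e.2 l - (1 / 2) ^ (t l)| ≤ θ) :
    ∑ l, |u 0 l - q ^ (t l)| ≤ 4 * (4 ^ (k + 1)) ^ (j + 1) * θ := by
  induction j with
  | zero =>
    have h01 := h (0, 1) (by simp [pat])
    have h12 := h (1, 2) (by simp [pat])
    have h02 := h (0, 2) (by simp [pat])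
    simp only at h01 h12 h02
    have hθ : 0 ≤ θ := (Finset.sum_nonneg fun l _ => abs_nonneg _).trans h01
    have hterm : ∀ l, |u 0 l - q ^ (t l)| ≤ 4 ^ k * (|u 0 l * u 1 l - (1 / 2) ^ (t l)| +
        |u 1 l * u 2 l - (1 / 2) ^ (t l)| + |u 0 l * u 2 l - (1 / 2) ^ (t l)|) := by
      intro l
      obtain ⟨ha0, ha1, ha2, ha3, -⟩ := prop_q (ht l)
      have h1 := prop_tri (v := u 1 l) (hu0 0 l) (hu1 0 l) (hu0 2 l) (hu1 2 l) ha0 ha1
      rw [ha2] at h1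
      calc |u 0 l - q ^ (t l)| ≤ (4 ^ k * (q ^ (t l)) ^ 3) * |u 0 l - q ^ (t l)| :=
            le_mul_of_one_le_left (abs_nonneg _) ha3
        _ = 4 ^ k * ((q ^ (t l)) ^ 3 * |u 0 l - q ^ (t l)|) := by ring
        _ ≤ _ := mul_le_mul_of_nonneg_left h1 (by positivity)
    have h3 := Finset.sum_le_sum fun l (_ : l ∈ Finset.univ) => hterm l
    rw [← Finset.mul_sum, Finset.sum_add_distrib, Finset.sum_add_distrib] at h3
    refine h3.trans ?_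
    have h4 : (4 : ℝ) ^ k * (∑ l, |u 0 l * u 1 l - (1 / 2) ^ (t l)| +
        ∑ l, |u 1 l * u 2 l - (1 / 2) ^ (t l)| + ∑ l, |u 0 l * u 2 l - (1 / 2) ^ (t l)|) ≤
        4 ^ k * (θ + θ + θ) :=
      mul_le_mul_of_nonneg_left (add_le_add (add_le_add h01 h12) h02) (by positivity)
    refine h4.trans ?_
    have h5 : (0 : ℝ) ≤ 4 ^ k * θ := by positivity
    have h6 : 4 * (4 ^ (k + 1)) ^ (0 + 1) * θ = 16 * ((4 : ℝ) ^ k * θ) := by ring
    rw [h6]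
    nlinarith
  | succ j ih =>
    have h1 := ih (fun i => u i.succ) (fun i l => hu0 _ l) (fun i l => hu1 _ l) (by
      intro e he
      refine h (e.1.succ, e.2.succ) ?_
      simp only [pat, Finset.mem_filter, Finset.mem_univ, true_and, Fin.val_succ] at he ⊢
      omega)
    have h01 := h (0, Fin.succ 0) (by
      simp only [pat, Finset.mem_filter, Finset.mem_univ, true_and, Fin.val_succ, Fin.val_zero]
      exact Or.inl trivial)
    simp only at h01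
    have hθ : 0 ≤ θ := (Finset.sum_nonneg fun l _ => abs_nonneg _).trans h01
    have hterm : ∀ l, |u 0 l - q ^ (t l)| ≤ 2 * 2 ^ k *
        (|u 0 l * u (Fin.succ 0) l - (1 / 2) ^ (t l)| + |u (Fin.succ 0) l - q ^ (t l)|) := by
      intro l
      obtain ⟨ha0, ha1, ha2, -, ha3⟩ := prop_q (ht l)
      have h2 := prop_edge (w := u (Fin.succ 0) l) (hu0 0 l) (hu1 0 l) ha0 ha1
      rw [ha2] at h2
      calc |u 0 l - q ^ (t l)| ≤ (2 ^ k * q ^ (t l)) * |u 0 l - q ^ (t l)| :=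
            le_mul_of_one_le_left (abs_nonneg _) ha3
        _ = 2 ^ k * (q ^ (t l) * |u 0 l - q ^ (t l)|) := by ring
        _ ≤ 2 ^ k * (2 * (|u 0 l * u (Fin.succ 0) l - (1 / 2) ^ (t l)| +
            |u (Fin.succ 0) l - q ^ (t l)|)) := mul_le_mul_of_nonneg_left h2 (by positivity)
        _ = _ := by ring
    have h3 := Finset.sum_le_sum fun l (_ : l ∈ Finset.univ) => hterm l
    rw [← Finset.mul_sum, Finset.sum_add_distrib] at h3
    refine h3.trans ?_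
    have h4 : (2 : ℝ) * 2 ^ k * (∑ l, |u 0 l * u (Fin.succ 0) l - (1 / 2) ^ (t l)| +
        ∑ l, |u (Fin.succ 0) l - q ^ (t l)|) ≤
        2 * 2 ^ k * (θ + 4 * (4 ^ (k + 1)) ^ (j + 1) * θ) :=
      mul_le_mul_of_nonneg_left (add_le_add h01 h1) (by positivity)
    refine h4.trans ?_
    have h5 : (1 : ℝ) ≤ (4 ^ (k + 1)) ^ (j + 1) := one_le_pow₀ (one_le_pow₀ (by norm_num))
    have h6 : (2 : ℝ) ^ k ≤ 4 ^ k := pow_le_pow_left₀ (by norm_num) (by norm_num) _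
    have h7 : (4 : ℝ) * (4 ^ (k + 1)) ^ (j + 1 + 1) * θ =
        16 * (4 ^ k * ((4 ^ (k + 1)) ^ (j + 1) * θ)) := by ring
    rw [h7]
    set D : ℝ := (4 ^ (k + 1)) ^ (j + 1) with hD
    have h8 : θ ≤ D * θ := le_mul_of_one_le_left hθ h5
    have h9 : (0 : ℝ) ≤ D * θ := hθ.trans h8
    have h10 : (2 : ℝ) ^ k * (D * θ) ≤ 4 ^ k * (D * θ) := mul_le_mul_of_nonneg_right h6 h9
    have h11 : (2 : ℝ) ^ k * θ ≤ 2 ^ k * (D * θ) := mul_le_mul_of_nonneg_left h8 (by positivity)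
    have h12 : (0 : ℝ) ≤ 4 ^ k * (D * θ) := by positivity
    nlinarith

end EMS
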