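import Pool.Agent.Work.MP_2b8540_co.S.Maxi
import Pool.Agent.Work.MP_2b8540_co.S.EdgeLaw
import Pool.Agent.Work.MP_2b8540_co.S.Propagate

/-!
# Module S/Key (M-L): the key proposition

Imports the statements `EMS.maxi`, `EMS.edge_law`, `EMS.propagate`.

## Proof
Put `C = 4^(k+1)`, `ε = 1 / (64 k C^(j+1))` (so `0 < ε < 1`), `β = lam = ε`,
`γ = ε / (64 k C^(j+1))`. Let `n` be large, and suppose the conclusion fails:
`ρ |A| |F|^(j+2) ≤ (homs H (pat j) (start A F)).card`. `A` and `F` are nonempty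
(`|A| ≥ 2^((1-2γ)n) > 0`), and `∏ i, |start A F i| = |A| |F|^(j+2)` (`Fin.prod_univ_succ`).
* `maxi` (with the family `start A F`, `β = ε`) gives `U`, `U 0 ⊆ A ⊆ P`,
  `|U 0| ≥ ρ^(1/ε) |A| ≥ ρ^(1/ε) 2^((1-2γ)n) ≥ 2^((1-1/k)n)` for `n` large (`2γ < 1/k`).
* `NonRandom` gives `T` with `Sys k T` and `n/k ≤ dev (U 0) T`.
* For every `e ∈ pat j` (then `e.1 ≠ e.2`, `e.2 ≠ 0`):
  `|U e.1| |U e.2| ≥ ρ^(2/ε) |start.. e.1| |start.. e.2| ≥ ρ^(2/ε) 2^((1-2γ)n) 2^n`
  (`start A F e.2 = F`, `start A F e.1` is `A` or `F`, `|F| ≥ 2^n ≥ 2^((1-2γ)n)`), so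
  `log(2·2^(2n)/(ρ |U e.1||U e.2|)) ≤ log 2 - (1 + 2/ε) log ρ + 2γ n log 2 =: R_n`, and `edge_law` gives
  `∑ l, |av (U e.1) (T l) av (U e.2) (T l) - (1/2)^|T l|| ≤ θ := 4 ε n + R_n/ε + 2 ε n`
  (recall `N = 2n`).
* `propagate` with `u i l = av (U i) (T l)`, `t l = |T l|` gives `dev (U 0) T ≤ 4 C^(j+1) θ`.
* `4 C^(j+1) · 6 ε n = 24/64 · n/k`; `4 C^(j+1) · 2 γ n log 2/ε ≤ 8/64 · n/k`; the rest
  `4 C^(j+1) (log 2 - (1+2/ε) log ρ)/ε` is a constant, `≤ n/(4k)` for `n` large. Total `< n/k`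
  for `n ≥ n₀ ≥ 1`: contradiction.
-/

open Finset

namespace EMS

private lemma av_nonneg {N : ℕ} (U : Finset (Finset (Fin N))) (T : Finset (Fin N)) :
    0 ≤ av U T := by
  unfold av
  positivity

private lemma av_le_one {N : ℕ} (U : Finset (Finset (Fin N))) (T : Finset (Fin N)) :
    av U T ≤ 1 := by
  unfold av
  refine div_le_one_of_le₀ ?_ (Nat.cast_nonneg _)
  exact_mod_cast Finset.card_filter_le _ _

private lemma prod_start {α : Type*} (A F : Finset α) (j : ℕ) :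
    ∏ i, ((start (r := j + 3) A F i).card : ℝ) = (A.card : ℝ) * (F.card : ℝ) ^ (j + 2) := by
  rw [Fin.prod_univ_succ]
  congr 1
  have : ∀ i : Fin (j + 2), ((start (r := j + 3) A F i.succ).card : ℝ) = (F.card : ℝ) := by
    intro i
    unfold start
    rw [if_neg]
    rw [Fin.val_succ]
    omega
  simp only [this]
  rw [Finset.prod_const, Finset.card_univ, Fintype.card_fin]

theorem key (k j : ℕ) (hk : 1 ≤ k) {ρ : ℝ} (hρ : 0 < ρ) :
    ∃ γ : ℝ, 0 < γ ∧ ∃ n₀ : ℕ, ∀ n ≥ n₀, ∀ (F A P : Finset (Finset (Fin (2 * n))))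
      (H : SimpleGraph (Finset (Fin (2 * n)))), UU H → (2 : ℝ) ^ n ≤ (F.card : ℝ) → A ⊆ P →
      NonRandom k n P → (2 : ℝ) ^ ((1 - 2 * γ) * n) ≤ (A.card : ℝ) →
      ((homs H (pat j) (start A F)).card : ℝ) < ρ * A.card * (F.card : ℝ) ^ (j + 2) := by
  -- constants
  set D : ℝ := (4 ^ (k + 1)) ^ (j + 1) with hD
  have hD1 : 1 ≤ D := one_le_pow₀ (one_le_pow₀ (by norm_num))
  have hk1 : (1 : ℝ) ≤ k := by exact_mod_cast hk
  have hkD : 1 ≤ k * D := by nlinarith
  set ε : ℝ := 1 / (64 * (k * D)) with hε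
  have hε0 : 0 < ε := by positivity
  have hεk : ε * (64 * (k * D)) = 1 := by
    rw [hε]
    field_simp
  have hε1 : ε ≤ 1 / 64 := by nlinarith
  have hk0 : (0 : ℝ) < k := by linarith
  have hεk2 : 2 * ε ^ 2 ≤ 1 / (2 * k) := by
    rw [le_div_iff₀ (by positivity)]
    have h1 : ε * k ≤ 1 / 64 := by
      have : ε * k * (64 * D) = 1 := by linarith
      have h2 : 0 ≤ ε * k := by positivity
      nlinarith
    have h2 : 0 ≤ ε * k := by positivity
    nlinarith
  set K₁ : ℝ := (Real.log 2 - (1 + 2 / ε) * Real.log ρ) / ε with hK₁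
  have hlog2 : Real.log 2 < 1 := by
    have := Real.log_two_lt_d9
    linarith
  have hlog2' : 1 / 2 < Real.log 2 := by
    have := Real.log_two_gt_d9
    linarith
  refine ⟨ε ^ 2, by positivity, max (⌈8 * k * D * K₁⌉₊ + 1) (⌈-(4 * k / ε) * Real.log ρ⌉₊ + 1), ?_⟩
  intro n hn F A P H hUU hF hAP hNR hA
  have hn1 : 8 * k * D * K₁ < n := by
    have h1 : ⌈8 * k * D * K₁⌉₊ + 1 ≤ n := (le_max_left _ _).trans hn
    have h2 : (⌈8 * k * D * K₁⌉₊ : ℝ) + 1 ≤ n := by exact_mod_cast h1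
    have := Nat.le_ceil (8 * k * D * K₁)
    linarith
  have hn2 : -(4 * k / ε) * Real.log ρ ≤ n := by
    have h1 : ⌈-(4 * k / ε) * Real.log ρ⌉₊ + 1 ≤ n := (le_max_right _ _).trans hn
    have h2 : (⌈-(4 * k / ε) * Real.log ρ⌉₊ : ℝ) + 1 ≤ n := by exact_mod_cast h1
    have := Nat.le_ceil (-(4 * k / ε) * Real.log ρ)
    linarith
  have hn0 : 0 ≤ (n : ℝ) := Nat.cast_nonneg n
  by_contra hcon
  push Not at hcon
  have hApos : 0 < (A.card : ℝ) := lt_of_lt_of_le (Real.rpow_pos_of_pos (by norm_num) _) hA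
  have hFpos : 0 < (F.card : ℝ) := lt_of_lt_of_le (by positivity) hF
  have hAne : A.Nonempty := Finset.card_pos.1 (by exact_mod_cast hApos)
  have hFne : F.Nonempty := Finset.card_pos.1 (by exact_mod_cast hFpos)
  have hsne : ∀ i : Fin (j + 3), (start A F i).Nonempty := by
    intro i
    unfold start
    split_ifs
    · exact hAne
    · exact hFne
  obtain ⟨U, hUA, hUne, hUc, hUd, hUm⟩ := maxi H (pat j) (start A F) hρ hε0 (by linarith) hsne
    (by rw [prod_start, ← mul_assoc]; exact hcon)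
  have hs0 : start A F (0 : Fin (j + 3)) = A := by
    unfold start
    rw [if_pos]
    rfl
  -- logarithms of the sizes
  have hlogρ : Real.log (ρ ^ (1 / ε)) = 1 / ε * Real.log ρ := Real.log_rpow hρ _
  have hρp : 0 < ρ ^ (1 / ε) := Real.rpow_pos_of_pos hρ _
  have hUpos : ∀ i, 0 < ((U i).card : ℝ) := fun i => by exact_mod_cast Finset.card_pos.2 (hUne i)
  have hAlog : (1 - 2 * ε ^ 2) * n * Real.log 2 ≤ Real.log (A.card : ℝ) := by
    have h1 := Real.log_le_log (Real.rpow_pos_of_pos (by norm_num) _) hA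
    rwa [Real.log_rpow (by norm_num)] at h1
  have hFlog : n * Real.log 2 ≤ Real.log (F.card : ℝ) := by
    have h1 := Real.log_le_log (by positivity) hF
    rwa [Real.log_pow] at h1
  have hε2n : 0 ≤ ε ^ 2 * n * Real.log 2 := by positivity
  have hslog : ∀ i : Fin (j + 3), (1 - 2 * ε ^ 2) * n * Real.log 2 ≤
      Real.log ((start A F i).card : ℝ) := by
    intro i
    unfold start
    split_ifs
    · exact hAlog
    · refine le_trans ?_ hFlog
      nlinarith
  have hUlog : ∀ i, 1 / ε * Real.log ρ + Real.log ((start A F i).card : ℝ) ≤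
      Real.log ((U i).card : ℝ) := by
    intro i
    have hsp : 0 < ((start A F i).card : ℝ) := by exact_mod_cast Finset.card_pos.2 (hsne i)
    have h1 := Real.log_le_log (mul_pos hρp hsp) (hUc i)
    rwa [Real.log_mul hρp.ne' hsp.ne', hlogρ] at h1
  -- the system `T`
  have hU0 : (2 : ℝ) ^ ((1 - 1 / (k : ℝ)) * n) ≤ ((U 0).card : ℝ) := by
    rw [← Real.log_le_log_iff (Real.rpow_pos_of_pos (by norm_num) _) (hUpos 0),
      Real.log_rpow (by norm_num)]
    have h1 := hUlog 0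
    have h2 := hslog 0
    have h3 : 1 / (k : ℝ) = 2 * (1 / (2 * k)) := by field_simp
    have h4 : 0 ≤ (n : ℝ) * Real.log 2 := by positivity
    have h5 : 2 * ε ^ 2 * (n * Real.log 2) ≤ 1 / (2 * k) * (n * Real.log 2) :=
      mul_le_mul_of_nonneg_right hεk2 h4
    have h6 : -(1 / ε * Real.log ρ) ≤ 1 / (2 * k) * (n * Real.log 2) := by
      have h7 : -(1 / ε * Real.log ρ) = (-(4 * k / ε) * Real.log ρ) * (1 / (4 * k)) := by
        field_simp
      rw [h7]
      have h8 : (-(4 * k / ε) * Real.log ρ) * (1 / (4 * k)) ≤ n * (1 / (4 * k)) :=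
        mul_le_mul_of_nonneg_right hn2 (by positivity)
      have h9 : 1 / (2 * k) * (n * Real.log 2) = n * (1 / (4 * k)) * (2 * Real.log 2) := by
        field_simp
        ring
      rw [h9]
      have h10 : 0 ≤ n * (1 / (4 * (k : ℝ))) := by positivity
      nlinarith
    rw [h3]
    nlinarith
  obtain ⟨T, hT, hdev⟩ := hNR (U 0) ((hUA 0).trans (by rw [hs0]; exact hAP)) hU0
  -- the edges
  have hedge : ∀ e ∈ pat j, ∑ l, |av (U e.1) (T l) * av (U e.2) (T l) - (1 / 2) ^ (T l).card| ≤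
      8 * ε * n + K₁ := by
    intro e he
    have he' := (Finset.mem_filter.1 he).2
    have hne : e.1 ≠ e.2 := by
      intro h
      rw [h] at he'
      omega
    have hne2 : (e.2 : ℕ) ≠ 0 := by omega
    have h1 := edge_law H hUU (pat j) U hρ hε0 (by linarith) hUne hUd hUm e.1 e.2 hne he T hT.1
      hε0 (by linarith)
    refine h1.trans ?_
    have h2 : Real.log (2 * 2 ^ (2 * n) / (ρ * ((U e.1).card : ℝ) * ((U e.2).card : ℝ))) ≤
        Real.log 2 - (1 + 2 / ε) * Real.log ρ + 2 * ε ^ 2 * n * Real.log 2 := by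
      rw [Real.log_div (by positivity) (by have := hUpos e.1; have := hUpos e.2; positivity),
        Real.log_mul (by norm_num) (by positivity), Real.log_pow,
        Real.log_mul (by have := hUpos e.1; positivity) (hUpos e.2).ne',
        Real.log_mul hρ.ne' (hUpos e.1).ne']
      have h3 := hUlog e.1
      have h4 := hUlog e.2
      have h5 := hslog e.1
      have h6 : start A F e.2 = F := by
        unfold start
        rw [if_neg hne2]
      rw [h6] at h4
      push_cast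
      have h7 : (1 + 2 / ε) * Real.log ρ = Real.log ρ + 2 * (1 / ε * Real.log ρ) := by ring
      rw [h7]
      linarith
    have h3 : Real.log (2 * 2 ^ (2 * n) / (ρ * ((U e.1).card : ℝ) * ((U e.2).card : ℝ))) / ε ≤
        K₁ + 2 * ε * n * Real.log 2 := by
      refine (div_le_div_of_nonneg_right h2 hε0.le).trans (le_of_eq ?_)
      rw [hK₁]
      field_simp
    have h4 : ε * n * Real.log 2 ≤ ε * n * 1 :=
      mul_le_mul_of_nonneg_left hlog2.le (by positivity)
    push_cast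
    push_cast at h3
    nlinarith
  have hprop := propagate (k := k) j (fun i l => av (U i) (T l)) (fun i l => av_nonneg _ _)
    (fun i l => av_le_one _ _) (fun l => (T l).card) hT.2 hedge
  have hdev2 : dev (U 0) T ≤ 4 * D * (8 * ε * n + K₁) := hprop
  have h1 : (n : ℝ) / k ≤ 4 * D * (8 * ε * n + K₁) := hdev.trans hdev2
  rw [div_le_iff₀ hk0] at h1
  have h2 : 4 * D * (8 * ε * n + K₁) * k = (ε * (64 * (k * D))) * n / 2 + 4 * k * D * K₁ := by ring
  rw [h2, hεk] at h1
  linarith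

end EMS
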