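import Pool.Agent.Work.MP_2b8540_co.S.Defs

/-!
# Module S/Layers (M-L)

Let `m = |F|`, `σ = ρ / (L+1)`.

## Proof
Define `B 0 = {b ∈ F | wk H F 0 b ≥ ρ m²}`,
`B (j+1) = B j ∪ {b ∈ F | #{b' ∈ B j | H.Adj b b'} ≥ ρ m}` (all subsets of `F`, increasing).
* (a) For `j ≤ L` and `b ∈ B j` there is `i ≤ j` with `wk H F i b ≥ σ^(i+1) m^(i+2)`. Induction on `j`:
  `j = 0` is clear (`ρ ≥ σ`). If `b ∈ B (j+1) \ B j` it has at least `ρ m` neighbours in `B j`, each of
  which has some `i ≤ j` as in (a); by pigeonhole (at most `j + 1 ≤ L + 1` values) some `i` occurs for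
  at least `ρ m/(L+1) = σ m` of them, so
  `wk H F (i+1) b = ∑ b' ∈ F, Adj b b', wk H F i b' ≥ σ m · σ^(i+1) m^(i+2)`.
* (b) `|B j ∩ G| ≤ η m` for `j ≤ L`: by (a) `B j ∩ G ⊆ ⋃_{i ≤ j} {a ∈ G | wk H F i a ≥ σ^(i+1) m^(i+2)}`
  and by Markov and `hG` each of these has at most
  `(η/(L+1)) σ^(L+1) m^(i+3) / (σ^(i+1) m^(i+2)) ≤ η m/(L+1)` elements (`σ ≤ 1`).
  (If `m = 0` everything is empty.)
* (c) `∑_{j<L} |B (j+1) \ B j| ≤ |B L| ≤ m`, so some `j < L` has `|B (j+1) \ B j| ≤ m/L`. Put `X = B j`.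
* (d) `ep H X (F \ X) ≤ (1/L + ρ) m²`: count pairs by the vertex `b ∈ F \ X` (use symmetry of `Adj`):
  those `b ∉ B (j+1)` have fewer than `ρ m` neighbours in `B j`, the at most `m/L` others have at
  most `m`.
* (e) `tri H (F \ X) ≤ ρ m³`: each `b ∈ F \ X` is outside `B 0`, so it is in at most `wk H F 0 b < ρ m²`
  ordered triangles as first vertex (the condition in `tri` is
  `Adj b c ∧ Adj c d ∧ Adj b d`, the same as in `wk H F 0 b`).
-/

open Finset

namespace EMS

section layHelpers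

variable {α : Type*}

open Classical in
private noncomputable def lay (H : SimpleGraph α) (F : Finset α) (ρ : ℝ) : ℕ → Finset α
  | 0 => F.filter fun b => ρ * (F.card : ℝ) ^ 2 ≤ (wk H F 0 b : ℝ)
  | (j + 1) => lay H F ρ j ∪ F.filter fun b =>
      ρ * (F.card : ℝ) ≤ (((lay H F ρ j).filter fun b' => H.Adj b b').card : ℝ)

private lemma mem_lay_zero {H : SimpleGraph α} {F : Finset α} {ρ : ℝ} {b : α} :
    b ∈ lay H F ρ 0 ↔ b ∈ F ∧ ρ * (F.card : ℝ) ^ 2 ≤ (wk H F 0 b : ℝ) := by
  unfold lay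
  rw [mem_filter]

open Classical in
private lemma mem_lay_succ {H : SimpleGraph α} {F : Finset α} {ρ : ℝ} {j : ℕ} {b : α} :
    b ∈ lay H F ρ (j + 1) ↔ b ∈ lay H F ρ j ∨ (b ∈ F ∧
      ρ * (F.card : ℝ) ≤ (((lay H F ρ j).filter fun b' => H.Adj b b').card : ℝ)) := by
  rw [lay, mem_union, mem_filter]

private lemma lay_sub {H : SimpleGraph α} {F : Finset α} {ρ : ℝ} (j : ℕ) :
    lay H F ρ j ⊆ F := by
  induction j with
  | zero =>
    intro b hb
    exact (mem_lay_zero.1 hb).1
  | succ j ih =>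
    intro b hb
    rcases mem_lay_succ.1 hb with h | h
    · exact ih h
    · exact h.1

private lemma lay_mono {H : SimpleGraph α} {F : Finset α} {ρ : ℝ} (j : ℕ) :
    lay H F ρ j ⊆ lay H F ρ (j + 1) := fun _ hb => mem_lay_succ.2 (Or.inl hb)

private lemma lay_mono0 {H : SimpleGraph α} {F : Finset α} {ρ : ℝ} (j : ℕ) :
    lay H F ρ 0 ⊆ lay H F ρ j := by
  induction j with
  | zero => exact Subset.refl _
  | succ j ih => exact ih.trans (lay_mono j)

private lemma lay_wk {H : SimpleGraph α} {F : Finset α} {ρ : ℝ} {L : ℕ} (hρ : 0 < ρ) (j : ℕ)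
    (hj : j ≤ L) {b : α} (hb : b ∈ lay H F ρ j) :
    ∃ i ≤ j, (ρ / (L + 1)) ^ (i + 1) * (F.card : ℝ) ^ (i + 2) ≤ (wk H F i b : ℝ) := by
  classical
  have hL0 : (0 : ℝ) < (L : ℝ) + 1 := by positivity
  have hσρ : ρ / (L + 1) ≤ ρ := by
    apply div_le_self hρ.le
    have : (0 : ℝ) ≤ L := Nat.cast_nonneg L
    linarith
  have hσ : 0 < ρ / (L + 1) := by positivity
  induction j generalizing b with
  | zero =>
    refine ⟨0, le_refl _, ?_⟩
    have h := (mem_lay_zero.1 hb).2
    refine le_trans ?_ h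
    rw [zero_add, pow_one, zero_add]
    exact mul_le_mul_of_nonneg_right hσρ (by positivity)
  | succ j ih =>
    rcases mem_lay_succ.1 hb with h | ⟨hbF, h⟩
    · obtain ⟨i, hi, hi2⟩ := ih (by omega) h
      exact ⟨i, by omega, hi2⟩
    · set S := (lay H F ρ j).filter fun b' => H.Adj b b' with hS
      have hex : ∀ b' : α, ∃ i : ℕ, b' ∈ S → i ≤ j ∧
          (ρ / (L + 1)) ^ (i + 1) * (F.card : ℝ) ^ (i + 2) ≤ (wk H F i b' : ℝ) := by
        intro b'
        by_cases hb' : b' ∈ S
        · obtain ⟨i, hi⟩ := ih (by omega) (mem_filter.1 hb').1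
          exact ⟨i, fun _ => hi⟩
        · exact ⟨0, fun hh => absurd hh hb'⟩
      choose f hf using hex
      have hmaps : ∀ a ∈ S, f a ∈ range (j + 1) := by
        intro a ha
        rw [mem_range]
        have := (hf a ha).1
        omega
      have hcard : (range (j + 1)).card • (ρ / (L + 1) * (F.card : ℝ)) ≤ (S.card : ℝ) := by
        rw [card_range, nsmul_eq_mul]
        refine le_trans ?_ h
        have h1 : ((j + 1 : ℕ) : ℝ) ≤ (L : ℝ) + 1 := by
          have : j + 1 ≤ L + 1 := by omega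
          exact_mod_cast this
        calc ((j + 1 : ℕ) : ℝ) * (ρ / (L + 1) * (F.card : ℝ))
            ≤ ((L : ℝ) + 1) * (ρ / (L + 1) * (F.card : ℝ)) :=
              mul_le_mul_of_nonneg_right h1 (by positivity)
          _ = ρ * (F.card : ℝ) := by
              field_simp
      obtain ⟨i, hi, hi2⟩ := Finset.exists_le_card_fiber_of_nsmul_le_card_of_maps_to hmaps
        ⟨0, by simp⟩ hcard
      rw [mem_range] at hi
      refine ⟨i + 1, by omega, ?_⟩
      have hsub : S.filter (fun x => f x = i) ⊆ F.filter (fun b' => H.Adj b b') := by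
        intro x hx
        rw [mem_filter] at hx ⊢
        have hx1 := mem_filter.1 hx.1
        exact ⟨lay_sub j hx1.1, hx1.2⟩
      have hwk : (wk H F (i + 1) b : ℝ) =
          ∑ b' ∈ F.filter (fun b' => H.Adj b b'), (wk H F i b' : ℝ) := by
        rw [wk]
        push_cast
        rfl
      rw [hwk]
      calc (ρ / (L + 1)) ^ (i + 1 + 1) * (F.card : ℝ) ^ (i + 1 + 2)
          = (ρ / (L + 1) * (F.card : ℝ)) *
            ((ρ / (L + 1)) ^ (i + 1) * (F.card : ℝ) ^ (i + 2)) := by ring
        _ ≤ ((S.filter (fun x => f x = i)).card : ℝ) *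
            ((ρ / (L + 1)) ^ (i + 1) * (F.card : ℝ) ^ (i + 2)) :=
            mul_le_mul_of_nonneg_right hi2 (by positivity)
        _ ≤ ∑ b' ∈ S.filter (fun x => f x = i), (wk H F i b' : ℝ) := by
            rw [← nsmul_eq_mul]
            apply Finset.card_nsmul_le_sum
            intro x hx
            rw [mem_filter] at hx
            have := (hf x hx.1).2
            rw [hx.2] at this
            exact this
        _ ≤ ∑ b' ∈ F.filter (fun b' => H.Adj b b'), (wk H F i b' : ℝ) :=
            Finset.sum_le_sum_of_subset_of_nonneg hsub (fun _ _ _ => Nat.cast_nonneg _)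

end layHelpers

theorem layers {α : Type*} [DecidableEq α] (H : SimpleGraph α) (F G : Finset α) (hGF : G ⊆ F)
    (L : ℕ) (hL : 1 ≤ L) {ρ η : ℝ} (hρ : 0 < ρ) (hρ1 : ρ ≤ 1) (hη : 0 < η)
    (hG : ∀ j ≤ L, (∑ a ∈ G, (wk H F j a : ℝ)) ≤
      η / (L + 1) * (ρ / (L + 1)) ^ (L + 1) * (F.card : ℝ) ^ (j + 3)) :
    ∃ X ⊆ F, ((X ∩ G).card : ℝ) ≤ η * F.card ∧
      (ep H X (F \ X) : ℝ) ≤ (1 / L + ρ) * (F.card : ℝ) ^ 2 ∧
      (tri H (F \ X) : ℝ) ≤ ρ * (F.card : ℝ) ^ 3 := by
  classical
  rcases F.eq_empty_or_nonempty with hF | hF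
  · subst hF
    refine ⟨∅, Subset.refl _, ?_, ?_, ?_⟩
    · simp
    · simp [ep]
    · simp [tri]
  have hm : (0 : ℝ) < F.card := by exact_mod_cast hF.card_pos
  set m : ℝ := (F.card : ℝ) with hmdef
  have hL1 : (0 : ℝ) < (L : ℝ) + 1 := by positivity
  have hL0 : (0 : ℝ) < (L : ℝ) := by exact_mod_cast hL
  set σ : ℝ := ρ / (L + 1) with hσdef
  have hσ : 0 < σ := by positivity
  have hσ1 : σ ≤ 1 := by
    rw [hσdef, div_le_one hL1]
    linarith
  -- (b)
  have hb : ∀ j ≤ L, (((lay H F ρ j) ∩ G).card : ℝ) ≤ η * m := by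
    intro j hj
    have hsub : (lay H F ρ j) ∩ G ⊆ (range (j + 1)).biUnion fun i =>
        G.filter fun a => σ ^ (i + 1) * m ^ (i + 2) ≤ (wk H F i a : ℝ) := by
      intro a ha
      rw [mem_inter] at ha
      obtain ⟨i, hi, hi2⟩ := lay_wk (L := L) hρ j hj ha.1
      rw [mem_biUnion]
      refine ⟨i, mem_range.2 (by omega), mem_filter.2 ⟨ha.2, hi2⟩⟩
    have hone : ∀ i ∈ range (j + 1),
        ((G.filter fun a => σ ^ (i + 1) * m ^ (i + 2) ≤ (wk H F i a : ℝ)).card : ℝ) ≤
          η / (L + 1) * m := by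
      intro i hi
      rw [mem_range] at hi
      set t : ℝ := σ ^ (i + 1) * m ^ (i + 2) with ht
      have ht0 : 0 < t := by positivity
      have h1 : ((G.filter fun a => t ≤ (wk H F i a : ℝ)).card : ℝ) * t ≤
          η / (L + 1) * m * t := by
        calc ((G.filter fun a => t ≤ (wk H F i a : ℝ)).card : ℝ) * t
            ≤ ∑ a ∈ G.filter (fun a => t ≤ (wk H F i a : ℝ)), (wk H F i a : ℝ) := by
              rw [← nsmul_eq_mul]
              apply Finset.card_nsmul_le_sum
              intro x hx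
              exact (mem_filter.1 hx).2
          _ ≤ ∑ a ∈ G, (wk H F i a : ℝ) :=
              Finset.sum_le_sum_of_subset_of_nonneg (filter_subset _ _)
                (fun _ _ _ => Nat.cast_nonneg _)
          _ ≤ η / (L + 1) * σ ^ (L + 1) * m ^ (i + 3) := hG i (by omega)
          _ ≤ η / (L + 1) * σ ^ (i + 1) * m ^ (i + 3) := by
              apply mul_le_mul_of_nonneg_right _ (by positivity)
              apply mul_le_mul_of_nonneg_left _ (by positivity)
              exact pow_le_pow_of_le_one hσ.le hσ1 (by omega)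
          _ = η / (L + 1) * m * t := by
              rw [ht]
              ring
      exact le_of_mul_le_mul_right h1 ht0
    calc (((lay H F ρ j) ∩ G).card : ℝ)
        ≤ (((range (j + 1)).biUnion fun i =>
            G.filter fun a => σ ^ (i + 1) * m ^ (i + 2) ≤ (wk H F i a : ℝ)).card : ℝ) := by
          exact_mod_cast card_le_card hsub
      _ ≤ ((∑ i ∈ range (j + 1),
            (G.filter fun a => σ ^ (i + 1) * m ^ (i + 2) ≤ (wk H F i a : ℝ)).card : ℕ) : ℝ) := by
          exact_mod_cast card_biUnion_le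
      _ = ∑ i ∈ range (j + 1),
            ((G.filter fun a => σ ^ (i + 1) * m ^ (i + 2) ≤ (wk H F i a : ℝ)).card : ℝ) := by
          push_cast
          rfl
      _ ≤ ∑ _i ∈ range (j + 1), η / (L + 1) * m := Finset.sum_le_sum hone
      _ = ((j + 1 : ℕ) : ℝ) * (η / (L + 1) * m) := by
          rw [sum_const, card_range, nsmul_eq_mul]
      _ ≤ ((L : ℝ) + 1) * (η / (L + 1) * m) := by
          apply mul_le_mul_of_nonneg_right _ (by positivity)
          have : j + 1 ≤ L + 1 := by omega
          exact_mod_cast this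
      _ = η * m := by
          field_simp
  -- (c)
  have hc : ∃ j < L, (((lay H F ρ (j + 1)) \ (lay H F ρ j)).card : ℝ) ≤ m / L := by
    by_contra hcon
    push Not at hcon
    have hind : ∀ j, j ≤ L → (j : ℝ) * (m / L) ≤ ((lay H F ρ j).card : ℝ) := by
      intro j
      induction j with
      | zero =>
        intro _
        simp
      | succ j ih =>
        intro hj
        have h1 := ih (by omega)
        have h2 := hcon j (by omega)
        have h3 := card_sdiff_add_card_eq_card (lay_mono (H := H) (F := F) (ρ := ρ) j)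
        have h4 : (((lay H F ρ (j + 1)) \ (lay H F ρ j)).card : ℝ) + ((lay H F ρ j).card : ℝ) =
            ((lay H F ρ (j + 1)).card : ℝ) := by exact_mod_cast h3
        push_cast
        rw [← h4]
        linarith
    obtain ⟨K, rfl⟩ := Nat.exists_eq_add_of_le' hL
    have h1 := hind K (by omega)
    have h2 := hcon K (by omega)
    have h3 := card_sdiff_add_card_eq_card (lay_mono (H := H) (F := F) (ρ := ρ) K)
    have h4 : (((lay H F ρ (K + 1)) \ (lay H F ρ K)).card : ℝ) + ((lay H F ρ K).card : ℝ) =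
        ((lay H F ρ (K + 1)).card : ℝ) := by exact_mod_cast h3
    have h5 : ((lay H F ρ (K + 1)).card : ℝ) ≤ m := by
      rw [hmdef]
      exact_mod_cast card_le_card (lay_sub (H := H) (F := F) (ρ := ρ) (K + 1))
    have h6 : ((K + 1 : ℕ) : ℝ) * (m / ((K + 1 : ℕ) : ℝ)) = m := by
      field_simp
    have h7 : ((K + 1 : ℕ) : ℝ) = (K : ℝ) + 1 := by push_cast; ring
    rw [h7] at h6 h1 h2
    linarith
  obtain ⟨j, hj, hjc⟩ := hc
  set X := lay H F ρ j with hX
  have hXF : X ⊆ F := lay_sub j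
  have hFX : ((F \ X).card : ℝ) ≤ m := by
    rw [hmdef]
    exact_mod_cast card_le_card sdiff_subset
  refine ⟨X, hXF, hb j hj.le, ?_, ?_⟩
  · -- (d)
    have e1 : ep H X (F \ X) = ∑ b ∈ F \ X, (X.filter fun a => H.Adj a b).card := by
      unfold ep
      simp only [Finset.card_filter, Finset.sum_product_right]
    have e2 : ∀ b ∈ F \ X, ((X.filter fun a => H.Adj a b).card : ℝ) ≤
        ρ * m + if b ∈ lay H F ρ (j + 1) then m else 0 := by
      intro b hbX
      rw [mem_sdiff] at hbX
      split_ifs with hbj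
      · have h1 : ((X.filter fun a => H.Adj a b).card : ℝ) ≤ m := by
          rw [hmdef]
          exact_mod_cast (card_le_card (filter_subset _ _)).trans (card_le_card hXF)
        have : 0 ≤ ρ * m := by positivity
        linarith
      · rw [add_zero]
        by_contra hcon
        push Not at hcon
        apply hbj
        rw [mem_lay_succ]
        right
        refine ⟨hbX.1, ?_⟩
        refine hcon.le.trans ?_
        have : (X.filter fun a => H.Adj a b) ⊆ (X.filter fun b' => H.Adj b b') := by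
          intro x hx
          rw [mem_filter] at hx ⊢
          exact ⟨hx.1, hx.2.symm⟩
        exact_mod_cast card_le_card this
    have e3 : ∑ b ∈ F \ X, (if b ∈ lay H F ρ (j + 1) then m else 0) ≤ m / L * m := by
      rw [← Finset.sum_filter, sum_const, nsmul_eq_mul]
      apply mul_le_mul_of_nonneg_right _ hm.le
      refine le_trans ?_ hjc
      have : (F \ X).filter (fun b => b ∈ lay H F ρ (j + 1)) ⊆
          (lay H F ρ (j + 1)) \ (lay H F ρ j) := by
        intro x hx
        rw [mem_filter, mem_sdiff] at hx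
        rw [mem_sdiff]
        exact ⟨hx.2, hx.1.2⟩
      exact_mod_cast card_le_card this
    rw [e1]
    push_cast
    calc ∑ b ∈ F \ X, ((X.filter fun a => H.Adj a b).card : ℝ)
        ≤ ∑ b ∈ F \ X, (ρ * m + if b ∈ lay H F ρ (j + 1) then m else 0) :=
          Finset.sum_le_sum e2
      _ = ((F \ X).card : ℝ) * (ρ * m) +
          ∑ b ∈ F \ X, (if b ∈ lay H F ρ (j + 1) then m else 0) := by
          rw [sum_add_distrib, sum_const, nsmul_eq_mul]
      _ ≤ m * (ρ * m) + m / L * m := by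
          apply add_le_add _ e3
          exact mul_le_mul_of_nonneg_right hFX (by positivity)
      _ = (1 / L + ρ) * m ^ 2 := by
          field_simp
          ring
  · -- (e)
    have e1 : (tri H (F \ X)) = ∑ b ∈ F \ X, (((F \ X) ×ˢ (F \ X)).filter fun e =>
        H.Adj b e.1 ∧ H.Adj e.1 e.2 ∧ H.Adj b e.2).card := by
      unfold tri
      rw [Finset.card_filter, Finset.sum_product]
      apply Finset.sum_congr rfl
      intro b _
      rw [Finset.card_filter]
    have e2 : ∀ b ∈ F \ X, ((((F \ X) ×ˢ (F \ X)).filter fun e =>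
        H.Adj b e.1 ∧ H.Adj e.1 e.2 ∧ H.Adj b e.2).card : ℝ) ≤ ρ * m ^ 2 := by
      intro b hbX
      rw [mem_sdiff] at hbX
      have h0 : b ∉ lay H F ρ 0 := fun hh => hbX.2 (lay_mono0 j hh)
      have h1 : (wk H F 0 b : ℝ) < ρ * m ^ 2 := by
        by_contra hcon
        push Not at hcon
        exact h0 (mem_lay_zero.2 ⟨hbX.1, hcon⟩)
      refine le_trans ?_ h1.le
      unfold wk
      have : (((F \ X) ×ˢ (F \ X)).filter fun e =>
          H.Adj b e.1 ∧ H.Adj e.1 e.2 ∧ H.Adj b e.2) ⊆ ((F ×ˢ F).filter fun e =>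
          H.Adj b e.1 ∧ H.Adj e.1 e.2 ∧ H.Adj b e.2) := by
        apply filter_subset_filter
        exact product_subset_product sdiff_subset sdiff_subset
      exact_mod_cast card_le_card this
    rw [e1]
    push_cast
    calc ∑ b ∈ F \ X, ((((F \ X) ×ˢ (F \ X)).filter fun e =>
          H.Adj b e.1 ∧ H.Adj e.1 e.2 ∧ H.Adj b e.2).card : ℝ)
        ≤ ∑ _b ∈ F \ X, ρ * m ^ 2 := Finset.sum_le_sum e2
      _ = ((F \ X).card : ℝ) * (ρ * m ^ 2) := by
          rw [sum_const, nsmul_eq_mul]
      _ ≤ m * (ρ * m ^ 2) := mul_le_mul_of_nonneg_right hFX (by positivity)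
      _ = ρ * m ^ 3 := by ring

end EMS
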