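import Pool.Agent.Work.MP_2b8540_co.S.Cells
import Pool.Agent.Work.MP_2b8540_co.S.Layers
import Pool.Agent.Work.MP_2b8540_co.S.Count
import Pool.Agent.Work.MP_2b8540_co.S.Choice
import Pool.Agent.Work.MP_2b8540_co.Numeric

/-!
# Module S/MainNR (M): the main theorem for non-random cells

Imports `EMS.cells`, `EMS.layers`, `EMS.count`, `EMS.choice`. Put `x* = (c + 2√(3 - c²/2))/3`, the
larger root of `φ(x) = 1`, `φ(x) = x²/2 + (c-x)²/4` (the other root `(c - 2√(3 - c²/2))/3` is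
negative because `c < 2`), and note `(c - x*)²/4 = (c - √(3 - c²/2))²/9`.

## Proof
Choose `ζ > 0` small (depending on `c, η`) such that for real `0 ≤ x ≤ c`:
`φ(x) ≥ 1 - ζ` implies `x ≥ x* - η/4` and `(c-x)²/4 ≤ (c - x*)²/4 + η/4`.
(`φ(x) - 1 = (3/4)(x - x*)(x - x₋)` with `x₋ < 0`, so for `0 ≤ x < x*`:
`1 - φ(x) ≥ (3/4)(x* - x)(-x₋)`; and `(c-x)²/4 - (c-x*)²/4 = (x*-x)(2c-x-x*)/4 ≤ (x* - x) c/2` when
`x ≤ x*`.)
Choose `η'` with `0 < η' ≤ η/64`, `48 η' ≤ ζ`, `16η' ≤ η/4`; `L ≥ 2/η'`, `ρ₁ = min(1, η'/2, 8 η'²)`;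
`ρ' = η'/(L+1) (ρ₁/(L+1))^(L+1)`; `γ₁, n₁` from `cells k L hk ρ'`; `γ = min(γ₁, ζ/4, 1/4)`;
`n₀ ≥ n₁` with `c 2^n ≤ (min(ζ, η)/4) 4^n` for `n ≥ n₀`.
Given `F`: `m = |F| ≤ c 2^n`.
* `m ≥ 2^n`: otherwise `|unions F| ≤ m(m+1)/2 ≤ 2^n(2^n - 1)/2 < 4^n/2 ≤ (1-γ) 4^n`
  (the bound `|unions F| ≤ m (m+1)/2`: see `EM.cov_card_le` in
  `Pool/Agent/Work/MP_2b8540_co/Core.lean`; or use `choice`: `|unions F| ≤ m + ep/2` with
  `ep ≤ m² - m`, as `H` has no loops).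
* `choice F G` gives `H`; `cells` gives the hypothesis of `layers` (with `η'`, `ρ₁`, `L`); `layers` gives
  `X` with `|X ∩ G| ≤ η' m`, `ep H X (F\X) ≤ (1/L + ρ₁) m² ≤ η' m²`, `tri H (F\X) ≤ ρ₁ m³ ≤ 8 η'² m³`;
  `count` with `ξ = η'` gives
  `ep/2 ≤ x²/2 + (m-x)²/4 + 2η' m²`, `et/2 ≤ (m-x)²/4 + 3 η' m²`, `x - η' m ≤ |F\G|` for `x = |X|`.
* `(1-γ) 4^n ≤ |unions F| ≤ m + ep/2`. Divide by `4^n`, `y = x/2^n ≤ m/2^n ≤ c ≤ 2`:
  `1 - γ - ζ/4 ≤ y²/2 + (c-y)²/4 + 8η'`, so `φ(y) ≥ 1 - ζ`. Hence `y ≥ x* - η/4` and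
  `|F\G| ≥ (y - 2η') 2^n ≥ (x* - η) 2^n`; and
  `|touching F G| ≤ m + et/2 ≤ (η/4 + (c-y)²/4 + 12 η') 4^n ≤ ((c-x*)²/4 + η) 4^n`.
(The numerical part may reuse `EM.num_x`, `EM.num_y` of
`Pool/Agent/Work/MP_2b8540_co/Numeric.lean`, see there.)
-/

open Finset

namespace EMS


theorem main_nr {c η : ℝ} (hc : 0 < c) (hc2 : c < 2) (hη : 0 < η) (k : ℕ) (hk : 1 ≤ k) :
    ∃ γ : ℝ, 0 < γ ∧ ∃ n₀ : ℕ, ∀ n ≥ n₀, ∀ F : Finset (Finset (Fin (2 * n))),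
      (F.card : ℝ) ≤ c * 2 ^ n → (1 - γ) * 4 ^ n ≤ ((unions F).card : ℝ) →
      ∀ 𝒬 : Finset (Finset (Finset (Fin (2 * n)))), (𝒬.card : ℝ) ≤ 2 ^ (γ * n) →
      (∀ P ∈ 𝒬, NonRandom k n P) →
      ∀ G ⊆ F, (∀ a ∈ G, ∃ P ∈ 𝒬, a ∈ P) →
        ((c + 2 * √(3 - c ^ 2 / 2)) / 3 - η) * 2 ^ n ≤ ((F \ G).card : ℝ) ∧
        ((touching F G).card : ℝ) ≤ ((c - √(3 - c ^ 2 / 2)) ^ 2 / 9 + η) * 4 ^ n := by
  classical
  set D := √(3 - c ^ 2 / 2) with hD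
  have hD1 : 1 < D := EM.D_gt_one hc hc2
  -- the constants
  obtain ⟨ζ, hζ0, hζ1, hζη⟩ : ∃ ζ : ℝ, 0 < ζ ∧ ζ ≤ 1 ∧ ζ ≤ η / 2 :=
    ⟨min 1 (η / 2), by positivity, min_le_left _ _, min_le_right _ _⟩
  obtain ⟨e, he0, he⟩ : ∃ e : ℝ, 0 < e ∧ 2 * e ≤ ζ * ((2 * D - c) / 4) := by
    refine ⟨ζ * ((2 * D - c) / 8), ?_, le_of_eq (by ring)⟩
    have : 0 < 2 * D - c := by linarith
    positivity
  obtain ⟨η', hη'0, hη'e, hη'η⟩ : ∃ η' : ℝ, 0 < η' ∧ η' ≤ e / 16 ∧ η' ≤ η / 96 :=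
    ⟨min (e / 16) (η / 96), by positivity, min_le_left _ _, min_le_right _ _⟩
  obtain ⟨δ, hδ0, hδe, hδη, hδ8⟩ : ∃ δ : ℝ, 0 < δ ∧ δ ≤ e / 2 ∧ δ ≤ η / 8 ∧ δ ≤ 1 / 8 :=
    ⟨min (e / 2) (min (η / 8) (1 / 8)), by positivity, min_le_left _ _,
      (min_le_right _ _).trans (min_le_left _ _), (min_le_right _ _).trans (min_le_right _ _)⟩
  obtain ⟨L, hL1, hL⟩ : ∃ L : ℕ, 1 ≤ L ∧ 2 / η' ≤ (L : ℝ) := by
    refine ⟨⌈2 / η'⌉₊ + 1, by omega, ?_⟩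
    have := Nat.le_ceil (2 / η')
    push_cast
    linarith
  obtain ⟨ρ, hρ0, hρ1, hρη, hρη2⟩ : ∃ ρ : ℝ, 0 < ρ ∧ ρ ≤ 1 ∧ ρ ≤ η' / 2 ∧ ρ ≤ 8 * η' ^ 2 :=
    ⟨min 1 (min (η' / 2) (8 * η' ^ 2)), by positivity, min_le_left _ _,
      (min_le_right _ _).trans (min_le_left _ _), (min_le_right _ _).trans (min_le_right _ _)⟩
  have hρ' : 0 < η' / ((L : ℝ) + 1) * (ρ / ((L : ℝ) + 1)) ^ (L + 1) := by positivity
  obtain ⟨γ₁, hγ₁, n₁, hcells⟩ := cells k L hk hρ'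
  obtain ⟨n₂, hn₂⟩ := pow_unbounded_of_one_lt (2 / δ) (one_lt_two (α := ℝ))
  obtain ⟨γ, hγ0, hγ1, hγe, hγ4⟩ : ∃ γ : ℝ, 0 < γ ∧ γ ≤ γ₁ ∧ γ ≤ e / 2 ∧ γ ≤ 1 / 4 :=
    ⟨min γ₁ (min (e / 2) (1 / 4)), by positivity, min_le_left _ _,
      (min_le_right _ _).trans (min_le_left _ _), (min_le_right _ _).trans (min_le_right _ _)⟩
  refine ⟨γ, hγ0, max n₁ n₂, fun n hn F hF hU 𝒬 h𝒬 hNR G hGF hcov => ?_⟩
  have hn1 : n ≥ n₁ := (le_max_left _ _).trans hn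
  have hn2 : n ≥ n₂ := (le_max_right _ _).trans hn
  obtain ⟨P, hP, hP0⟩ : ∃ P : ℝ, P = 2 ^ n ∧ 0 < P := ⟨2 ^ n, rfl, by positivity⟩
  have hPP : (4 : ℝ) ^ n = P * P := by
    rw [hP, ← mul_pow]; norm_num
  have hPδ : 2 ≤ δ * P := by
    have h1 : (2 : ℝ) ^ n₂ ≤ 2 ^ n := pow_le_pow_right₀ (by norm_num) hn2
    have h2 : 2 / δ ≤ P := by rw [hP]; exact hn₂.le.trans h1
    rw [div_le_iff₀ hδ0] at h2
    linarith
  rw [hPP] at hU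
  rw [← hP] at hF
  rw [hPP, ← hP]
  obtain ⟨H, hUU, hHF, hun, hto⟩ := choice F G hGF
  -- `F` is large
  have hm : P ≤ (F.card : ℝ) := by
    by_contra hcon
    rw [not_le] at hcon
    have h1 : (ep H F F : ℝ) ≤ (F.card : ℝ) * F.card := by
      have : ep H F F ≤ F.card * F.card := by
        unfold ep
        refine (Finset.card_filter_le _ _).trans ?_
        rw [Finset.card_product]
      exact_mod_cast this
    have h2 : (F.card : ℝ) * F.card ≤ P * P :=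
      mul_le_mul hcon.le hcon.le (by positivity) hP0.le
    have h3 : P * 16 ≤ P * P := by
      refine mul_le_mul_of_nonneg_left ?_ hP0.le
      nlinarith
    have h4 : (1 - 1 / 4) * (P * P) ≤ (1 - γ) * (P * P) :=
      mul_le_mul_of_nonneg_right (by linarith) (by positivity)
    nlinarith [mul_pos hP0 hP0]
  have h𝒬' : (𝒬.card : ℝ) ≤ 2 ^ (γ₁ * n) :=
    h𝒬.trans (Real.rpow_le_rpow_of_exponent_le (by norm_num)
      (mul_le_mul_of_nonneg_right hγ1 (Nat.cast_nonneg n)))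
  have hc1 := hcells n hn1 F G 𝒬 H hUU (by rw [← hP]; exact hm) hGF hcov hNR h𝒬'
  obtain ⟨X, hXF, hX1, hX2, hX3⟩ := layers H F G hGF L hL1 hρ0 hρ1 hη'0 hc1
  have hX2' : (ep H X (F \ X) : ℝ) ≤ η' * (F.card : ℝ) ^ 2 := by
    refine hX2.trans (mul_le_mul_of_nonneg_right ?_ (by positivity))
    have hL0 : (0 : ℝ) < L := by exact_mod_cast hL1
    have : 1 / (L : ℝ) ≤ η' / 2 := by
      rw [div_le_iff₀ hL0]
      rw [div_le_iff₀ hη'0] at hL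
      linarith
    linarith
  have hX3' : (tri H (F \ X) : ℝ) ≤ 8 * η' ^ 2 * (F.card : ℝ) ^ 3 :=
    hX3.trans (mul_le_mul_of_nonneg_right hρη2 (by positivity))
  obtain ⟨c1, c2, c3⟩ := count H F G X hGF hXF hη'0.le hη'0 hX1 hX2' hX3'
  -- rescaling
  obtain ⟨M, hM⟩ : ∃ M : ℝ, (F.card : ℝ) = M * P := ⟨F.card / P, by field_simp⟩
  obtain ⟨x, hx⟩ : ∃ x : ℝ, (X.card : ℝ) = x * P := ⟨X.card / P, by field_simp⟩
  have hx0 : 0 ≤ x := by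
    have : (0 : ℝ) ≤ x * P := by rw [← hx]; positivity
    exact nonneg_of_mul_nonneg_left this hP0
  have hMc : M ≤ c := by
    rw [hM] at hF
    exact le_of_mul_le_mul_right hF hP0
  have hxM : x ≤ M := by
    have : (X.card : ℝ) ≤ F.card := by exact_mod_cast Finset.card_le_card hXF
    rw [hM, hx] at this
    exact le_of_mul_le_mul_right this hP0
  rw [hM] at c1 c2 c3 hun hto
  rw [hx] at c1 c2 c3
  have hMP : M * P ≤ δ * (P * P) := by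
    have h1 : M ≤ δ * P := by linarith
    calc M * P ≤ δ * P * P := mul_le_mul_of_nonneg_right h1 hP0.le
      _ = _ := by ring
  have hM2 : M ^ 2 ≤ 4 := by nlinarith
  have hsq : (M - x) ^ 2 ≤ (c - x) ^ 2 := pow_le_pow_left₀ (by linarith) (by linarith) 2
  have hPP0 : 0 < P * P := by positivity
  have k1 : (1 - γ) * (P * P) ≤
      (δ + (x ^ 2 / 2 + (M - x) ^ 2 / 4 + (η' + η') * M ^ 2)) * (P * P) := by
    calc _ ≤ _ := hU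
      _ ≤ _ := hun
      _ ≤ δ * (P * P) + ((x * P) ^ 2 / 2 + (M * P - x * P) ^ 2 / 4
          + (η' + η') * (M * P) ^ 2) := add_le_add hMP c1
      _ = _ := by ring
  have k2 := le_of_mul_le_mul_right k1 hPP0
  have k3 : (η' + η') * M ^ 2 ≤ (η' + η') * 4 := mul_le_mul_of_nonneg_left hM2 (by positivity)
  have hxbig : (c + 2 * D) / 3 - ζ ≤ x :=
    EM.num_x (c := c) (x := x) (y := 1 - e - (c - x) ^ 2 / 4) (η' := e) (ζ := ζ) hc hc2 hx0 hζ0 he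
      le_rfl (by linarith)
  have hy := EM.num_y (c := c) (x := x) (ζ := ζ) (η := η) (η' := η / 4) hc hc2 (hxM.trans hMc) hζ0
    hζ1 hζη le_rfl hxbig
  rw [← hD] at hy
  constructor
  · refine le_trans ?_ c3
    have h1 : η' * (M * P) ≤ η' * (2 * P) :=
      mul_le_mul_of_nonneg_left (mul_le_mul_of_nonneg_right (by linarith) hP0.le) hη'0.le
    have h2 : ((c + 2 * D) / 3 - η) * P ≤ (x - 2 * η') * P :=
      mul_le_mul_of_nonneg_right (by linarith) hP0.le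
    linarith
  · refine hto.trans ?_
    calc M * P + (et H F G : ℝ) / 2 ≤ δ * (P * P) + ((M * P - x * P) ^ 2 / 4
          + (2 * η' + η') * (M * P) ^ 2) := add_le_add hMP c2
      _ = (δ + (M - x) ^ 2 / 4 + (2 * η' + η') * M ^ 2) * (P * P) := by ring
      _ ≤ _ := by
          refine mul_le_mul_of_nonneg_right ?_ hPP0.le
          have h1 : (2 * η' + η') * M ^ 2 ≤ (2 * η' + η') * 4 :=
            mul_le_mul_of_nonneg_left hM2 (by positivity)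
          linarith


end EMS
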