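import Pool.Agent.Work.MP_2b8540_co.S.Defs

/-!
# Module S/Maxi (M)

Choose `U` maximising `t(U) / vol(U)^(1-β)` where `t(U) = (homs H E U).card`,
`vol(U) = ∏ i, |U i|`, over all `U` with `U i ⊆ A i`, `U i` nonempty (a finite nonempty set of
functions: `Fintype.piFinset fun i => (A i).powerset.filter (·.Nonempty)`, use
`Finset.exists_max_image`).

## Proof
* `t(U) ≤ vol(U)` (`homs ⊆ piFinset`).
* Comparison with `A`: `t(U) vol(U)^(-(1-β)) ≥ t(A) vol(A)^(-(1-β)) ≥ ρ vol(A)^β`.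
* `vol(U) ≤ vol(A)`, so `t(U) ≥ ρ vol(A)^β vol(U)^(1-β) ≥ ρ vol(U)`.
* `vol(U) ≥ t(U) ≥ ρ vol(A)^β vol(U)^(1-β)`, so `vol(U)^β ≥ ρ vol(A)^β`, i.e.
  `vol(U) ≥ ρ^(1/β) vol(A)`; since `|U l| ≤ |A l|` for `l ≠ i` this gives `|U i| ≥ ρ^(1/β) |A i|`.
* Last property: if all `U' i` are nonempty this is the maximality
  `t(U') / vol(U')^(1-β) ≤ t(U) / vol(U)^(1-β)` and `vol(U')/vol(U) = ∏ |U' i|/|U i|`; if some `U' i` is
  empty then `homs H E U' = ∅` and the left hand side is `0`.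
-/

open Finset

namespace EMS

private noncomputable def vol {α : Type*} {r : ℕ} (U : Fin r → Finset α) : ℝ :=
  ∏ i, ((U i).card : ℝ)

private theorem vol_pos {α : Type*} {r : ℕ} {U : Fin r → Finset α} (h : ∀ i, (U i).Nonempty) :
    0 < vol U :=
  Finset.prod_pos fun i _ => by exact_mod_cast (h i).card_pos

private theorem homs_le {α : Type*} (H : SimpleGraph α) {r : ℕ} (E : Finset (Fin r × Fin r))
    (U : Fin r → Finset α) : ((homs H E U).card : ℝ) ≤ vol U := by
  have h1 : (homs H E U).card ≤ (Fintype.piFinset U).card :=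
    Finset.card_le_card (fun f hf => Fintype.mem_piFinset.2 (mem_homs.1 hf).1)
  rw [Fintype.card_piFinset] at h1
  unfold vol
  exact_mod_cast h1

theorem maxi {α : Type*} (H : SimpleGraph α) {r : ℕ} (E : Finset (Fin r × Fin r))
    (A : Fin r → Finset α) {ρ β : ℝ} (hρ : 0 < ρ) (hβ0 : 0 < β) (hβ1 : β < 1)
    (hA : ∀ i, (A i).Nonempty)
    (h : ρ * ∏ i, ((A i).card : ℝ) ≤ ((homs H E A).card : ℝ)) :
    ∃ U : Fin r → Finset α, (∀ i, U i ⊆ A i) ∧ (∀ i, (U i).Nonempty) ∧
      (∀ i, ρ ^ (1 / β) * ((A i).card : ℝ) ≤ ((U i).card : ℝ)) ∧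
      ρ * ∏ i, ((U i).card : ℝ) ≤ ((homs H E U).card : ℝ) ∧
      ∀ U' : Fin r → Finset α, (∀ i, U' i ⊆ U i) →
        ((homs H E U').card : ℝ) ≤
          ((homs H E U).card : ℝ) * (∏ i, (((U' i).card : ℝ) / ((U i).card : ℝ))) ^ (1 - β) := by
  classical
  set s : ℝ := 1 - β with hs
  have hs0 : 0 < s := by rw [hs]; linarith
  set T : (Fin r → Finset α) → ℝ := fun U => ((homs H E U).card : ℝ) with hT
  let S : Finset (Fin r → Finset α) := Fintype.piFinset fun i => (A i).powerset.filter (·.Nonempty)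
  have hS : ∀ U : Fin r → Finset α, U ∈ S ↔ (∀ i, U i ⊆ A i) ∧ ∀ i, (U i).Nonempty := by
    intro U
    simp only [S, Fintype.mem_piFinset, Finset.mem_filter, Finset.mem_powerset]
    exact ⟨fun h => ⟨fun i => (h i).1, fun i => (h i).2⟩, fun h i => ⟨h.1 i, h.2 i⟩⟩
  have hAS : A ∈ S := (hS A).2 ⟨fun i => Finset.Subset.refl _, hA⟩
  obtain ⟨U, hU, hmax⟩ := Finset.exists_max_image S (fun U => T U / vol U ^ s) ⟨A, hAS⟩
  obtain ⟨hUA, hUn⟩ := (hS U).1 hU
  have hvA : 0 < vol A := vol_pos hA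
  have hvU : 0 < vol U := vol_pos hUn
  have hvUs : 0 < vol U ^ s := Real.rpow_pos_of_pos hvU _
  have hvAs : 0 < vol A ^ s := Real.rpow_pos_of_pos hvA _
  have hAA : vol A ^ s * vol A ^ β = vol A := by
    rw [← Real.rpow_add hvA, hs, sub_add_cancel, Real.rpow_one]
  have hUU : vol U ^ s * vol U ^ β = vol U := by
    rw [← Real.rpow_add hvU, hs, sub_add_cancel, Real.rpow_one]
  have hb : ρ * vol A ^ β ≤ T A / vol A ^ s := by
    rw [le_div_iff₀ hvAs]
    calc ρ * vol A ^ β * vol A ^ s = ρ * (vol A ^ s * vol A ^ β) := by ring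
      _ = ρ * vol A := by rw [hAA]
      _ ≤ T A := h
  have hc : ρ * vol A ^ β * vol U ^ s ≤ T U := by
    rw [← le_div_iff₀ hvUs]
    exact le_trans hb (hmax A hAS)
  have hvUA : vol U ≤ vol A := by
    unfold vol
    refine Finset.prod_le_prod (fun i _ => Nat.cast_nonneg _) (fun i _ => ?_)
    exact_mod_cast Finset.card_le_card (hUA i)
  have hd : ρ * vol U ≤ T U := by
    refine le_trans ?_ hc
    have h1 : vol U ^ β ≤ vol A ^ β := Real.rpow_le_rpow hvU.le hvUA hβ0.le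
    calc ρ * vol U = ρ * vol U ^ β * vol U ^ s := by
          rw [mul_assoc, mul_comm (vol U ^ β), hUU]
      _ ≤ ρ * vol A ^ β * vol U ^ s := by
          apply mul_le_mul_of_nonneg_right _ hvUs.le
          exact mul_le_mul_of_nonneg_left h1 hρ.le
  have he : ρ ^ (1 / β) * vol A ≤ vol U := by
    have h1 : ρ * vol A ^ β ≤ vol U ^ β := by
      have h2 : ρ * vol A ^ β * vol U ^ s ≤ vol U ^ β * vol U ^ s := by
        rw [mul_comm (vol U ^ β), hUU]
        exact le_trans hc (homs_le H E U)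
      exact le_of_mul_le_mul_right h2 hvUs
    have h3 : (ρ * vol A ^ β) ^ (1 / β) ≤ (vol U ^ β) ^ (1 / β) :=
      Real.rpow_le_rpow (by positivity) h1 (by positivity)
    rw [Real.mul_rpow hρ.le (by positivity), ← Real.rpow_mul hvA.le, ← Real.rpow_mul hvU.le,
      mul_one_div_cancel hβ0.ne', Real.rpow_one, Real.rpow_one] at h3
    exact h3
  refine ⟨U, hUA, hUn, ?_, hd, ?_⟩
  · intro i
    have hP : 0 < ∏ l ∈ Finset.univ.erase i, ((A l).card : ℝ) :=
      Finset.prod_pos fun l _ => by exact_mod_cast (hA l).card_pos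
    have h1 : vol A = ((A i).card : ℝ) * ∏ l ∈ Finset.univ.erase i, ((A l).card : ℝ) :=
      (Finset.mul_prod_erase _ _ (Finset.mem_univ i)).symm
    have h2 : vol U ≤ ((U i).card : ℝ) * ∏ l ∈ Finset.univ.erase i, ((A l).card : ℝ) := by
      have h3 : vol U = ((U i).card : ℝ) * ∏ l ∈ Finset.univ.erase i, ((U l).card : ℝ) :=
        (Finset.mul_prod_erase _ _ (Finset.mem_univ i)).symm
      rw [h3]
      refine mul_le_mul_of_nonneg_left ?_ (Nat.cast_nonneg _)
      refine Finset.prod_le_prod (fun l _ => Nat.cast_nonneg _) (fun l _ => ?_)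
      exact_mod_cast Finset.card_le_card (hUA l)
    refine le_of_mul_le_mul_right ?_ hP
    calc ρ ^ (1 / β) * ((A i).card : ℝ) * ∏ l ∈ Finset.univ.erase i, ((A l).card : ℝ)
        = ρ ^ (1 / β) * vol A := by rw [h1]; ring
      _ ≤ vol U := he
      _ ≤ _ := h2
  · intro U' hU'
    by_cases hne : ∀ i, (U' i).Nonempty
    · have hU'S : U' ∈ S := (hS U').2 ⟨fun i => (hU' i).trans (hUA i), hne⟩
      have hv' : 0 < vol U' := vol_pos hne
      have h1 : T U' / vol U' ^ s ≤ T U / vol U ^ s := hmax U' hU'S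
      have h2 : (∏ i, (((U' i).card : ℝ) / ((U i).card : ℝ))) = vol U' / vol U := by
        rw [Finset.prod_div_distrib]
        rfl
      rw [h2, Real.div_rpow hv'.le hvU.le]
      rw [div_le_iff₀ (Real.rpow_pos_of_pos hv' _)] at h1
      calc T U' ≤ T U / vol U ^ s * vol U' ^ s := h1
        _ = T U * (vol U' ^ s / vol U ^ s) := by ring
    · obtain ⟨i, hi0⟩ := not_forall.1 hne
      have hi : U' i = ∅ := Finset.not_nonempty_iff_eq_empty.1 hi0
      have h1 : homs H E U' = ∅ := by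
        rw [Finset.eq_empty_iff_forall_notMem]
        intro f hf
        have h2 := (mem_homs.1 hf).1 i
        rw [hi] at h2
        exact absurd h2 (Finset.notMem_empty _)
      rw [h1, Finset.card_empty, Nat.cast_zero]
      have h2 : (0 : ℝ) ≤ ∏ i, (((U' i).card : ℝ) / ((U i).card : ℝ)) :=
        Finset.prod_nonneg fun l _ => div_nonneg (Nat.cast_nonneg _) (Nat.cast_nonneg _)
      exact mul_nonneg (Nat.cast_nonneg _) (Real.rpow_nonneg h2 _)

end EMS
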