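import Pool.Agent.Work.MP_2b8540_co.S.Trace

/-!
# Module S/Narrow1 (M-L): counting with residual families

Uses only the definition `pt` of S/Trace.

## Proof
One step (`narrow_step`): `X ⊆ X'`, `D = X' \ X`, `V(a) = |residual P X (a ∩ X)|`,
`V'(a) = |residual P X' (a ∩ X')|` for `a ∈ U ⊆ P`; these numbers are `≥ 1` (`a \ X` belongs to the
first family). For `a ∈ U` let `s_a = residual P X (a ∩ X)` (a family) and `x_a = a ∩ D`.
* `V'(a)` depends only on `(s_a, x_a)`: `residual P X' (a ∩ X') = {b \ D | b ∈ s_a, b ∩ D = x_a}`; write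
  `V'(s,x) = #{b ∈ s | b ∩ D = x}` (the map `b ↦ b \ D` is injective on the `b` with `b ∩ D = x`). So
  `∑_{x ⊆ D} V'(s,x) = |s| = V`.
* For a family `s` and `x ⊆ D` let `p(s) = #{a ∈ U | s_a = s}/|U|`,
  `p(s,x) = #{a ∈ U | s_a = s, x_a = x}/|U|`, `p(x) = #{a ∈ U | x_a = x}/|U| = pt U D x`.
* By Jensen (concavity of `log`, average over `a ∈ U`)
  `(1/|U|) ∑_a log( V'(a) p(s_a) / (V(a) p(s_a,x_a)) ) ≤ log( (1/|U|) ∑_a V'(a) p(s_a)/(V(a) p(s_a,x_a)) )`
  and the inner sum is `∑_{(s,x), p(s,x) > 0} p(s) V'(s,x)/|s| ≤ ∑_s p(s) = 1`. Hence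
  `(1/|U|) ∑_a log V(a) ≥ (1/|U|) ∑_a log V'(a) + (1/|U|) ∑_a (log p(s_a) - log p(s_a,x_a))`.
* `- log p(s_a,x_a) ≥ - log p(x_a)`, and `(1/|U|) ∑_a - log p(x_a) = ∑_{x ⊆ D} negMulLog (pt U D x)`.
* `(1/|U|) ∑_a log p(s_a) ≥ - log w`, `w = width P X ≥ #{s_a | a ∈ U}`: Jensen again,
  `(1/|U|) ∑_a log(1/(w p(s_a))) ≤ log( ∑_{s : p(s) > 0} p(s)/(w p(s)) ) ≤ log 1 = 0`.
So `(1/|U|)∑ log V ≥ (1/|U|)∑ log V' + ∑_{x ⊆ D} negMulLog (pt U D x) - log w`.
Theorem: sum over the steps `j < r`; at `X 0 = ∅` all `V = |P|`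
(`residual P ∅ ∅ = P`), at `X r = univ` all `V = 1`.
-/

open Finset

namespace EMS

/-- number of `a ∈ U` with `g a = b` -/
private noncomputable def cn {α κ : Type*} [DecidableEq κ] (U : Finset α) (g : α → κ) (b : κ) : ℝ :=
  ((U.filter fun a => g a = b).card : ℝ)

private lemma cn_nonneg {α κ : Type*} [DecidableEq κ] (U : Finset α) (g : α → κ) (b : κ) :
    0 ≤ cn U g b := by
  unfold cn
  positivity

private lemma cn_pos {α κ : Type*} [DecidableEq κ] (U : Finset α) (g : α → κ) {a : α}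
    (ha : a ∈ U) : 0 < cn U g (g a) := by
  unfold cn
  have : (U.filter fun b => g b = g a).Nonempty := ⟨a, Finset.mem_filter.2 ⟨ha, rfl⟩⟩
  exact_mod_cast Finset.card_pos.2 this

private lemma sum_cn {α κ : Type*} [DecidableEq κ] (U : Finset α) (g : α → κ) (f : κ → ℝ) :
    ∑ a ∈ U, f (g a) = ∑ b ∈ U.image g, cn U g b * f b := by
  rw [Finset.sum_comp f g]
  refine Finset.sum_congr rfl fun b _ => ?_
  rw [nsmul_eq_mul]
  rfl

private lemma sum_cn_one {α κ : Type*} [DecidableEq κ] (U : Finset α) (g : α → κ) :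
    ∑ b ∈ U.image g, cn U g b = (U.card : ℝ) := by
  have h := sum_cn U g (fun _ => 1)
  simp only [mul_one] at h
  rw [← h, Finset.sum_const, nsmul_eq_mul, mul_one]

private lemma sum_log_le {α : Type*} (U : Finset α) (y : α → ℝ) (hy : ∀ a ∈ U, 0 < y a)
    (h : ∑ a ∈ U, y a ≤ (U.card : ℝ)) : ∑ a ∈ U, Real.log (y a) ≤ 0 := by
  have h1 : ∑ a ∈ U, Real.log (y a) ≤ ∑ a ∈ U, (y a - 1) :=
    Finset.sum_le_sum fun a ha => Real.log_le_sub_one_of_pos (hy a ha)
  rw [Finset.sum_sub_distrib, Finset.sum_const, nsmul_eq_mul, mul_one] at h1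
  linarith

private lemma L1 {α σ ξ : Type*} [DecidableEq σ] [DecidableEq ξ] (U : Finset α) (s : α → σ)
    (x : α → ξ) (Q : Finset ξ) (hx : ∀ a ∈ U, x a ∈ Q) (W : σ → ξ → ℝ)
    (hW0 : ∀ t y, 0 ≤ W t y) (V : σ → ℝ) (hV : ∀ a ∈ U, 0 < V (s a))
    (hWV : ∀ a ∈ U, ∑ y ∈ Q, W (s a) y ≤ V (s a)) (hWp : ∀ a ∈ U, 0 < W (s a) (x a)) :
    ∑ a ∈ U, (Real.log (W (s a) (x a)) - Real.log (V (s a)) + Real.log (cn U s (s a)) -
      Real.log (cn U (fun b => (s b, x b)) (s a, x a))) ≤ 0 := by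
  set c' := cn U (fun b => (s b, x b)) with hc'
  have hc'p : ∀ a ∈ U, 0 < c' (s a, x a) := fun a ha => cn_pos U (fun b => (s b, x b)) ha
  have e1 : ∀ a ∈ U, Real.log (W (s a) (x a)) - Real.log (V (s a)) + Real.log (cn U s (s a)) -
      Real.log (c' (s a, x a)) =
      Real.log (W (s a) (x a) * cn U s (s a) / (V (s a) * c' (s a, x a))) := by
    intro a ha
    rw [Real.log_div (mul_pos (hWp a ha) (cn_pos U s ha)).ne'
      (mul_pos (hV a ha) (hc'p a ha)).ne', Real.log_mul (hWp a ha).ne' (cn_pos U s ha).ne',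
      Real.log_mul (hV a ha).ne' (hc'p a ha).ne']
    ring
  rw [Finset.sum_congr rfl e1]
  refine sum_log_le U _ (fun a ha => div_pos (mul_pos (hWp a ha) (cn_pos U s ha))
    (mul_pos (hV a ha) (hc'p a ha))) ?_
  have e2 := sum_cn U (fun b => (s b, x b))
    (fun z => W z.1 z.2 * cn U s z.1 / (V z.1 * c' z))
  have e3 : ∑ a ∈ U, W (s a) (x a) * cn U s (s a) / (V (s a) * c' (s a, x a)) =
      ∑ z ∈ U.image (fun b => (s b, x b)), c' z * (W z.1 z.2 * cn U s z.1 / (V z.1 * c' z)) := e2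
  rw [e3]
  have e4 : ∀ z ∈ U.image (fun b => (s b, x b)),
      c' z * (W z.1 z.2 * cn U s z.1 / (V z.1 * c' z)) = cn U s z.1 / V z.1 * W z.1 z.2 := by
    intro z hz
    obtain ⟨a, ha, rfl⟩ := Finset.mem_image.1 hz
    have h1 := (hV a ha).ne'
    have h2 := (hc'p a ha).ne'
    show c' (s a, x a) * (W (s a) (x a) * cn U s (s a) / (V (s a) * c' (s a, x a))) =
      cn U s (s a) / V (s a) * W (s a) (x a)
    field_simp
  rw [Finset.sum_congr rfl e4]
  have hsub : U.image (fun b => (s b, x b)) ⊆ (U.image s) ×ˢ Q := by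
    intro z hz
    obtain ⟨a, ha, rfl⟩ := Finset.mem_image.1 hz
    exact Finset.mem_product.2 ⟨Finset.mem_image_of_mem s ha, hx a ha⟩
  have hVi : ∀ t ∈ U.image s, 0 < V t := by
    intro t ht
    obtain ⟨a, ha, rfl⟩ := Finset.mem_image.1 ht
    exact hV a ha
  have h5 : ∑ z ∈ U.image (fun b => (s b, x b)), cn U s z.1 / V z.1 * W z.1 z.2 ≤
      ∑ z ∈ (U.image s) ×ˢ Q, cn U s z.1 / V z.1 * W z.1 z.2 := by
    refine Finset.sum_le_sum_of_subset_of_nonneg hsub fun z hz _ => ?_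
    exact mul_nonneg (div_nonneg (cn_nonneg _ _ _) (hVi z.1 (Finset.mem_product.1 hz).1).le)
      (hW0 _ _)
  refine h5.trans ?_
  rw [Finset.sum_product]
  have h6 : ∀ t ∈ U.image s, ∑ y ∈ Q, cn U s t / V t * W t y ≤ cn U s t := by
    intro t ht
    rw [← Finset.mul_sum]
    have h7 : ∑ y ∈ Q, W t y ≤ V t := by
      obtain ⟨a, ha, rfl⟩ := Finset.mem_image.1 ht
      exact hWV a ha
    refine (mul_le_mul_of_nonneg_left h7 (div_nonneg (cn_nonneg _ _ _) (hVi t ht).le)).trans ?_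
    rw [div_mul_cancel₀ _ (hVi t ht).ne']
  refine (Finset.sum_le_sum h6).trans ?_
  rw [sum_cn_one]

private lemma L2 {α σ : Type*} [DecidableEq σ] (U : Finset α) (hU : U.Nonempty) (s : α → σ)
    (w : ℝ) (hw : ((U.image s).card : ℝ) ≤ w) :
    ∑ a ∈ U, (Real.log (U.card : ℝ) - Real.log (cn U s (s a)) - Real.log w) ≤ 0 := by
  have hu : 0 < (U.card : ℝ) := by exact_mod_cast Finset.card_pos.2 hU
  have hw0 : 0 < w := by
    refine lt_of_lt_of_le ?_ hw
    exact_mod_cast Finset.card_pos.2 (hU.image s)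
  have e1 : ∀ a ∈ U, Real.log (U.card : ℝ) - Real.log (cn U s (s a)) - Real.log w =
      Real.log ((U.card : ℝ) / (cn U s (s a) * w)) := by
    intro a ha
    rw [Real.log_div hu.ne' (mul_pos (cn_pos U s ha) hw0).ne',
      Real.log_mul (cn_pos U s ha).ne' hw0.ne']
    ring
  rw [Finset.sum_congr rfl e1]
  refine sum_log_le U _ (fun a ha => div_pos hu (mul_pos (cn_pos U s ha) hw0)) ?_
  have e2 := sum_cn U s (fun t => (U.card : ℝ) / (cn U s t * w))
  rw [e2]
  have e3 : ∀ t ∈ U.image s, cn U s t * ((U.card : ℝ) / (cn U s t * w)) = (U.card : ℝ) / w := by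
    intro t ht
    obtain ⟨a, ha, rfl⟩ := Finset.mem_image.1 ht
    have h1 := (cn_pos U s ha).ne'
    field_simp
  rw [Finset.sum_congr rfl e3, Finset.sum_const, nsmul_eq_mul, ← mul_div_assoc,
    div_le_iff₀ hw0, mul_comm]
  exact mul_le_mul_of_nonneg_left hw hu.le

private lemma L3 {α σ ξ : Type*} [DecidableEq σ] [DecidableEq ξ] (U : Finset α) (s : α → σ)
    (x : α → ξ) :
    ∑ a ∈ U, (Real.log (cn U (fun b => (s b, x b)) (s a, x a)) - Real.log (cn U x (x a))) ≤ 0 := by
  refine Finset.sum_nonpos fun a ha => ?_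
  have h1 : 0 < cn U (fun b => (s b, x b)) (s a, x a) := cn_pos U (fun b => (s b, x b)) ha
  have h2 : cn U (fun b => (s b, x b)) (s a, x a) ≤ cn U x (x a) := by
    unfold cn
    have : (U.filter fun b => (s b, x b) = (s a, x a)) ⊆ U.filter fun b => x b = x a := by
      intro b hb
      rw [Finset.mem_filter] at hb ⊢
      exact ⟨hb.1, (Prod.ext_iff.1 hb.2).2⟩
    exact_mod_cast Finset.card_le_card this
  have := Real.log_le_log h1 h2
  linarith

private lemma L4 {α ξ : Type*} [DecidableEq ξ] (U : Finset α) (hU : U.Nonempty) (x : α → ξ)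
    (Q : Finset ξ) (hx : ∀ a ∈ U, x a ∈ Q) :
    ∑ y ∈ Q, Real.negMulLog (cn U x y / (U.card : ℝ)) =
      (∑ a ∈ U, (Real.log (U.card : ℝ) - Real.log (cn U x (x a)))) / (U.card : ℝ) := by
  have hu : 0 < (U.card : ℝ) := by exact_mod_cast Finset.card_pos.2 hU
  have e2 := sum_cn U x (fun y => Real.log (U.card : ℝ) - Real.log (cn U x y))
  rw [e2]
  have hsub : U.image x ⊆ Q := by
    intro y hy
    obtain ⟨a, ha, rfl⟩ := Finset.mem_image.1 hy
    exact hx a ha
  rw [← Finset.sum_subset hsub, Finset.sum_div]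
  · refine Finset.sum_congr rfl fun y hy => ?_
    obtain ⟨a, ha, rfl⟩ := Finset.mem_image.1 hy
    have h1 := cn_pos U x ha
    rw [Real.negMulLog, Real.log_div h1.ne' hu.ne']
    ring
  · intro y _ hy
    have h0 : cn U x y = 0 := by
      unfold cn
      rw [Nat.cast_eq_zero, Finset.card_eq_zero, Finset.filter_eq_empty_iff]
      intro a ha h
      exact hy (Finset.mem_image.2 ⟨a, ha, h⟩)
    rw [h0, zero_div, Real.negMulLog_zero]

private lemma mem_residual {N : ℕ} {P : Finset (Finset (Fin N))} {X a b : Finset (Fin N)} :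
    b ∈ residual P X a ↔ ∃ c ∈ P, c ∩ X = a ∧ c \ X = b := by
  unfold residual
  simp only [Finset.mem_image, Finset.mem_filter]
  constructor
  · rintro ⟨c, ⟨h1, h2⟩, h3⟩
    exact ⟨c, h1, h2, h3⟩
  · rintro ⟨c, h1, h2, h3⟩
    exact ⟨c, ⟨h1, h2⟩, h3⟩

private lemma card_residual {N : ℕ} (P : Finset (Finset (Fin N))) (X X' : Finset (Fin N))
    (hX : X ⊆ X') (a : Finset (Fin N)) :
    (residual P X' (a ∩ X')).card =
      ((residual P X (a ∩ X)).filter fun b => b ∩ (X' \ X) = a ∩ (X' \ X)).card := by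
  symm
  refine Finset.card_bij (fun b _ => b \ (X' \ X)) ?_ ?_ ?_
  · intro b hb
    rw [Finset.mem_filter, mem_residual] at hb
    obtain ⟨⟨c, hc, h1, rfl⟩, h2⟩ := hb
    rw [mem_residual]
    refine ⟨c, hc, ?_, ?_⟩
    · ext i
      have e1 := Finset.ext_iff.1 h1 i
      have e2 := Finset.ext_iff.1 h2 i
      have e3 := @hX i
      simp only [Finset.mem_inter, Finset.mem_sdiff] at e1 e2 ⊢
      tauto
    · ext i
      have e3 := @hX i
      simp only [Finset.mem_sdiff]
      tauto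
  · intro b hb b' hb' h
    rw [Finset.mem_filter] at hb hb'
    have h2 : b ∩ (X' \ X) = b' ∩ (X' \ X) := hb.2.trans hb'.2.symm
    rw [← Finset.sdiff_union_inter b (X' \ X), ← Finset.sdiff_union_inter b' (X' \ X), h2]
    exact congrArg (fun t => t ∪ b' ∩ (X' \ X)) h
  · intro b hb
    rw [mem_residual] at hb
    obtain ⟨c, hc, h1, rfl⟩ := hb
    refine ⟨c \ X, ?_, ?_⟩
    · rw [Finset.mem_filter, mem_residual]
      refine ⟨⟨c, hc, ?_, rfl⟩, ?_⟩
      · ext i
        have e1 := Finset.ext_iff.1 h1 i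
        have e3 := @hX i
        simp only [Finset.mem_inter] at e1 ⊢
        tauto
      · ext i
        have e1 := Finset.ext_iff.1 h1 i
        have e3 := @hX i
        simp only [Finset.mem_inter, Finset.mem_sdiff] at e1 ⊢
        tauto
    · ext i
      have e3 := @hX i
      simp only [Finset.mem_sdiff]
      tauto

private lemma residual_pos {N : ℕ} {P : Finset (Finset (Fin N))} (X : Finset (Fin N))
    {a : Finset (Fin N)} (ha : a ∈ P) : 0 < (residual P X (a ∩ X)).card :=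
  Finset.card_pos.2 ⟨a \ X, mem_residual.2 ⟨a, ha, rfl, rfl⟩⟩

theorem narrow_step {N : ℕ} (P U : Finset (Finset (Fin N))) (hU : U.Nonempty) (hUP : U ⊆ P)
    (X X' : Finset (Fin N)) (hX : X ⊆ X') :
    (∑ a ∈ U, Real.log (residual P X' (a ∩ X')).card) / (U.card : ℝ) +
        ∑ x ∈ (X' \ X).powerset, Real.negMulLog (pt U (X' \ X) x) - Real.log (width P X) ≤
      (∑ a ∈ U, Real.log (residual P X (a ∩ X)).card) / (U.card : ℝ) := by
  classical
  have hu : 0 < (U.card : ℝ) := by exact_mod_cast Finset.card_pos.2 hU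
  set D := X' \ X with hD
  let s : Finset (Fin N) → Finset (Finset (Fin N)) := fun a => residual P X (a ∩ X)
  let x : Finset (Fin N) → Finset (Fin N) := fun a => a ∩ D
  let W : Finset (Finset (Fin N)) → Finset (Fin N) → ℝ := fun t y =>
    ((t.filter fun b => b ∩ D = y).card : ℝ)
  let V : Finset (Finset (Fin N)) → ℝ := fun t => (t.card : ℝ)
  have hx : ∀ a ∈ U, x a ∈ D.powerset := fun a _ =>
    Finset.mem_powerset.2 Finset.inter_subset_right
  have hWV' : ∀ t : Finset (Finset (Fin N)), ∑ y ∈ D.powerset, W t y = V t := by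
    intro t
    have h := Finset.card_eq_sum_card_fiberwise (s := t) (t := D.powerset)
      (f := fun b => b ∩ D) (fun b _ => Finset.mem_coe.2
        (Finset.mem_powerset.2 Finset.inter_subset_right))
    show ∑ y ∈ D.powerset, ((t.filter fun b => b ∩ D = y).card : ℝ) = (t.card : ℝ)
    rw [h]
    push_cast
    rfl
  have hWe : ∀ a, W (s a) (x a) = ((residual P X' (a ∩ X')).card : ℝ) := by
    intro a
    rw [card_residual P X X' hX a]
  have h1 := L1 U s x D.powerset hx W (fun t y => Nat.cast_nonneg _) V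
    (fun a ha => Nat.cast_pos.2 (residual_pos X (hUP ha)))
    (fun a _ => (hWV' _).le)
    (fun a ha => by rw [hWe]; exact_mod_cast residual_pos X' (hUP ha))
  have h2 := L2 U hU s (width P X : ℝ) (by
    unfold width
    have : U.image s ⊆ P.image fun c => residual P X (c ∩ X) := Finset.image_subset_image hUP
    exact_mod_cast Finset.card_le_card this)
  have h3 := L3 U s x
  have h4 := L4 U hU x D.powerset hx
  have h5 : ∑ y ∈ D.powerset, Real.negMulLog (pt U D y) =
      (∑ a ∈ U, (Real.log (U.card : ℝ) - Real.log (cn U x (x a)))) / (U.card : ℝ) := h4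
  rw [h5]
  have h6 : (∑ a ∈ U, Real.log ((residual P X' (a ∩ X')).card : ℝ)) =
      ∑ a ∈ U, Real.log (W (s a) (x a)) :=
    Finset.sum_congr rfl fun a _ => by rw [hWe]
  have h7 : (∑ a ∈ U, Real.log ((residual P X (a ∩ X)).card : ℝ)) =
      ∑ a ∈ U, Real.log (V (s a)) := rfl
  rw [h6, h7]
  have h8 : ∑ a ∈ U, Real.log (width P X : ℝ) = (U.card : ℝ) * Real.log (width P X : ℝ) := by
    rw [Finset.sum_const, nsmul_eq_mul]
  simp only [Finset.sum_sub_distrib, Finset.sum_add_distrib] at h1 h2 h3 ⊢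
  rw [h8] at h2
  have h9 : Real.log (width P X : ℝ) = (U.card : ℝ) * Real.log (width P X : ℝ) / (U.card : ℝ) := by
    field_simp
  rw [h9, ← add_div, ← sub_div, div_le_div_iff_of_pos_right hu]
  linarith

theorem narrow_sum {N : ℕ} (P U : Finset (Finset (Fin N))) (hU : U.Nonempty) (hUP : U ⊆ P)
    (r : ℕ) (X : ℕ → Finset (Fin N)) (h0 : X 0 = ∅) (hr : X r = univ)
    (hX : ∀ j < r, X j ⊆ X (j + 1)) :
    ∑ j ∈ range r, ∑ x ∈ (X (j + 1) \ X j).powerset,
        Real.negMulLog (pt U (X (j + 1) \ X j) x) ≤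
      Real.log ((P.card : ℝ) * ∏ j ∈ range r, (width P (X j) : ℝ)) := by
  classical
  have hu : 0 < (U.card : ℝ) := by exact_mod_cast Finset.card_pos.2 hU
  have hP : P.Nonempty := hU.mono hUP
  have hP0 : (P.card : ℝ) ≠ 0 := by exact_mod_cast (Finset.card_pos.2 hP).ne'
  have hw : ∀ j, (width P (X j) : ℝ) ≠ 0 := by
    intro j
    have : 0 < width P (X j) := Finset.card_pos.2 (hP.image _)
    exact_mod_cast this.ne'
  let A : ℕ → ℝ := fun j =>
    (∑ a ∈ U, Real.log ((residual P (X j) (a ∩ X j)).card : ℝ)) / (U.card : ℝ)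
  have hstep : ∀ m ≤ r, A m + ∑ j ∈ range m, ∑ x ∈ (X (j + 1) \ X j).powerset,
        Real.negMulLog (pt U (X (j + 1) \ X j) x) ≤
      A 0 + ∑ j ∈ range m, Real.log (width P (X j) : ℝ) := by
    intro m
    induction m with
    | zero =>
      intro _
      rw [Finset.sum_range_zero, Finset.sum_range_zero]
    | succ m ih =>
      intro hm
      have h1 := ih (by omega)
      have h2 := narrow_step P U hU hUP (X m) (X (m + 1)) (hX m (by omega))
      have h3 : A (m + 1) + ∑ x ∈ (X (m + 1) \ X m).powerset,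
        Real.negMulLog (pt U (X (m + 1) \ X m) x) - Real.log (width P (X m) : ℝ) ≤ A m := h2
      rw [Finset.sum_range_succ, Finset.sum_range_succ]
      linarith
  have h1 := hstep r le_rfl
  have hA0 : A 0 = Real.log (P.card : ℝ) := by
    have h2 : ∀ a ∈ U, Real.log ((residual P (X 0) (a ∩ X 0)).card : ℝ) =
        Real.log (P.card : ℝ) := by
      intro a _
      have h3 : residual P (X 0) (a ∩ X 0) = P := by
        ext b
        rw [mem_residual, h0]
        constructor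
        · rintro ⟨c, hc, -, h4⟩
          rw [Finset.sdiff_empty] at h4
          rw [← h4]
          exact hc
        · intro hb
          exact ⟨b, hb, by rw [Finset.inter_empty, Finset.inter_empty], Finset.sdiff_empty⟩
      rw [h3]
    show (∑ a ∈ U, Real.log ((residual P (X 0) (a ∩ X 0)).card : ℝ)) / (U.card : ℝ) = _
    rw [Finset.sum_congr rfl h2, Finset.sum_const, nsmul_eq_mul]
    field_simp
  have hAr : 0 ≤ A r := by
    refine div_nonneg (Finset.sum_nonneg fun a ha => ?_) hu.le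
    exact Real.log_natCast_nonneg _
  rw [Real.log_mul hP0 (Finset.prod_ne_zero_iff.2 fun j _ => hw j),
    Real.log_prod (fun j _ => hw j), ← hA0]
  linarith

end EMS
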