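import Pool.Agent.Work.MP_2b8540_co.S.Defs

/-!
# Module S/Trace (M): from avoidance probabilities to traces

`pt U T w` = proportion of the members `a` of `U` with `a ∩ T = w`;
`bt T w = q^|T \ w| (1-q)^|w|`, the probability that a random set of density `1-q` has this trace.

## Proof
* `trace_sum` (inclusion-exclusion): for `w ⊆ T`,
  `1[a ∩ T = w] = 1[a disjoint from T \ w] · ∏_{i ∈ w} (1 - 1[i ∉ a])
   = ∑_{w' ⊆ w} (-1)^|w'| 1[a disjoint from (T \ w) ∪ w']`. Average over `a ∈ U`:
  `pt U T w = ∑_{w' ⊆ w} (-1)^|w'| av U ((T \ w) ∪ w')`. Likewise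
  `bt T w = q^|T\w| (1-q)^|w| = ∑_{w' ⊆ w} (-1)^|w'| q^|(T\w) ∪ w'|` (binomial theorem, the union is
  disjoint). Subtract.
* `exists_sub`: let `T'` be the subset of `T` for which `|av U T' - q^|T'||` is largest. All sets
  `(T\w) ∪ w'` are subsets of `T` and there are at most `2^|T|` of them.
* `exists_sys`: apply `exists_sub` to every `T i` (choose `T' i`, the same for all `w ⊆ T i`): the `T' i`
  form again a system. (`T' i` = maximiser of `|av U S - q^|S||` over `S ⊆ T i`.)
-/

open Finset

namespace EMS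

/-- proportion of the members of `U` with trace `w` on `T` -/
noncomputable def pt {N : ℕ} (U : Finset (Finset (Fin N))) (T w : Finset (Fin N)) : ℝ :=
  ((U.filter fun a => a ∩ T = w).card : ℝ) / (U.card : ℝ)

/-- probability of the trace `w` on `T` for a random set of density `1 - q` -/
noncomputable def bt {N : ℕ} (T w : Finset (Fin N)) : ℝ :=
  q ^ (T \ w).card * (1 - q) ^ w.card

private theorem trace_ind {N : ℕ} (a T w : Finset (Fin N)) (hw : w ⊆ T) :
    (if a ∩ T = w then (1 : ℝ) else 0) =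
      ∑ w' ∈ w.powerset, (-1) ^ w'.card * (if Disjoint a ((T \ w) ∪ w') then 1 else 0) := by
  by_cases h : Disjoint a (T \ w)
  · have h1 : a ∩ T = w ↔ w \ a = ∅ := by
      rw [Finset.sdiff_eq_empty_iff_subset]
      constructor
      · intro h2 x hx
        rw [← h2] at hx
        exact (Finset.mem_inter.1 hx).1
      · intro h2
        ext x
        rw [Finset.mem_inter]
        constructor
        · rintro ⟨h3, h4⟩
          by_contra h5
          exact (Finset.disjoint_left.1 h) h3 (Finset.mem_sdiff.2 ⟨h4, h5⟩)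
        · intro h3
          exact ⟨h2 h3, hw h3⟩
    have h2 : ∑ w' ∈ w.powerset, (-1 : ℝ) ^ w'.card *
        (if Disjoint a ((T \ w) ∪ w') then 1 else 0) =
        ∑ w' ∈ (w \ a).powerset, (-1 : ℝ) ^ w'.card := by
      have h3 : (w \ a).powerset ⊆ w.powerset := Finset.powerset_mono.2 Finset.sdiff_subset
      rw [← Finset.sum_subset h3]
      · refine Finset.sum_congr rfl fun w' hw' => ?_
        rw [Finset.mem_powerset] at hw'
        rw [if_pos, mul_one]
        rw [Finset.disjoint_union_right]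
        refine ⟨h, ?_⟩
        rw [Finset.disjoint_left]
        intro x hx hx'
        exact (Finset.mem_sdiff.1 (hw' hx')).2 hx
      · intro w' hw' hw''
        rw [if_neg, mul_zero]
        intro h4
        rw [Finset.disjoint_union_right] at h4
        apply hw''
        rw [Finset.mem_powerset] at hw' ⊢
        intro x hx
        exact Finset.mem_sdiff.2 ⟨hw' hx, fun hxa => (Finset.disjoint_left.1 h4.2) hxa hx⟩
    rw [h2]
    have h3 := Finset.sum_powerset_neg_one_pow_card (x := w \ a)
    have h4 : ∑ w' ∈ (w \ a).powerset, (-1 : ℝ) ^ w'.card =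
        ((∑ w' ∈ (w \ a).powerset, (-1 : ℤ) ^ w'.card : ℤ) : ℝ) := by push_cast; rfl
    rw [h4, h3]
    by_cases h5 : a ∩ T = w
    · rw [if_pos h5, if_pos (h1.1 h5), Int.cast_one]
    · rw [if_neg h5, if_neg (fun h6 => h5 (h1.2 h6)), Int.cast_zero]
  · rw [if_neg, Finset.sum_eq_zero]
    · intro w' _
      rw [if_neg, mul_zero]
      intro h1
      exact h (Finset.disjoint_union_right.1 h1).1
    · intro h1
      apply h
      rw [Finset.disjoint_left]
      intro x hx hx'
      obtain ⟨h2, h3⟩ := Finset.mem_sdiff.1 hx'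
      apply h3
      rw [← h1]
      exact Finset.mem_inter.2 ⟨hx, h2⟩

private theorem pt_eq {N : ℕ} (U : Finset (Finset (Fin N))) (T w : Finset (Fin N)) (hw : w ⊆ T) :
    pt U T w = ∑ w' ∈ w.powerset, (-1) ^ w'.card * av U ((T \ w) ∪ w') := by
  have h1 : ((U.filter fun a => a ∩ T = w).card : ℝ) =
      ∑ w' ∈ w.powerset, (-1) ^ w'.card *
        ((U.filter fun a => Disjoint a ((T \ w) ∪ w')).card : ℝ) := by
    have h2 : ∀ w', ((U.filter fun a => Disjoint a ((T \ w) ∪ w')).card : ℝ) =
        ∑ a ∈ U, (if Disjoint a ((T \ w) ∪ w') then (1 : ℝ) else 0) := by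
      intro w'
      rw [Finset.card_filter]
      push_cast
      rfl
    rw [Finset.card_filter]
    push_cast
    rw [Finset.sum_congr rfl fun a _ => trace_ind a T w hw, Finset.sum_comm]
    refine Finset.sum_congr rfl fun w' _ => ?_
    rw [h2, Finset.mul_sum]
  unfold pt av
  rw [h1, Finset.sum_div]
  refine Finset.sum_congr rfl fun w' _ => ?_
  rw [mul_div_assoc]

private theorem bt_eq {N : ℕ} (T w : Finset (Fin N)) :
    bt T w = ∑ w' ∈ w.powerset, (-1) ^ w'.card * q ^ ((T \ w) ∪ w').card := by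
  unfold bt
  have h1 := Finset.sum_pow_mul_eq_add_pow (-q) 1 w
  have h2 : -q + 1 = 1 - q := by ring
  rw [h2] at h1
  rw [← h1, Finset.mul_sum]
  refine Finset.sum_congr rfl fun w' hw' => ?_
  rw [Finset.mem_powerset] at hw'
  have h3 : Disjoint (T \ w) w' := by
    rw [Finset.disjoint_left]
    intro x hx hx'
    exact (Finset.mem_sdiff.1 hx).2 (hw' hx')
  rw [Finset.card_union_of_disjoint h3, pow_add, one_pow, mul_one, neg_pow]
  ring

theorem trace_sum {N : ℕ} (U : Finset (Finset (Fin N))) (hU : U.Nonempty) (T w : Finset (Fin N))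
    (hw : w ⊆ T) :
    |pt U T w - bt T w| ≤ ∑ w' ∈ w.powerset, |av U ((T \ w) ∪ w') - q ^ ((T \ w) ∪ w').card| := by
  rw [pt_eq U T w hw, bt_eq T w, ← Finset.sum_sub_distrib]
  refine (Finset.abs_sum_le_sum_abs _ _).trans (Finset.sum_le_sum fun w' _ => ?_)
  rw [← mul_sub, abs_mul, abs_pow, abs_neg, abs_one, one_pow, one_mul]

theorem exists_sys {N k : ℕ} (U : Finset (Finset (Fin N))) (hU : U.Nonempty)
    (T : Fin N → Finset (Fin N)) (hT : Sys k T) :
    ∃ T' : Fin N → Finset (Fin N), Sys k T' ∧ (∀ i, T' i ⊆ T i) ∧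
      ∀ i, ∀ w ⊆ T i, |pt U (T i) w - bt (T i) w| ≤
        2 ^ k * |av U (T' i) - q ^ (T' i).card| := by
  have hsub : ∀ i, ∃ S ⊆ T i, ∀ w ⊆ T i, |pt U (T i) w - bt (T i) w| ≤
      2 ^ k * |av U S - q ^ S.card| := by
    intro i
    obtain ⟨S, hS, hmax⟩ := Finset.exists_max_image (T i).powerset
      (fun S => |av U S - q ^ S.card|) ⟨∅, Finset.empty_mem_powerset _⟩
    refine ⟨S, Finset.mem_powerset.1 hS, fun w hw => ?_⟩
    refine (trace_sum U hU (T i) w hw).trans ?_
    have h1 : ∀ w' ∈ w.powerset,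
        |av U ((T i \ w) ∪ w') - q ^ ((T i \ w) ∪ w').card| ≤ |av U S - q ^ S.card| := by
      intro w' hw'
      refine hmax _ (Finset.mem_powerset.2 ?_)
      exact Finset.union_subset Finset.sdiff_subset ((Finset.mem_powerset.1 hw').trans hw)
    have h2 := Finset.sum_le_card_nsmul _ _ _ h1
    refine h2.trans ?_
    rw [Finset.card_powerset, nsmul_eq_mul]
    refine mul_le_mul_of_nonneg_right ?_ (abs_nonneg _)
    push_cast
    exact pow_le_pow_right₀ (by norm_num) ((Finset.card_le_card hw).trans (hT.2 i))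
  choose T' hT'1 hT'2 using hsub
  refine ⟨T', ⟨fun i j hij => ?_, fun i => (Finset.card_le_card (hT'1 i)).trans (hT.2 i)⟩, hT'1, hT'2⟩
  exact Finset.disjoint_of_subset_left (hT'1 i) (Finset.disjoint_of_subset_right (hT'1 j)
    (hT.1 i j hij))

end EMS
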